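import Pool.Agent.U575.MD.Lh
import Pool.Agent.N879.QM.Avg
import Pool.Agent.N879.QM.Uni

/-! Averages of products of L-functions to the right of the line of absolute convergence. -/

set_option autoImplicit false

open Complex Set Filter Topology MeasureTheory

namespace Pool.Agent.U575.MD

open Pool.Agent.N879.QM
open Pool.Agent.U575.NC

noncomputable section

/-- the summatory function -/
def AA (k M : ℕ) (X : ℝ) (s : Fin k → ℂ) : ℂ := ∑ q ∈ Q 1 X, vl 1 q M * ∏ j, LL 1 q (s j)

lemma mem_Q' {s : ℤ} {X : ℝ} {q : ℕ} (h : q ∈ Q s X) : Is s q := (mem_Q h).2.2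

lemma vl_mul (s : ℤ) (q m n : ℕ) : vl s q (m * n) = vl s q m * vl s q n := by
  unfold vl
  rw [Nat.cast_mul, map_mul]

lemma Q_one (s : ℤ) : Q s 1 = ∅ := by
  unfold Q
  rw [Nat.ceil_one]
  rfl

lemma AA_one (k M : ℕ) (s : Fin k → ℂ) : AA k M 1 s = 0 := by
  unfold AA
  rw [Q_one, Finset.sum_empty]

/-- the Dirichlet series -/
lemma LL_hasSum {q : ℕ} (h : Is 1 q) {t : ℂ} (ht : 1 < t.re) :
    HasSum (fun n : ℕ => LSeries.term (fun n => vl 1 q n) t n) (LL 1 q t) := by
  have hq : q ≠ 0 := by have := h.1; omega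
  have : NeZero q := ⟨hq⟩
  have e1 : LL 1 q t = LSeries (fun n => ch 1 q n) t := by
    unfold LL
    rw [dif_pos hq]
    exact DirichletCharacter.LFunction_eq_LSeries _ ht
  have hS : LSeriesSummable (fun n => ch 1 q n) t :=
    DirichletCharacter.LSeriesSummable_of_one_lt_re _ ht
  rw [e1]
  exact hS.hasSum

/-- **averages of the products** -/
theorem avg (k : ℕ) {ρ : ℝ} (hρ : 0 < ρ) : ∃ C : ℝ, 0 < C ∧ ∀ s : Fin k → ℂ, (∀ j, 3 / 2 + ρ ≤ (s j).re) →
    ∀ M : ℕ, 1 ≤ M → ∃ c : ℂ, ∀ X : ℝ, 1 ≤ X → ‖AA k M X s - c * X‖ ≤ C * √X * √M := by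
  induction k with
  | zero =>
      obtain ⟨C, hC, h⟩ := t_AVG t_UNI
      refine ⟨C, hC, fun s _ M hM => ?_⟩
      by_cases hsq : IsSquare M
      · refine ⟨((c0 * af M : ℝ) : ℂ), fun X hX => ?_⟩
        have := (h 1 X M (Or.inl rfl) hX hM).1 hsq
        unfold AA
        simp only [Finset.univ_eq_empty, Finset.prod_empty, mul_one]
        have e : (((c0 * af M : ℝ) : ℂ) * X) = ((c0 * X * af M : ℝ) : ℂ) := by
          push_cast
          ring
        rw [e]
        exact this
      · refine ⟨0, fun X hX => ?_⟩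
        have := (h 1 X M (Or.inl rfl) hX hM).2 hsq
        unfold AA
        simp only [Finset.univ_eq_empty, Finset.prod_empty, mul_one, zero_mul, sub_zero]
        exact this
  | succ k ih =>
      obtain ⟨C, hC, ih⟩ := ih
      have hz := sum_q hρ
      refine ⟨C * (∑' n : ℕ, (n : ℝ) ^ (-(1 + ρ))) + 1, by
        have : 0 ≤ ∑' n : ℕ, (n : ℝ) ^ (-(1 + ρ)) := tsum_nonneg fun n => by positivity
        positivity, fun s hs M hM => ?_⟩
      set s' : Fin k → ℂ := fun j => s j.castSucc with hs'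
      set t : ℂ := s (Fin.last k) with ht
      have htre : 3 / 2 + ρ ≤ t.re := hs _
      have hex : ∀ n : ℕ, ∃ c : ℂ, 1 ≤ n → ∀ X : ℝ, 1 ≤ X → ‖AA k (M * n) X s' - c * X‖ ≤ C * √X * √((M * n : ℕ) : ℝ) := by
        intro n
        by_cases hn : 1 ≤ n
        · obtain ⟨c, hc⟩ := ih s' (fun j => hs _) (M * n) (Nat.mul_pos hM hn)
          exact ⟨c, fun _ => hc⟩
        · exact ⟨0, fun h => absurd h hn⟩
      choose c hc using hex
      have hcb : ∀ n : ℕ, 1 ≤ n → ‖c n‖ ≤ C * √((M * n : ℕ) : ℝ) := by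
        intro n hn
        have := hc n hn 1 le_rfl
        rwa [AA_one, zero_sub, norm_neg, ofReal_one, mul_one, Real.sqrt_one, mul_one] at this
      have hsz : ∀ n : ℕ, 1 ≤ n → √((M * n : ℕ) : ℝ) / (n : ℝ) ^ t.re ≤ √M * (n : ℝ) ^ (-(1 + ρ)) := by
        intro n hn
        have hnR : (1 : ℝ) ≤ n := by exact_mod_cast hn
        have hn0 : (0 : ℝ) < n := by linarith
        rw [Nat.cast_mul, Real.sqrt_mul (Nat.cast_nonneg M), mul_div_assoc]
        refine mul_le_mul_of_nonneg_left ?_ (Real.sqrt_nonneg _)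
        rw [Real.sqrt_eq_rpow, ← Real.rpow_sub hn0]
        exact Real.rpow_le_rpow_of_exponent_le hnR (by linarith)
      have hnorm : ∀ n : ℕ, 1 ≤ n → ‖((n : ℂ) ^ t)‖ = (n : ℝ) ^ t.re := fun n hn => norm_natCast_cpow_of_pos hn t
      -- the main terms
      have hcs : Summable fun n : ℕ => LSeries.term c t n := by
        refine Summable.of_norm_bounded (g := fun n : ℕ => C * √M * (n : ℝ) ^ (-(1 + ρ))) (hz.mul_left _) fun n => ?_
        rcases Nat.eq_zero_or_pos n with h0 | h0
        · subst h0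
          rw [LSeries.term_zero, norm_zero]
          positivity
        · rw [LSeries.term_of_ne_zero (by omega), norm_div, hnorm n h0]
          calc ‖c n‖ / (n : ℝ) ^ t.re ≤ C * √((M * n : ℕ) : ℝ) / (n : ℝ) ^ t.re :=
                div_le_div_of_nonneg_right (hcb n h0) (by positivity)
            _ = C * (√((M * n : ℕ) : ℝ) / (n : ℝ) ^ t.re) := by ring
            _ ≤ C * (√M * (n : ℝ) ^ (-(1 + ρ))) := mul_le_mul_of_nonneg_left (hsz n h0) hC.le
            _ = _ := by ring
      refine ⟨∑' n : ℕ, LSeries.term c t n, fun X hX => ?_⟩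
      have hX0 : 0 ≤ √X := Real.sqrt_nonneg X
      have h1 : HasSum (fun n : ℕ => ∑ q ∈ Q 1 X, vl 1 q M * (∏ j, LL 1 q (s' j)) * LSeries.term (fun n => vl 1 q n) t n)
          (AA (k + 1) M X s) := by
        unfold AA
        have : (∑ q ∈ Q 1 X, vl 1 q M * ∏ j, LL 1 q (s j)) =
            ∑ q ∈ Q 1 X, vl 1 q M * (∏ j, LL 1 q (s' j)) * LL 1 q t := by
          refine Finset.sum_congr rfl fun q _ => ?_
          rw [Fin.prod_univ_castSucc]
          ring
        rw [this]
        refine hasSum_sum fun q hq => ?_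
        exact (LL_hasSum (mem_Q' hq) (by linarith)).mul_left _
      have h2 : HasSum (fun n : ℕ => LSeries.term c t n * (X : ℂ)) ((∑' n : ℕ, LSeries.term c t n) * X) :=
        hcs.hasSum.mul_right _
      have h3 := h1.sub h2
      have h4 : HasSum (fun n : ℕ => C * √X * √M * (n : ℝ) ^ (-(1 + ρ))) (C * √X * √M * ∑' n : ℕ, (n : ℝ) ^ (-(1 + ρ))) :=
        hz.hasSum.mul_left _
      have h5 := h3.norm_le_of_bounded h4 fun n => by
        rcases Nat.eq_zero_or_pos n with h0 | h0
        · subst h0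
          simp only [LSeries.term_zero, mul_zero, Finset.sum_const_zero, zero_mul, sub_zero, norm_zero]
          positivity
        · have e1 : (∑ q ∈ Q 1 X, vl 1 q M * (∏ j, LL 1 q (s' j)) * LSeries.term (fun n => vl 1 q n) t n) -
              LSeries.term c t n * (X : ℂ) = (AA k (M * n) X s' - c n * X) / (n : ℂ) ^ t := by
            unfold AA
            rw [LSeries.term_of_ne_zero (by omega), sub_div, Finset.sum_div]
            congr 1
            · refine Finset.sum_congr rfl fun q _ => ?_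
              rw [LSeries.term_of_ne_zero (by omega), vl_mul]
              ring
            · ring
          rw [e1, norm_div, hnorm n h0]
          calc ‖AA k (M * n) X s' - c n * X‖ / (n : ℝ) ^ t.re ≤ C * √X * √((M * n : ℕ) : ℝ) / (n : ℝ) ^ t.re :=
                div_le_div_of_nonneg_right (hc n h0 X hX) (by positivity)
            _ = C * √X * (√((M * n : ℕ) : ℝ) / (n : ℝ) ^ t.re) := by ring
            _ ≤ C * √X * (√M * (n : ℝ) ^ (-(1 + ρ))) := mul_le_mul_of_nonneg_left (hsz n h0) (by positivity)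
            _ = _ := by ring
      refine h5.trans ?_
      have h6 : 0 ≤ √X * √M := by positivity
      nlinarith

end

end Pool.Agent.U575.MD
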