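import Pool.Agent.U575.MD.Fin
import Pool.Agent.Q48.MDS.Main

/-! Kronecker symbols and characters. -/

set_option autoImplicit false

open Complex Set Filter Topology MeasureTheory

namespace Pool.Agent.U575.MD

open Pool.Agent.N879.QM
open Pool.Agent.N879.QM.Avg (fam fam_surj fam_mem rp_of vl_eq odd_part sqf_one)
open Pool.Agent.Q48.MDS (tube Tempered orth sigma FundDisc kronTwo kron Lchi ContinuesTo coef summable_coef kron_one_left
  norm_kron_le)
open Pool.Agent.H306R2.RG (FD F8 F4 F1 cf jo)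
open Pool.Agent.H306R2.RZ (js)
open Pool.Agent.U575.NC

noncomputable section

lemma jac_four (a : ℤ) {n : ℕ} (hn : Odd n) : jacobiSym (4 * a) n = jacobiSym a n := by
  rw [jacobiSym.mul_left]
  have h : jacobiSym 4 n = 1 := by
    have h2 : Int.gcd 2 n = 1 := by
      have := Nat.coprime_two_left.2 hn
      exact_mod_cast this
    have := jacobiSym.sq_one' h2
    norm_num at this
    exact this
  rw [h, one_mul]

lemma kron_val (q : ℕ) {n : ℕ} : kron q n = kronTwo q ^ (n.factorization 2) * jacobiSym q (n / 2 ^ (n.factorization 2)) := by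
  unfold kron
  rw [Nat.factorization_def n Nat.prime_two]

/-- the four families -/
lemma fam_kron (i : Fin 4) (d : ℕ) (hA : (fam 1 i).A d) (hs : Squarefree d) : FundDisc ((fam 1 i).r * d) ∧
    ∀ n : ℕ, n ≠ 0 → ((cf (fam 1 i) d n : ℝ) : ℂ) = ((kron ((fam 1 i).r * d) n : ℤ) : ℂ) := by
  match i with
  | 0 =>
    have hd : Odd d := hA
    have hr : (fam 1 0).r = 8 := rfl
    have he : (fam 1 0).e = 2 := rfl
    have hη : (fam 1 0).η = 0 := rfl
    obtain ⟨c, hc⟩ := hd
    refine ⟨Or.inr ⟨2 * d, by rw [hr]; ring, Or.inl (by omega), ?_⟩, fun n hn => ?_⟩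
    · rw [Nat.squarefree_mul_iff]
      refine ⟨Nat.coprime_two_left.2 ⟨c, hc⟩, Nat.prime_two.squarefree, hs⟩
    · have ho := odd_part hn
      have hk : kronTwo (8 * d) = 0 := by
        unfold kronTwo
        rw [if_neg (by omega), if_neg (by omega)]
      rw [kron_val, hr, hk]
      unfold cf jo
      rw [hη, he, if_pos ho]
      unfold js
      have hj : jacobiSym ((8 * d : ℕ) : ℤ) (n / 2 ^ (n.factorization 2)) =
          jacobiSym (2 * (d : ℤ)) (n / 2 ^ (n.factorization 2)) := by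
        rw [← jac_four (2 * (d : ℤ)) ho]
        congr 1
        push_cast
        ring
      rw [hj]
      push_cast
      ring
  | 1 =>
    have hd : (1 * (d : ℤ)) % 4 = 3 := hA
    have hr : (fam 1 1).r = 4 := rfl
    have he : (fam 1 1).e = 1 := rfl
    have hη : (fam 1 1).η = 0 := rfl
    refine ⟨Or.inr ⟨d, by rw [hr], Or.inr (by omega), hs⟩, fun n hn => ?_⟩
    have ho := odd_part hn
    have hk : kronTwo (4 * d) = 0 := by
      unfold kronTwo
      rw [if_neg (by omega), if_neg (by omega)]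
    rw [kron_val, hr, hk]
    unfold cf jo
    rw [hη, he, if_pos ho]
    unfold js
    have hj : jacobiSym ((4 * d : ℕ) : ℤ) (n / 2 ^ (n.factorization 2)) =
        jacobiSym (1 * (d : ℤ)) (n / 2 ^ (n.factorization 2)) := by
      rw [← jac_four (1 * (d : ℤ)) ho]
      congr 1
      push_cast
      ring
    rw [hj]
    push_cast
    ring
  | 2 =>
    have hd : (1 * (d : ℤ)) % 8 = 1 := hA.1
    have hr : (fam 1 2).r = 1 := rfl
    have he : (fam 1 2).e = 1 := rfl
    have hη : (fam 1 2).η = 1 := by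
      show (if (1 : ℤ) = 1 then (1 : ℝ) else -1) = 1
      rw [if_pos rfl]
    refine ⟨Or.inl ⟨by rw [hr]; omega, by rwa [hr, one_mul]⟩, fun n hn => ?_⟩
    have ho := odd_part hn
    have hk : kronTwo (1 * d) = 1 := by
      unfold kronTwo
      rw [if_pos (by omega)]
    rw [kron_val, hr, hk]
    unfold cf jo
    rw [hη, he, if_pos ho]
    unfold js
    push_cast
    ring_nf
  | 3 =>
    have hd : (1 * (d : ℤ)) % 8 = 5 := hA.1
    have hr : (fam 1 3).r = 1 := rfl
    have he : (fam 1 3).e = 1 := rfl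
    have hη : (fam 1 3).η = -1 := by
      show (if (5 : ℤ) = 1 then (1 : ℝ) else -1) = -1
      rw [if_neg (by norm_num)]
    refine ⟨Or.inl ⟨by rw [hr]; omega, by rwa [hr, one_mul]⟩, fun n hn => ?_⟩
    have ho := odd_part hn
    have hk : kronTwo (1 * d) = -1 := by
      unfold kronTwo
      rw [if_neg (by omega), if_pos (by omega)]
    rw [kron_val, hr, hk]
    unfold cf jo
    rw [hη, he, if_pos ho]
    unfold js
    push_cast
    ring_nf

lemma fund_fam {q : ℕ} (hq : 2 ≤ q) (h : FundDisc q) : ∃ (i : Fin 4) (d : ℕ), (fam 1 i).A d ∧ Squarefree d ∧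
    q = (fam 1 i).r * d := by
  rcases h with ⟨h1, h2⟩ | ⟨m, rfl, h1 | h1, h2⟩
  · have hns : ¬ IsSquare (1 * (q : ℤ)) := fun h3 => by
      have := sqf_one h2 h3
      omega
    have h8 : q % 8 = 1 ∨ q % 8 = 5 := by omega
    rcases h8 with h8 | h8
    · exact ⟨2, q, ⟨by show (1 * (q : ℤ)) % 8 = 1; omega, hns⟩, h2, (one_mul q).symm⟩
    · exact ⟨3, q, ⟨by show (1 * (q : ℤ)) % 8 = 5; omega, hns⟩, h2, (one_mul q).symm⟩
  · obtain ⟨d, rfl⟩ : ∃ d, m = 2 * d := ⟨m / 2, by omega⟩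
    refine ⟨0, d, ?_, ?_, ?_⟩
    · show Odd d
      exact ⟨d / 2, by omega⟩
    · exact h2.squarefree_of_dvd (Dvd.intro_left 2 rfl)
    · show 4 * (2 * d) = 8 * d
      ring
  · exact ⟨1, m, by show (1 * (m : ℤ)) % 4 = 3; omega, h2, rfl⟩

/-- **characters and Kronecker symbols** -/
theorem cls {q : ℕ} (hq : 2 ≤ q) : (Is 1 q ↔ FundDisc q) ∧ (Is 1 q → ∀ n : ℕ, n ≠ 0 → vl 1 q n = ((kron q n : ℤ) : ℂ)) := by
  refine ⟨⟨?_, ?_⟩, ?_⟩
  · rintro ⟨-, χ, hχ⟩
    obtain ⟨i, d, h1, h2, rfl⟩ := fam_surj 1 q hq χ hχ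
    exact (fam_kron i d h1 h2).1
  · intro h
    obtain ⟨i, d, h1, h2, rfl⟩ := fund_fam hq h
    obtain ⟨-, -, -, χ, hχ, -⟩ := rp_of 1 (Or.inl rfl) (fam 1 i) (fam_mem 1 i) d h1 h2
    exact ⟨hq, χ, hχ⟩
  · rintro ⟨-, χ, hχ⟩ n hn
    obtain ⟨i, d, h1, h2, rfl⟩ := fam_surj 1 q hq χ hχ
    obtain ⟨-, -, -, χ', hχ', hv⟩ := rp_of 1 (Or.inl rfl) (fam 1 i) (fam_mem 1 i) d h1 h2
    rw [vl_eq t_UNI hq χ' hχ' n, hv n hn]
    exact (fam_kron i d h1 h2).2 n hn

lemma Lchi_eq {q : ℕ} (hq : Is 1 q) {s : ℂ} (hs : 1 < s.re) : Lchi q s = LL 1 q s := by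
  have hq0 : q ≠ 0 := by have := hq.1; omega
  have : NeZero q := ⟨hq0⟩
  have e1 : LL 1 q s = LSeries (fun n => ch 1 q n) s := by
    unfold LL
    rw [dif_pos hq0]
    exact DirichletCharacter.LFunction_eq_LSeries _ hs
  rw [e1]
  unfold Lchi
  refine LSeries_congr (fun {n} hn => ?_) s
  exact ((cls hq.1).2 hq n hn).symm

lemma Lchi_one {s : ℂ} (hs : 1 < s.re) : Lchi 1 s = riemannZeta s := by
  unfold Lchi
  rw [← LSeries_one_eq_riemannZeta hs]
  refine LSeries_congr (fun {n} _ => ?_) s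
  rw [kron_one_left]
  simp

theorem F_bridge {k M : ℕ} (hM : 1 ≤ M) {z : Fin (k + 1) → ℂ} (hz : z ∈ tube (orth (k + 1))) :
    Pool.Agent.Q48.MDS.F k M z = FF k M z := by
  classical
  have hz1 : z ∈ tube (Rg k 1 1) := ⟨hz 0, fun j => hz j.succ⟩
  have hsum : Summable fun q => gq k M z q := by
    have h := gq_summable (M := M) GB_zero (z := z) (k := k) (by
      unfold Reg
      rw [mul_zero, add_zero]
      exact hz1)
    exact h.of_norm
  set f : ℕ → ℂ := fun d => ((kron d M : ℤ) : ℂ) * (d : ℂ) ^ (-(z 0)) * ∏ j : Fin k, Lchi d (z j.succ) with hf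
  have hterm : ∀ q : ℕ, ({d : ℕ | FundDisc d}.indicator f) q =
      gq k M z q + if q = 1 then ∏ j : Fin k, riemannZeta (z j.succ) else 0 := by
    intro q
    by_cases h0 : q = 0
    · subst h0
      rw [indicator_of_notMem, gq_eq_aq, aq_small (by norm_num), zero_mul, if_neg (by norm_num), add_zero]
      rintro (⟨h1, -⟩ | ⟨m, h1, h2, -⟩)
      · omega
      · omega
    by_cases h1 : q = 1
    · subst h1
      rw [indicator_of_mem (show (1 : ℕ) ∈ {d : ℕ | FundDisc d} from Or.inl ⟨rfl, squarefree_one⟩), if_pos rfl, gq_eq_aq,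
        aq_small (by norm_num), zero_mul, zero_add]
      simp only [hf]
      rw [kron_one_left, Nat.cast_one, one_cpow, Int.cast_one, one_mul, one_mul]
      exact Finset.prod_congr rfl fun j _ => Lchi_one (hz j.succ)
    · rw [if_neg h1, add_zero]
      have hq2 : 2 ≤ q := by omega
      unfold gq
      by_cases hI : Is 1 q
      · rw [indicator_of_mem (show q ∈ {d : ℕ | FundDisc d} from (cls hq2).1.1 hI), if_pos hI]
        simp only [hf]
        unfold fq
        rw [(cls hq2).2 hI M (by omega)]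
        congr 1
        exact Finset.prod_congr rfl fun j _ => Lchi_eq hI (hz j.succ)
      · rw [indicator_of_notMem (show q ∉ {d : ℕ | FundDisc d} from fun h => hI ((cls hq2).1.2 h)), if_neg hI]
  have hA : Pool.Agent.Q48.MDS.A k M z = BB k M z + ∏ j : Fin k, riemannZeta (z j.succ) := by
    have h1 : Pool.Agent.Q48.MDS.A k M z = ∑' q : ℕ, ({d : ℕ | FundDisc d}.indicator f) q := by
      unfold Pool.Agent.Q48.MDS.A
      exact tsum_subtype {d : ℕ | FundDisc d} f
    rw [h1]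
    simp only [hterm]
    exact (hsum.hasSum.add (hasSum_ite_eq (1 : ℕ) (∏ j : Fin k, riemannZeta (z j.succ)))).tsum_eq
  unfold Pool.Agent.Q48.MDS.F FF PF
  rw [hA, add_sub_cancel_right]

theorem CT_bridge {k M : ℕ} (hM : 1 ≤ M) (p : Fin (k + 1) → ℝ) : ContinuesTo k M p ↔ CT k M p := by
  constructor
  · rintro ⟨Ω, h1, h2, h3, h4, G, hG, he⟩
    exact ⟨Ω, h1, h2, h3, h4, G, hG, fun z hz => (he hz).trans (F_bridge hM hz)⟩
  · rintro ⟨Ω, h1, h2, h3, h4, G, hG, he⟩
    exact ⟨Ω, h1, h2, h3, h4, G, hG, fun z hz => (he hz).trans (F_bridge hM hz).symm⟩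

end

end Pool.Agent.U575.MD
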