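import Pool.Agent.U575.MD.Dom
import Pool.Agent.Q48.MDS.Glue

/-! The central point. -/

set_option autoImplicit false

open Complex Set Filter Topology MeasureTheory

namespace Pool.Agent.U575.MD

open Pool.Agent.N879.QM
open H855R2.SF
open Pool.Agent.Q48.MDS (tube Tempered orth sigma isOpen_tube bochner mem_of_ge tempered_glue eqOn_tube isOpen_orth
  orth_nonempty)
open Pool.Agent.U575.NC

noncomputable section

/-- a bound on one vertical line gives bounds to the right -/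
lemma GB_of_line {σ₁ θ : ℝ} (h0 : -1 / 4 ≤ σ₁) (h1 : σ₁ ≤ 1 / 2) (hθ : 0 ≤ θ)
    (h : ∃ (C : ℝ) (N : ℕ), 0 < C ∧ ∀ q, Is 1 q → ∀ t : ℝ, ‖LL 1 q (σ₁ + t * I)‖ ≤ C * (q : ℝ) ^ θ * (1 + |t|) ^ N) :
    GB θ σ₁ := by
  intro ρ hρ
  obtain ⟨C, N, hC, hb⟩ := h
  obtain ⟨B, hB1, hB⟩ := LL_right
  have hfr0 := fr_nonneg 0
  have hfrN := fr_nonneg N
  set D : ℝ := Real.exp 4 / 2 * (B * fr 0) + Real.exp 3 / ρ * (C * fr N) with hD
  have hD0 : 0 ≤ D := by positivity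
  refine ⟨B + D, N, by positivity, fun q hq z hz => ?_⟩
  have hq1 : (1 : ℝ) ≤ q := by
    have := hq.1
    exact_mod_cast (by omega : 1 ≤ q)
  have hqe : 1 ≤ (q : ℝ) ^ θ := Real.one_le_rpow hq1 hθ
  have hT : 1 ≤ (1 + |z.im|) ^ N := one_le_pow₀ (by linarith [abs_nonneg z.im])
  have hP : 1 ≤ (q : ℝ) ^ θ * (1 + |z.im|) ^ N := one_le_mul_of_one_le_of_one_le hqe hT
  rcases le_or_gt (5 / 4) z.re with h2 | h2
  · have h3 := hB 1 q hq z h2
    calc ‖LL 1 q z‖ ≤ (B + D) * 1 := by linarith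
      _ ≤ (B + D) * ((q : ℝ) ^ θ * (1 + |z.im|) ^ N) := mul_le_mul_of_nonneg_left hP (by positivity)
      _ = _ := by ring
  · have key := step_bd hq (σ := z.re) (a := σ₁ - z.re) (b := 2) (l := 0) (t := z.im)
      (A₁ := B) (A₂ := C * (q : ℝ) ^ θ) (N₁ := 0) (N₂ := N) (by linarith) two_pos (by linarith)
      (fun u => by
        have := hB 1 q hq ((z.re + 2 : ℝ) + u * I) (by simp; linarith)
        rw [pow_zero, mul_one]
        exact this) (fun u => by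
        have := hb q hq u
        have e1 : ((z.re + (σ₁ - z.re) : ℝ) : ℂ) + u * I = σ₁ + u * I := by
          push_cast
          ring
        rw [e1]
        exact this)
    rw [re_add_im] at key
    refine key.trans ?_
    have hab : |σ₁ - z.re| = z.re - σ₁ := by
      rw [abs_of_neg (by linarith)]
      ring
    have p1 : Real.exp (0 * 2 + 2 ^ 2) / 2 * (B * (1 + |z.im|) ^ 0 * fr 0) ≤
        Real.exp 4 / 2 * (B * fr 0) * ((q : ℝ) ^ θ * (1 + |z.im|) ^ N) := by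
      have e1 : Real.exp (0 * 2 + 2 ^ 2) = Real.exp 4 := by norm_num
      rw [e1, pow_zero, mul_one]
      exact le_mul_of_one_le_right (by positivity) hP
    have p2 : Real.exp (0 * (σ₁ - z.re) + (σ₁ - z.re) ^ 2) / |σ₁ - z.re| *
        (C * (q : ℝ) ^ θ * (1 + |z.im|) ^ N * fr N) ≤
        Real.exp 3 / ρ * (C * fr N) * ((q : ℝ) ^ θ * (1 + |z.im|) ^ N) := by
      have e1 : Real.exp (0 * (σ₁ - z.re) + (σ₁ - z.re) ^ 2) / |σ₁ - z.re| ≤ Real.exp 3 / ρ := by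
        rw [hab]
        refine div_le_div₀ (Real.exp_pos _).le (Real.exp_le_exp.2 ?_) hρ (by linarith)
        nlinarith
      calc _ ≤ Real.exp 3 / ρ * (C * (q : ℝ) ^ θ * (1 + |z.im|) ^ N * fr N) :=
            mul_le_mul_of_nonneg_right e1 (by positivity)
        _ = _ := by ring
    calc _ ≤ Real.exp 4 / 2 * (B * fr 0) * ((q : ℝ) ^ θ * (1 + |z.im|) ^ N) +
          Real.exp 3 / ρ * (C * fr N) * ((q : ℝ) ^ θ * (1 + |z.im|) ^ N) := add_le_add p1 p2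
      _ = D * ((q : ℝ) ^ θ * (1 + |z.im|) ^ N) := by rw [hD]; ring
      _ ≤ (B + D) * ((q : ℝ) ^ θ * (1 + |z.im|) ^ N) := mul_le_mul_of_nonneg_right (by linarith) (by positivity)
      _ = _ := by ring

/-- the functional equation -/
lemma GB_left : GB (3 / 4) (-1 / 4) := by
  refine GB_of_line (by norm_num) (by norm_num) (by norm_num) ?_
  have H := dir_afam SA
  obtain ⟨C, hC0, hC⟩ := H.refl
  obtain ⟨B, hB1, hB⟩ := LL_right
  refine ⟨C * B + 1, 1, by positivity, fun q hq t => ?_⟩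
  have h3 := hC (tD hq) (3 / 4) t (by norm_num) le_rfl
  have e1 : (1 / 2 - 3 / 4 : ℝ) = -1 / 4 := by norm_num
  have e2 : (1 / 2 + 3 / 4 : ℝ) = 5 / 4 := by norm_num
  rw [e1, e2, tD_L, tD_L, tD_Q] at h3
  have e3 : (((-1 / 4 : ℝ) : ℂ) + t * I) = ⟨-1 / 4, t⟩ := by
    apply Complex.ext <;> simp
  rw [e3]
  have h4 := hB 1 q hq ⟨5 / 4, t⟩ le_rfl
  have hq1 : (1 : ℝ) ≤ q := by
    have := hq.1
    exact_mod_cast (by omega : 1 ≤ q)
  have hT : 1 ≤ 1 + |t| := by linarith [abs_nonneg t]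
  have h5 : ((q : ℝ) * (1 + |t|)) ^ (3 / 4 : ℝ) ≤ (q : ℝ) ^ (3 / 4 : ℝ) * (1 + |t|) := by
    rw [Real.mul_rpow (by positivity) (by positivity)]
    refine mul_le_mul_of_nonneg_left ?_ (by positivity)
    calc (1 + |t|) ^ (3 / 4 : ℝ) ≤ (1 + |t|) ^ (1 : ℝ) := Real.rpow_le_rpow_of_exponent_le hT (by norm_num)
      _ = _ := Real.rpow_one _
  have h6 : 0 ≤ (q : ℝ) ^ (3 / 4 : ℝ) * (1 + |t|) := by positivity
  calc ‖LL 1 q ⟨-1 / 4, t⟩‖ ≤ C * ((q : ℝ) * (1 + |t|)) ^ (3 / 4 : ℝ) * ‖LL 1 q ⟨5 / 4, t⟩‖ := h3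
    _ ≤ C * ((q : ℝ) ^ (3 / 4 : ℝ) * (1 + |t|)) * B :=
        mul_le_mul (mul_le_mul_of_nonneg_left h5 hC0) h4 (norm_nonneg _) (by positivity)
    _ = C * B * ((q : ℝ) ^ (3 / 4 : ℝ) * (1 + |t|)) := by ring
    _ ≤ (C * B + 1) * ((q : ℝ) ^ (3 / 4 : ℝ) * (1 + |t|)) := mul_le_mul_of_nonneg_right (by linarith) h6
    _ = _ := by rw [pow_one]; ring

/-- points of the regions where `F` itself is tempered -/
theorem CT_of_mem {k M : ℕ} {α β : ℝ} (h : Tempered (Rg k α β) (FF k M)) {p : Fin (k + 1) → ℝ} (hp : p ∈ Rg k α β) :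
    CT k M p := by
  obtain ⟨G, hG, e1, e2⟩ := tempered_glue (isOpen_Rg k α β) (isOpen_Rg k 1 1) h (FF_orth k M) (fun _ _ => rfl)
  have horth : orth (k + 1) ⊆ Rg k 1 1 := fun x hx => ⟨hx 0, fun j => hx j.succ⟩
  refine ⟨Rg k α β ∪ Rg k 1 1, (isOpen_Rg _ _ _).union (isOpen_Rg _ _ _), ?_, fun x hx => Or.inr (horth hx),
    Or.inl hp, G, hG, fun z hz => e2 (horth hz)⟩
  have hpt : ∀ α' β' : ℝ, α' ≤ |α| + |β| + 1 → β' ≤ |α| + |β| + 1 →
      (fun _ => |α| + |β| + 2 : Fin (k + 1) → ℝ) ∈ Rg k α' β' := by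
    intro α' β' h1 h2
    refine ⟨?_, fun j => ?_⟩
    · show α' < |α| + |β| + 2
      linarith
    · show β' < |α| + |β| + 2
      linarith
  have hα := le_abs_self α
  have hβ := le_abs_self β
  have hα0 := abs_nonneg α
  have hβ0 := abs_nonneg β
  exact IsConnected.union ⟨_, hpt α β (by linarith) (by linarith), hpt 1 1 (by linarith) (by linarith)⟩
    ⟨⟨_, hpt α β (by linarith) (by linarith)⟩, (convex_Rg _ _ _).isPreconnected⟩
    ⟨⟨_, hpt 1 1 (by linarith) (by linarith)⟩, (convex_Rg _ _ _).isPreconnected⟩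

/-- the set of the points to which `F` continues is convex -/
theorem convex_CT (k M : ℕ) : Convex ℝ {p : Fin (k + 1) → ℝ | CT k M p} := by
  intro p hp q hq a b ha hb hab
  obtain ⟨Ω, hΩo, hΩc, hsub, hpΩ, G₀, hG₀, hGeq⟩ := hp
  obtain ⟨G, hG, hGG⟩ := bochner hΩo hΩc hG₀
  obtain ⟨Ω', hΩo', hΩc', hsub', hpΩ', G₀', hG₀', hGeq'⟩ := hq
  obtain ⟨G', hG', hGG'⟩ := bochner hΩo' hΩc' hG₀'
  have hW : Ω ⊆ convexHull ℝ Ω := subset_convexHull ℝ Ω
  have hW' : Ω' ⊆ convexHull ℝ Ω' := subset_convexHull ℝ Ω'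
  set W₁ := convexHull ℝ Ω with hW₁
  set W₂ := convexHull ℝ Ω' with hW₂
  have ho₁ : IsOpen W₁ := hΩo.convexHull
  have ho₂ : IsOpen W₂ := hΩo'.convexHull
  have hs₁ : orth (k + 1) ⊆ W₁ := hsub.trans hW
  have hs₂ : orth (k + 1) ⊆ W₂ := hsub'.trans hW'
  have he : EqOn G G' (tube (W₁ ∩ W₂)) := by
    refine eqOn_tube (isOpen_orth _) (orth_nonempty _) (ho₁.inter ho₂)
      ((convex_convexHull ℝ Ω).inter (convex_convexHull ℝ Ω')) (subset_inter hs₁ hs₂)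
      (hG.1.mono fun z hz => hz.1) (hG'.1.mono fun z hz => hz.2) (fun z hz => ?_)
    rw [hGG (hsub hz), hGeq hz, hGG' (hsub' hz), hGeq' hz]
  obtain ⟨g, hg, hg₁, hg₂⟩ := tempered_glue ho₁ ho₂ hG hG' he
  have hconn : IsConnected (W₁ ∪ W₂) := by
    refine ⟨⟨p, Or.inl (hW hpΩ)⟩, ?_⟩
    obtain ⟨x, hx⟩ := orth_nonempty (k + 1)
    exact IsPreconnected.union x (hs₁ hx) (hs₂ hx) (convex_convexHull ℝ Ω).isPreconnected
      (convex_convexHull ℝ Ω').isPreconnected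
  obtain ⟨g', hg', hgg'⟩ := bochner (ho₁.union ho₂) hconn hg
  have hWW : W₁ ∪ W₂ ⊆ convexHull ℝ (W₁ ∪ W₂) := subset_convexHull ℝ _
  refine ⟨convexHull ℝ (W₁ ∪ W₂), (ho₁.union ho₂).convexHull,
    ⟨⟨p, hWW (Or.inl (hW hpΩ))⟩, (convex_convexHull ℝ _).isPreconnected⟩,
    (hs₁.trans subset_union_left).trans hWW, ?_, g', hg', fun z hz => ?_⟩
  · exact (convex_convexHull ℝ (W₁ ∪ W₂)) (hWW (Or.inl (hW hpΩ))) (hWW (Or.inr (hW' hpΩ'))) ha hb hab
  · rw [hgg' (show z ∈ tube (W₁ ∪ W₂) from Or.inl (hs₁ hz)), hg₁ (hs₁ hz), hGG (hsub hz), hGeq hz]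

/-- **continuation beyond the last polar hyperplane at one diagonal point gives the centre** -/
theorem center_of_diag {k M : ℕ} {w₀ σ₀ : ℝ} (hσ : 1 / 2 ≤ σ₀) (hw : w₀ + k * (σ₀ - 1 / 2) < 1)
    (h : CT k M (Fin.cons w₀ fun _ => σ₀)) : CT k M (Fin.cons 1 fun _ => 1 / 2) := by
  have hk0 : (0 : ℝ) ≤ k := Nat.cast_nonneg k
  set s : ℝ := σ₀ - 1 / 2 with hs
  have hs0 : 0 ≤ s := by linarith
  set g : ℝ := 1 - w₀ - k * s with hg
  have hg0 : 0 < g := by linarith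
  have hks : 0 ≤ k * s := mul_nonneg hk0 hs0
  -- the second point
  set ν : ℝ := (3 / 4) * g / (k * s + g + s + 1 + g) with hν
  have hden : 0 < k * s + g + s + 1 + g := by linarith
  have hν0 : 0 < ν := by positivity
  have hνe : ν * (k * s + g + s + 1 + g) = (3 / 4) * g := by
    rw [hν]
    field_simp
  have hν1 : ν < 3 / 4 := by
    by_contra hcon
    push Not at hcon
    have : (3 / 4) * (k * s + g + s + 1 + g) ≤ (3 / 4) * g := by
      rw [← hνe]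
      exact mul_le_mul_of_nonneg_right hcon hden.le
    linarith
  have h2 : CT k M (Fin.cons (1 + k * (3 / 4) + ν) fun _ => -1 / 4 + ν) := by
    refine CT_of_mem (FF_tempered k M GB_left) ⟨?_, fun j => ?_⟩
    · show 1 + k * (3 / 4) < 1 + k * (3 / 4) + ν
      linarith
    · show -1 / 4 < -1 / 4 + ν
      linarith
  -- the combination
  set y : ℝ := k * (3 / 4) + ν with hy
  have hy0 : 0 < y := by positivity
  set D : ℝ := 1 - w₀ with hD
  have hD0 : 0 < D := by linarith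
  have hyD : 0 < y + D := by linarith
  have hc := convex_CT k M h2 h (div_nonneg hD0.le hyD.le) (div_nonneg hy0.le hyD.le)
    (by rw [← add_div, add_comm, div_self hyD.ne'])
  refine CT.up hc fun i => ?_
  refine Fin.cases ?_ (fun j => ?_) i
  · show D / (y + D) * (1 + k * (3 / 4) + ν) + y / (y + D) * w₀ ≤ 1
    rw [div_mul_eq_mul_div, div_mul_eq_mul_div, ← add_div, div_le_one hyD]
    have : D * (1 + k * (3 / 4) + ν) + y * w₀ = y + D := by
      rw [hD, hy]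
      ring
    linarith
  · show D / (y + D) * (-1 / 4 + ν) + y / (y + D) * σ₀ ≤ 1 / 2
    rw [div_mul_eq_mul_div, div_mul_eq_mul_div, ← add_div, div_le_iff₀ hyD]
    have e1 : σ₀ = 1 / 2 + s := by rw [hs]; ring
    have e2 : D = k * s + g := by rw [hg, hD]; ring
    rw [e1, e2]
    have hgν : 0 ≤ g * ν := by positivity
    nlinarith

theorem center_iff {k M : ℕ} : CT k M (Fin.cons 1 fun _ => 1 / 2) ↔
    ∃ w₀ σ₀ : ℝ, 1 / 2 ≤ σ₀ ∧ w₀ + k * (σ₀ - 1 / 2) < 1 ∧ CT k M (Fin.cons w₀ fun _ => σ₀) := by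
  constructor
  · rintro ⟨Ω, hΩo, hΩc, hsub, hp, hG⟩
    have hcont : Continuous fun x : ℝ => (Fin.cons x fun _ => 1 / 2 : Fin (k + 1) → ℝ) := by
      refine continuous_pi fun i => ?_
      refine Fin.cases ?_ (fun j => ?_) i
      · exact continuous_id
      · exact continuous_const
    have hopen := hΩo.preimage hcont
    obtain ⟨r, hr, hball⟩ := Metric.isOpen_iff.1 hopen 1 hp
    refine ⟨1 - r / 2, 1 / 2, le_rfl, by linarith, Ω, hΩo, hΩc, hsub, ?_, hG⟩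
    apply hball
    rw [Metric.mem_ball, Real.dist_eq, show 1 - r / 2 - 1 = -(r / 2) by ring, abs_neg, abs_of_pos (by linarith)]
    linarith
  · rintro ⟨w₀, σ₀, h1, h2, h3⟩
    exact center_of_diag h1 h2 h3

end

end Pool.Agent.U575.MD
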