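import Pool.Agent.U575.MD.Tr

/-! The continuation to `Re w > 1/2`, `Re s_j > 3/2`. -/

set_option autoImplicit false

open Complex Set Filter Topology MeasureTheory

namespace Pool.Agent.U575.MD

open Pool.Agent.N879.QM
open Pool.Agent.Q48.MDS (tube Tempered orth sigma isOpen_tube differentiableOn_integral)
open Pool.Agent.U575.NC

noncomputable section

/-- the second region -/
abbrev Tg (k : ℕ) : Set (Fin (k + 1) → ℝ) := Rg k (1 / 2) (3 / 2)

lemma point_Rg {k : ℕ} {α β : ℝ} {z : Fin (k + 1) → ℂ} (hz : z ∈ tube (Rg k α β)) : ∃ ρ : ℝ, 0 < ρ ∧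
    α + ρ ≤ (z 0).re ∧ ∀ j : Fin k, β + ρ ≤ (z j.succ).re := by
  obtain ⟨ρ, hρ, h⟩ := compact_Rg (K := {fun i => (z i).re}) (by rintro x rfl; exact hz) isCompact_singleton
  exact ⟨ρ, hρ, h _ rfl⟩

/-- a neighbourhood inside the region -/
lemma nhd_Rg {k : ℕ} {α β : ℝ} {z₀ : Fin (k + 1) → ℂ} (hz : z₀ ∈ tube (Rg k α β)) : ∃ ρ : ℝ, 0 < ρ ∧
    ∃ V ∈ 𝓝 z₀, ∀ z ∈ V, α + ρ ≤ (z 0).re ∧ ∀ j : Fin k, β + ρ ≤ (z j.succ).re := by
  obtain ⟨ρ, hρ, h1, h2⟩ := point_Rg hz
  obtain ⟨V, hV, hb⟩ := nhd_bound z₀ (half_pos hρ)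
  refine ⟨ρ / 2, half_pos hρ, V, hV, fun z hz => ⟨?_, fun j => ?_⟩⟩
  · have := (abs_le.1 ((hb z hz).1 0)).1
    linarith
  · have := (abs_le.1 ((hb z hz).1 j.succ)).1
    have := h2 j
    linarith

lemma cc_diff (k M : ℕ) (hM : 1 ≤ M) : DifferentiableOn ℂ (cc k M) (tube (Tg k)) := by
  have hr0 : 0 ≤ √(1 / 2 : ℝ) := Real.sqrt_nonneg _
  have hr1 : √(1 / 2 : ℝ) < 1 := by
    rw [Real.sqrt_lt' one_pos]
    norm_num
  have hgeo : Summable fun i : ℕ => (√(1 / 2 : ℝ)) ^ i := summable_geometric_of_lt_one hr0 hr1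
  have hint : EqOn (cc k M) (fun z => ∫ i, (uu k M (i + 1) z - uu k M i z) ∂(Measure.count : Measure ℕ)) (tube (Tg k)) := by
    intro z hz
    obtain ⟨ρ, hρ, -, h2⟩ := point_Rg hz
    obtain ⟨C, hC, he⟩ := est k M hM hρ
    obtain ⟨-, h4, -⟩ := he z h2
    have hi : Integrable (fun i => uu k M (i + 1) z - uu k M i z) (Measure.count : Measure ℕ) := by
      rw [integrable_count_iff]
      exact Summable.of_nonneg_of_le (fun _ => norm_nonneg _) h4 (hgeo.mul_left C)
    simp only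
    rw [integral_countable' hi]
    unfold cc
    refine tsum_congr fun q => ?_
    simp
  refine DifferentiableOn.congr ?_ hint
  refine differentiableOn_integral (isOpen_tube (isOpen_Rg _ _ _)) (fun z i => uu k M (i + 1) z - uu k M i z)
    (fun i => ((uu_diff k M (i + 1)).sub (uu_diff k M i)).differentiableOn)
    (fun z _ => (measurable_from_nat).aestronglyMeasurable) ?_
  intro z₀ hz₀
  obtain ⟨ρ, hρ, V, hV, h⟩ := nhd_Rg hz₀
  obtain ⟨C, hC, he⟩ := est k M hM hρ
  refine ⟨V, hV, fun i => C * (√(1 / 2 : ℝ)) ^ i, ?_, fun z hz i => (he z (h z hz).2).2.1 i⟩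
  rw [integrable_count_iff]
  exact (hgeo.mul_left C).norm

/-- the integrand -/
def it (k M : ℕ) (z : Fin (k + 1) → ℂ) (t : ℝ) : ℂ :=
  if 1 < t then (SS k M ⌊t⌋₊ z - cc k M z * t) * (t : ℂ) ^ (-(z 0 + 1)) else 0

/-- the integral -/
def II (k M : ℕ) (z : Fin (k + 1) → ℂ) : ℂ := ∫ t in Ioi (1 : ℝ), it k M z t

lemma it_bound (k M : ℕ) (hM : 1 ≤ M) {ρ : ℝ} (hρ : 0 < ρ) : ∃ C : ℝ, 0 < C ∧ ∀ z : Fin (k + 1) → ℂ,
    1 / 2 + ρ ≤ (z 0).re → (∀ j : Fin k, 3 / 2 + ρ ≤ (z j.succ).re) → ∀ t : ℝ,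
      ‖it k M z t‖ ≤ if 1 < t then C * t ^ (-(1 + ρ)) else 0 := by
  obtain ⟨C, hC, he⟩ := est k M hM hρ
  refine ⟨C, hC, fun z h0 hj t => ?_⟩
  unfold it
  by_cases ht : 1 < t
  · rw [if_pos ht, if_pos ht, norm_mul]
    have ht0 : 0 < t := by linarith
    have h1 := (he z hj).2.2 t ht.le
    rw [Complex.norm_cpow_eq_rpow_re_of_pos ht0]
    calc ‖SS k M ⌊t⌋₊ z - cc k M z * t‖ * t ^ (-(z 0 + 1)).re ≤ (C * √t) * t ^ (-(3 / 2 + ρ)) := by
          refine mul_le_mul h1 (Real.rpow_le_rpow_of_exponent_le ht.le ?_) (by positivity) (by positivity)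
          rw [neg_re, add_re, one_re]
          linarith
      _ = C * (t ^ (1 / 2 : ℝ) * t ^ (-(3 / 2 + ρ))) := by
          rw [Real.sqrt_eq_rpow]
          ring
      _ = _ := by
          rw [← Real.rpow_add ht0]
          congr 2
          ring
  · rw [if_neg ht, if_neg ht, norm_zero]

lemma bd_int {ρ : ℝ} (hρ : 0 < ρ) (C : ℝ) :
    IntegrableOn (fun t : ℝ => if 1 < t then C * t ^ (-(1 + ρ)) else 0) (Ioi 1) := by
  have h := (integrableOn_Ioi_rpow_of_lt (a := -(1 + ρ)) (c := 1) (by linarith) one_pos).const_mul C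
  refine IntegrableOn.congr_fun h (fun t ht => ?_) measurableSet_Ioi
  have ht' : 1 < t := ht
  rw [if_pos ht']

lemma it_meas (k M : ℕ) (z : Fin (k + 1) → ℂ) : Measurable (it k M z) := by
  unfold it
  refine Measurable.ite measurableSet_Ioi ?_ measurable_const
  have h1 : Measurable fun t : ℝ => SS k M ⌊t⌋₊ z :=
    (measurable_from_nat (f := fun n => SS k M n z)).comp Nat.measurable_floor
  have h2 : Measurable fun t : ℝ => (t : ℂ) := Complex.measurable_ofReal
  have h3 : Measurable fun t : ℝ => (t : ℂ) ^ (-(z 0 + 1)) := h2.pow_const _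
  exact (h1.sub (h2.const_mul _)).mul h3

lemma it_diff (k M : ℕ) (hM : 1 ≤ M) (t : ℝ) : DifferentiableOn ℂ (fun z => it k M z t) (tube (Tg k)) := by
  unfold it
  by_cases ht : 1 < t
  · simp only [if_pos ht]
    have h1 : Differentiable ℂ fun z : Fin (k + 1) → ℂ => SS k M ⌊t⌋₊ z := by
      unfold SS
      exact Differentiable.fun_sum fun q _ => aq_diff k M q
    have h2 : Differentiable ℂ fun z : Fin (k + 1) → ℂ => (t : ℂ) ^ (-(z 0 + 1)) := by
      have h3 : Differentiable ℂ fun z : Fin (k + 1) → ℂ => -(z 0 + 1) := by fun_prop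
      exact h3.const_cpow (Or.inl (by exact_mod_cast (by linarith : t ≠ 0)))
    exact (h1.differentiableOn.sub ((cc_diff k M hM).mul_const _)).mul h2.differentiableOn
  · simp only [if_neg ht]
    exact differentiableOn_const _

lemma II_tempered (k M : ℕ) (hM : 1 ≤ M) : Tempered (Tg k) (II k M) := by
  refine tempered_of_bdd ?_ ?_
  · refine differentiableOn_integral (μ := volume.restrict (Ioi (1 : ℝ))) (isOpen_tube (isOpen_Rg _ _ _))
      (fun z t => it k M z t) (fun t => it_diff k M hM t) (fun z _ => (it_meas k M z).aestronglyMeasurable) ?_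
    intro z₀ hz₀
    obtain ⟨ρ, hρ, V, hV, h⟩ := nhd_Rg hz₀
    obtain ⟨C, hC, he⟩ := it_bound k M hM hρ
    exact ⟨V, hV, _, bd_int hρ C, fun z hz t => he z (h z hz).1 (h z hz).2 t⟩
  · intro K hK hc
    obtain ⟨ρ, hρ, h⟩ := compact_Rg hK hc
    obtain ⟨C, hC, he⟩ := it_bound k M hM hρ
    refine ⟨∫ t in Ioi (1 : ℝ), if 1 < t then C * t ^ (-(1 + ρ)) else 0, fun z hz => ?_⟩
    obtain ⟨h1, h2⟩ := h _ hz
    exact norm_integral_le_of_norm_le (bd_int hρ C) (Eventually.of_forall fun t => he z h1 h2 t)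

lemma cc_tempered (k M : ℕ) (hM : 1 ≤ M) : Tempered (Tg k) (cc k M) := by
  refine tempered_of_bdd (cc_diff k M hM) ?_
  intro K hK hc
  obtain ⟨ρ, hρ, h⟩ := compact_Rg hK hc
  obtain ⟨C, hC, he⟩ := est k M hM hρ
  exact ⟨C, fun z hz => (he z (h _ hz).2).1⟩

/-- the continuation -/
def GT (k M : ℕ) (z : Fin (k + 1) → ℂ) : ℂ :=
  (z 0 * cc k M z + (z 0 + -1) * z 0 * II k M z) * ∏ J ∈ Finset.univ.erase (∅ : Finset (Fin k)), (sigma J z - 1)

theorem GT_tempered (k M : ℕ) (hM : 1 ≤ M) : Tempered (Tg k) (GT k M) := by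
  unfold GT
  have h0 : Tempered (Tg k) (fun z => z 0) := coord_tempered (0 : Fin (k + 1))
  have h1 : Tempered (Tg k) (fun z : Fin (k + 1) → ℂ => z 0 + -1) := Tempered.add h0 (const_tempered (-1))
  exact Tempered.mul (Tempered.add (Tempered.mul h0 (cc_tempered k M hM))
    (Tempered.mul (Tempered.mul h1 h0) (II_tempered k M hM)))
    (Tempered.finset_prod _ fun J _ => sigma_tempered J)

lemma one_int {w : ℂ} (hw : 1 < w.re) : ∫ t in Ioi (1 : ℝ), (t : ℂ) * (t : ℂ) ^ (-(w + 1)) = 1 / (w - 1) := by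
  have h1 : ∫ t in Ioi (1 : ℝ), (t : ℂ) * (t : ℂ) ^ (-(w + 1)) = ∫ t in Ioi (1 : ℝ), (t : ℂ) ^ (-w) := by
    refine setIntegral_congr_fun measurableSet_Ioi fun t ht => ?_
    have ht0 : (t : ℂ) ≠ 0 := by
      have : (1 : ℝ) < t := ht
      exact_mod_cast (by linarith : t ≠ 0)
    rw [show -w = -(w + 1) + 1 by ring, cpow_add _ _ ht0, cpow_one]
    ring
  rw [h1, integral_Ioi_cpow_of_lt (by rw [neg_re]; linarith) one_pos, ofReal_one, one_cpow]
  have h2 : w - 1 ≠ 0 := by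
    intro h
    have := congrArg Complex.re h
    simp at this
    linarith
  have h3 : -w + 1 ≠ 0 := by
    intro h
    apply h2
    linear_combination -h
  field_simp
  ring

theorem GT_eq (k M : ℕ) (hM : 1 ≤ M) {z : Fin (k + 1) → ℂ} (hz : z ∈ tube (Rg k 1 (3 / 2))) :
    GT k M z = FF k M z := by
  obtain ⟨ρ, hρ, h0, hj⟩ := point_Rg hz
  obtain ⟨C, hC, he⟩ := est k M hM hρ
  obtain ⟨hcc, -, hS⟩ := he z hj
  have hz0 : (1 : ℝ) < (z 0).re := hz.1
  -- absolute convergence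
  have hsum : Summable fun q => ‖gq k M z q‖ := by
    have hB : GB 0 1 := by
      intro ρ hρ
      refine ⟨(∑' n : ℕ, 1 / (n : ℝ) ^ (1 + ρ)) + 1, 0, by
        have : 0 ≤ ∑' n : ℕ, 1 / (n : ℝ) ^ (1 + ρ) := tsum_nonneg fun n => by positivity
        positivity, fun q hq z hz => ?_⟩
      rw [← tD_L hq, Real.rpow_zero, pow_zero, mul_one, mul_one]
      have := H855R2.SF.right_dir (χ := (tD hq).χ) (δ := ρ) hρ (s := z) hz
      have e : H855R2.SF.dirL (tD hq) z = DirichletCharacter.LFunction (tD hq).χ z := rfl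
      rw [e]
      linarith
    refine gq_summable (θ := 0) (σ₀ := 1) hB ⟨?_, fun j => ?_⟩
    · show 1 + k * (0 : ℝ) < (z 0).re
      linarith
    · show (1 : ℝ) < (z j.succ).re
      linarith [hj j]
  have hterm : ∀ q, LSeries.term (fun q => aq k M q z) (z 0) q = gq k M z q := by
    intro q
    rcases Nat.eq_zero_or_pos q with h | h
    · subst h
      rw [LSeries.term_zero, gq_eq_aq, aq_small (by norm_num), zero_mul]
    · rw [LSeries.term_of_ne_zero (by omega), gq_eq_aq, cpow_neg]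
      rfl
  have hLS : LSeriesSummable (fun q => aq k M q z) (z 0) := by
    unfold LSeriesSummable
    refine (hsum.of_norm).congr fun q => ?_
    rw [hterm]
  have hO : (fun n ↦ ∑ q ∈ Finset.Icc 1 n, aq k M q z) =O[atTop] fun n : ℕ ↦ (n : ℝ) ^ (1 : ℝ) := by
    refine Asymptotics.IsBigO.of_bound (2 * C) ?_
    filter_upwards [eventually_ge_atTop 1] with n hn
    have hnR : (1 : ℝ) ≤ n := by exact_mod_cast hn
    have h1 := hS n hnR
    rw [Nat.floor_natCast] at h1
    have h2 : ‖SS k M n z‖ ≤ ‖cc k M z * (n : ℝ)‖ + C * √n := by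
      have : SS k M n z = cc k M z * (n : ℝ) + (SS k M n z - cc k M z * (n : ℝ)) := by ring
      rw [this]
      exact (norm_add_le _ _).trans (add_le_add le_rfl (by simpa using h1))
    have h3 : ‖cc k M z * (n : ℝ)‖ ≤ C * n := by
      rw [norm_mul, Complex.norm_real, Real.norm_of_nonneg (by linarith)]
      exact mul_le_mul_of_nonneg_right hcc (by linarith)
    have h4 : √(n : ℝ) ≤ n := by
      rw [Real.sqrt_le_left (by linarith)]
      nlinarith
    rw [Real.rpow_one, Real.norm_of_nonneg (by linarith : (0 : ℝ) ≤ n)]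
    have h5 := mul_le_mul_of_nonneg_left h4 hC.le
    show ‖SS k M n z‖ ≤ _
    linarith
  have hmain := LSeries_eq_mul_integral (fun q => aq k M q z) (r := 1) zero_le_one (s := z 0) hz0 hLS hO
  have hBB : BB k M z = LSeries (fun q => aq k M q z) (z 0) := by
    unfold BB LSeries
    exact tsum_congr fun q => (hterm q).symm
  -- splitting the integral
  have hiI : IntegrableOn (it k M z) (Ioi 1) := by
    obtain ⟨C', hC', he'⟩ := it_bound k M hM hρ
    refine (bd_int hρ C').mono' (it_meas k M z).aestronglyMeasurable (Eventually.of_forall fun t => ?_)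
    exact he' z (by linarith) hj t
  have hi2 : IntegrableOn (fun t : ℝ => (t : ℂ) * (t : ℂ) ^ (-(z 0 + 1))) (Ioi 1) := by
    have h1 := integrableOn_Ioi_cpow_of_lt (a := -(z 0)) (c := 1) (by rw [neg_re]; linarith) one_pos
    refine IntegrableOn.congr_fun h1 (fun t ht => ?_) measurableSet_Ioi
    have ht0 : (t : ℂ) ≠ 0 := by
      have : (1 : ℝ) < t := ht
      exact_mod_cast (by linarith : t ≠ 0)
    rw [show -(z 0) = -(z 0 + 1) + 1 by ring, cpow_add _ _ ht0, cpow_one]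
    ring
  have hsplit : ∫ t in Ioi (1 : ℝ), (∑ q ∈ Finset.Icc 1 ⌊t⌋₊, aq k M q z) * (t : ℂ) ^ (-(z 0 + 1)) =
      II k M z + cc k M z * (1 / (z 0 - 1)) := by
    rw [← one_int hz0, ← integral_const_mul]
    unfold II
    rw [← integral_add hiI (hi2.const_mul _)]
    refine setIntegral_congr_fun measurableSet_Ioi fun t ht => ?_
    have : (1 : ℝ) < t := ht
    unfold it
    rw [if_pos this]
    unfold SS
    ring
  have hz1 : z 0 - 1 ≠ 0 := by
    intro h
    have := congrArg Complex.re h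
    simp at this
    linarith
  have hPF : PF z = (z 0 - 1) * ∏ J ∈ Finset.univ.erase (∅ : Finset (Fin k)), (sigma J z - 1) := by
    unfold PF
    rw [← Finset.mul_prod_erase Finset.univ (fun J => sigma J z - 1) (Finset.mem_univ (∅ : Finset (Fin k)))]
    congr 1
    unfold sigma
    simp
  unfold FF
  rw [hBB, hmain, hsplit, hPF]
  unfold GT
  field_simp
  ring

end

end Pool.Agent.U575.MD
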