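import Pool.Agent.U575.MD.Ext

/-! From the continuation of the multiple Dirichlet series to bounds for the L-functions. -/

set_option autoImplicit false

open Complex Set Filter Topology MeasureTheory
open scoped ComplexConjugate

namespace Pool.Agent.U575.MD

open Pool.Agent.N879.QM
open Pool.Agent.Q48.MDS (tube Tempered orth sigma isOpen_tube bochner eqOn_tube mem_of_ge isOpen_orth)
open Pool.Agent.U575.NC

noncomputable section

/-- `F` continues to `p` -/
def CT (k M : ℕ) (p : Fin (k + 1) → ℝ) : Prop :=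
  ∃ Ω : Set (Fin (k + 1) → ℝ), IsOpen Ω ∧ IsConnected Ω ∧ orth (k + 1) ⊆ Ω ∧ p ∈ Ω ∧
    ∃ G : (Fin (k + 1) → ℂ) → ℂ, Tempered Ω G ∧ EqOn G (FF k M) (tube (orth (k + 1)))

theorem CT.up {k M : ℕ} {p q : Fin (k + 1) → ℝ} (h : CT k M p) (hpq : ∀ i, p i ≤ q i) : CT k M q := by
  obtain ⟨Ω, hΩo, hΩc, hsub, hp, G₀, hG₀, hGeq⟩ := h
  obtain ⟨G, hG, hGG⟩ := bochner hΩo hΩc hG₀
  have hΩW : Ω ⊆ convexHull ℝ Ω := subset_convexHull ℝ Ω
  refine ⟨convexHull ℝ Ω, hΩo.convexHull, ⟨⟨p, hΩW hp⟩, (convex_convexHull ℝ Ω).isPreconnected⟩,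
    hsub.trans hΩW, ?_, G, hG, fun z hz => ?_⟩
  · exact mem_of_ge hΩo.convexHull (convex_convexHull ℝ Ω) (hsub.trans hΩW) (hΩW hp) hpq
  · rw [hGG (hsub hz), hGeq hz]

lemma GB_one : GB 1 (-1 / 4) := by
  obtain ⟨G, hG1, hG⟩ := growth
  intro ρ hρ
  refine ⟨G, 1, by linarith, fun q hq z hz => ?_⟩
  have := hG 1 q hq z (by linarith)
  rw [Real.rpow_one, pow_one]
  linarith

lemma PF_lower {k : ℕ} {a : ℝ} (ha : 1 < a) {z : Fin (k + 1) → ℂ} (h0 : a ≤ (z 0).re)
    (hj : ∀ j : Fin k, 1 / 2 ≤ (z j.succ).re) : (a - 1) ^ (Fintype.card (Finset (Fin k))) ≤ ‖PF z‖ := by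
  unfold PF
  rw [norm_prod]
  calc (a - 1) ^ (Fintype.card (Finset (Fin k))) = ∏ _J : Finset (Fin k), (a - 1) := by
        rw [Finset.prod_const, Finset.card_univ]
    _ ≤ _ := by
        refine Finset.prod_le_prod (fun _ _ => by linarith) fun J _ => ?_
        have h1 := Complex.re_le_norm (sigma J z - 1)
        have h2 : (sigma J z - 1).re = (z 0).re - 1 + ∑ j ∈ J, ((z j.succ).re - 1 / 2) := by
          unfold sigma
          rw [sub_re, add_re, sub_re, re_sum, Finset.sum_sub_distrib, Finset.sum_const, nsmul_eq_mul, one_re]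
          have : ((J.card : ℂ) / 2).re = (J.card : ℝ) / 2 := by
            rw [← ofReal_natCast, ← ofReal_ofNat, ← ofReal_div, ofReal_re]
          rw [this]
          ring
        have h3 : 0 ≤ ∑ j ∈ J, ((z j.succ).re - 1 / 2) := Finset.sum_nonneg fun j _ => by linarith [hj j]
        linarith

theorem coef_bound {k : ℕ} {a ε : ℝ} (ha : 1 < a) (hε : 0 < ε)
    (h : CT k 1 (Fin.cons a fun _ => 1 / 2 + ε)) :
    ∃ (C : ℝ) (N : ℕ), 0 < C ∧ ∀ s : Fin k → ℂ, (∀ j, 1 / 2 + ε ≤ (s j).re ∧ (s j).re ≤ 2) →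
      ∀ r : ℕ → ℝ, (∀ q, 0 ≤ r q) → (∀ q, Is 1 q → ∏ j, LL 1 q (s j) = r q) → (∀ q, ¬ Is 1 q → r q = 0) →
      ∀ (Y : ℝ) (S : Finset ℕ), 0 < Y → (∀ q ∈ S, Y / 2 ≤ q ∧ (q : ℝ) ≤ Y) →
        ∑ q ∈ S, r q ≤ C * Y ^ a * (1 + ‖fun j => (s j).im‖) ^ N := by
  obtain ⟨Ω, hΩo, hΩc, hsub, hp, G₀, hG₀, hGeq⟩ := h
  obtain ⟨G, hG, hGG⟩ := bochner hΩo hΩc hG₀
  set W := convexHull ℝ Ω with hW
  have hΩW : Ω ⊆ W := subset_convexHull ℝ Ω
  have hWo : IsOpen W := hΩo.convexHull
  have hWc : Convex ℝ W := convex_convexHull ℝ Ω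
  have hoW : orth (k + 1) ⊆ W := hsub.trans hΩW
  set c : ℝ := a + k + 2 with hc
  have hk0 : (0 : ℝ) ≤ k := Nat.cast_nonneg k
  have hUt := FF_tempered k 1 GB_one
  set U := Reg k 1 (-1 / 4) with hU
  have hEq : EqOn G (FF k 1) (tube (W ∩ U)) := by
    refine eqOn_tube (Ω := orth (k + 1) ∩ U) ((isOpen_orth _).inter (isOpen_Reg _ _ _)) ?_
      (hWo.inter (isOpen_Reg _ _ _)) (hWc.inter (convex_Reg _ _ _)) (inter_subset_inter_left _ hoW)
      (hG.1.mono fun z hz => hz.1) (hUt.1.mono fun z hz => hz.2) ?_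
    · refine ⟨fun _ => k + 3, fun i => ?_, ?_, fun j => ?_⟩
      · show (1 : ℝ) < k + 3
        linarith
      · show (1 : ℝ) + k * 1 < k + 3
        linarith
      · show (-1 / 4 : ℝ) < k + 3
        linarith
    · intro z hz
      have h1 : z ∈ tube (orth (k + 1)) := hz.1
      rw [hGG (hsub h1), hGeq h1]
  set p : Fin (k + 1) → ℝ := Fin.cons a fun _ => 1 / 2 + ε with hpdef
  set p' : Fin (k + 1) → ℝ := Fin.cons c fun _ => 2 with hp'
  obtain ⟨C₀, N, hC₀⟩ := hG.2 (Icc p p') (fun x hx => mem_of_ge hWo hWc hoW (hΩW hp) hx.1) isCompact_Icc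
  set P : ℕ := Fintype.card (Finset (Fin k)) with hP
  have ha0 : 0 < a - 1 := by linarith
  refine ⟨|C₀| / (a - 1) ^ P * (Real.exp (a ^ 2) * fr N) + 1, N, by
    have := fr_nonneg N
    positivity, fun s hs r hr hr1 hr2 Y S hY hS => one_coef hr hS hY ?_⟩
  set z : ℂ → Fin (k + 1) → ℂ := fun w => Fin.cons w s with hz
  have z0 : ∀ w, z w 0 = w := fun w => rfl
  have zs : ∀ w (j : Fin k), z w j.succ = s j := fun w j => rfl
  have hzK : ∀ w : ℂ, a ≤ w.re → w.re ≤ c → (fun i => (z w i).re) ∈ Icc p p' := by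
    intro w h1 h2
    constructor
    · intro i
      refine Fin.cases ?_ (fun j => ?_) i
      · exact h1
      · exact (hs j).1
    · intro i
      refine Fin.cases ?_ (fun j => ?_) i
      · exact h2
      · exact (hs j).2
  have hzW : ∀ w : ℂ, a ≤ w.re → w.re ≤ c → z w ∈ tube W := fun w h1 h2 =>
    mem_of_ge hWo hWc hoW (hΩW hp) (hzK w h1 h2).1
  have hzU : ∀ w : ℂ, w.re = c → z w ∈ tube U := by
    intro w hw
    refine ⟨?_, fun j => ?_⟩
    · show 1 + k * 1 < w.re
      rw [hw]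
      linarith
    · show -1 / 4 < (s j).re
      linarith [(hs j).1]
  have hPF : ∀ w : ℂ, a ≤ w.re → (a - 1) ^ P ≤ ‖PF (z w)‖ := fun w h1 =>
    PF_lower ha (by rw [z0]; exact h1) fun j => by rw [zs]; linarith [(hs j).1]
  have hPF0 : ∀ w : ℂ, a ≤ w.re → PF (z w) ≠ 0 := fun w h1 => by
    rw [← norm_pos_iff]
    exact lt_of_lt_of_le (by positivity) (hPF w h1)
  have hzd : Differentiable ℂ z := by
    rw [differentiable_pi]
    intro i
    refine Fin.cases ?_ (fun j => ?_) i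
    · exact differentiable_id
    · exact differentiable_const _
  set T : ℝ := 1 + ‖fun j => (s j).im‖ with hT
  have hT1 : 1 ≤ T := by
    rw [hT]
    linarith [norm_nonneg fun j => (s j).im]
  have hgq : ∀ w q, gq k 1 (z w) q = (r q : ℂ) * (q : ℂ) ^ (-w) := by
    intro w q
    unfold gq
    by_cases hI : Is 1 q
    · rw [if_pos hI]
      unfold fq
      simp only [z0, zs]
      rw [hr1 q hI]
      have : vl 1 q 1 = 1 := by
        unfold vl
        rw [Nat.cast_one, map_one]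
      rw [this]
      ring
    · rw [if_neg hI, hr2 q hI]
      simp
  have key := extract_gen (a := a) (c := c) (r := r) (H := fun w => G (z w) / PF (z w))
    (B := |C₀| / (a - 1) ^ P * T ^ N) (N := N) (Y := Y) (by linarith) hr
    (hr2 0 (by
      intro h0
      have := h0.1
      omega)) ?_ ?_ ?_ ?_ hY S
  · refine key.trans ?_
    have h1 := fr_nonneg N
    have h2 : 0 ≤ Y ^ a * T ^ N := by positivity
    calc |C₀| / (a - 1) ^ P * T ^ N * (Real.exp (a ^ 2) * fr N) * Y ^ a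
        = |C₀| / (a - 1) ^ P * (Real.exp (a ^ 2) * fr N) * (Y ^ a * T ^ N) := by ring
      _ ≤ (|C₀| / (a - 1) ^ P * (Real.exp (a ^ 2) * fr N) + 1) * (Y ^ a * T ^ N) :=
          mul_le_mul_of_nonneg_right (by linarith) h2
      _ = _ := by ring
  · have h1 := gq_summable (M := 1) GB_one (hzU c (ofReal_re c))
    refine h1.congr fun q => ?_
    rw [hgq, norm_mul, Complex.norm_real, Real.norm_of_nonneg (hr q)]
    rcases Nat.eq_zero_or_pos q with h0 | h0
    · subst h0
      rw [hr2 0 (by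
        intro h0
        have := h0.1
        omega)]
      simp
    · rw [norm_natCast_cpow_of_pos h0, neg_re, ofReal_re]
  · intro w hw
    have h1 := hEq ⟨hzW w (by rw [hw]; linarith) hw.le, hzU w hw⟩
    show G (z w) / PF (z w) = _
    rw [h1]
    unfold FF
    rw [mul_div_cancel_right₀ _ (hPF0 w (by rw [hw]; linarith))]
    unfold BB
    exact tsum_congr fun q => hgq w q
  · intro w h1 h2
    have e1 : DifferentiableAt ℂ G (z w) := hG.1.differentiableAt ((isOpen_tube hWo).mem_nhds (hzW w h1 h2))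
    have e2 : DifferentiableAt ℂ (fun w => G (z w)) w := e1.comp w (hzd w)
    have e3 : DifferentiableAt ℂ (PF (k := k)) (z w) :=
      (PF_tempered (k := k) univ).1.differentiableAt (by
        have : tube (univ : Set (Fin (k + 1) → ℝ)) = univ := by
          ext x
          simp [tube]
        rw [this]
        exact univ_mem)
    have e4 : DifferentiableAt ℂ (fun w => PF (z w)) w := e3.comp w (hzd w)
    exact e2.div e4 (hPF0 w h1)
  · intro w h1 h2
    have e1 := hC₀ (z w) (hzK w h1 h2)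
    have e2 : ‖fun i => (z w i).im‖ ≤ |w.im| + ‖fun j => (s j).im‖ := by
      rw [pi_norm_le_iff_of_nonneg (by positivity)]
      intro i
      refine Fin.cases ?_ (fun j => ?_) i
      · rw [z0, Real.norm_eq_abs]
        linarith [norm_nonneg fun j => (s j).im]
      · rw [zs]
        have := norm_le_pi_norm (fun j => (s j).im) j
        linarith [abs_nonneg w.im]
    have e3 : 1 + ‖fun i => (z w i).im‖ ≤ (1 + |w.im|) * T := by
      rw [hT]
      nlinarith [abs_nonneg w.im, norm_nonneg fun j => (s j).im, mul_nonneg (abs_nonneg w.im) (norm_nonneg fun j => (s j).im)]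
    show ‖G (z w) / PF (z w)‖ ≤ _
    rw [norm_div, div_le_iff₀ (lt_of_lt_of_le (by positivity) (hPF w h1))]
    calc ‖G (z w)‖ ≤ C₀ * (1 + ‖fun i => (z w i).im‖) ^ N := e1
      _ ≤ |C₀| * ((1 + |w.im|) * T) ^ N := by
          refine mul_le_mul (le_abs_self _) (pow_le_pow_left₀ (by positivity) e3 N) (by positivity) (abs_nonneg _)
      _ = |C₀| / (a - 1) ^ P * T ^ N * (1 + |w.im|) ^ N * (a - 1) ^ P := by
          rw [mul_pow]
          field_simp
      _ ≤ _ := mul_le_mul_of_nonneg_left (hPF w h1) (by positivity)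

end

end Pool.Agent.U575.MD
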