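import Pool.Agent.U575.MD.Cont

/-! From bounds for the L-functions to the continuation. -/

set_option autoImplicit false

open Complex Set Filter Topology MeasureTheory

namespace Pool.Agent.U575.MD

open Pool.Agent.N879.QM
open Pool.Agent.Q48.MDS (tube Tempered orth sigma isOpen_tube bochner mem_of_ge tempered_glue)
open Pool.Agent.U575.NC

noncomputable section

lemma GB_zero : GB 0 1 := by
  intro ρ hρ
  refine ⟨(∑' n : ℕ, 1 / (n : ℝ) ^ (1 + ρ)) + 1, 0, by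
    have : 0 ≤ ∑' n : ℕ, 1 / (n : ℝ) ^ (1 + ρ) := tsum_nonneg fun n => by positivity
    positivity, fun q hq z hz => ?_⟩
  rw [← tD_L hq, Real.rpow_zero, pow_zero, mul_one, mul_one]
  have := H855R2.SF.right_dir (χ := (tD hq).χ) (δ := ρ) hρ (s := z) hz
  have e : H855R2.SF.dirL (tD hq) z = DirichletCharacter.LFunction (tD hq).χ z := rfl
  rw [e]
  linarith

lemma FF_orth (k M : ℕ) : Tempered (Rg k 1 1) (FF k M) := by
  have h := FF_tempered k M GB_zero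
  unfold Reg at h
  rwa [mul_zero, add_zero] at h

/-- **the continuation to the hull** -/
theorem CT_of_tempered {k M : ℕ} (hM : 1 ≤ M) {a : ℝ} (ha : 1 ≤ a) (h : Tempered (Rg k a (1 / 2)) (FF k M)) {ε : ℝ}
    (hε : 0 < ε) : CT k M (Fin.cons a fun _ => 1 / 2 + ε) := by
  obtain ⟨G12, hG12, e1, e2⟩ := tempered_glue (isOpen_Rg k a (1 / 2)) (isOpen_Rg k 1 1) h (FF_orth k M) (fun _ _ => rfl)
  set W12 := Rg k a (1 / 2) ∪ Rg k 1 1 with hW12
  have hW12o : IsOpen W12 := (isOpen_Rg k a (1 / 2)).union (isOpen_Rg k 1 1)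
  have hG12F : ∀ z ∈ tube W12, G12 z = FF k M z := by
    intro z hz
    rcases hz with hz | hz
    · exact e1 hz
    · exact e2 hz
  obtain ⟨G, hG, g1, g2⟩ := tempered_glue hW12o (isOpen_Rg k (1 / 2) (3 / 2)) hG12 (GT_tempered k M hM) (by
    intro z hz
    rw [hG12F z hz.1]
    symm
    apply GT_eq k M hM
    refine ⟨?_, hz.2.2⟩
    rcases hz.1 with h1 | h1
    · exact lt_of_le_of_lt ha h1.1
    · exact h1.1)
  set Ω := W12 ∪ Rg k (1 / 2) (3 / 2) with hΩ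
  have hΩo : IsOpen Ω := hW12o.union (isOpen_Rg _ _ _)
  have hpt : ∀ α β : ℝ, α ≤ a + 1 → β ≤ a + 1 → (fun _ => a + 2 : Fin (k + 1) → ℝ) ∈ Rg k α β := by
    intro α β h1 h2
    refine ⟨?_, fun j => ?_⟩
    · show α < a + 2
      linarith
    · show β < a + 2
      linarith
  have c1 : ∀ α β : ℝ, α ≤ a + 1 → β ≤ a + 1 → IsConnected (Rg k α β) := fun α β h1 h2 =>
    ⟨⟨_, hpt α β h1 h2⟩, (convex_Rg k α β).isPreconnected⟩
  have hΩc : IsConnected Ω := by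
    refine IsConnected.union ⟨fun _ => a + 2, ?_, ?_⟩ (IsConnected.union ⟨fun _ => a + 2, ?_, ?_⟩ ?_ ?_) ?_
    · exact Or.inl (hpt _ _ (by linarith) (by linarith))
    · exact hpt _ _ (by linarith) (by linarith)
    · exact hpt _ _ (by linarith) (by linarith)
    · exact hpt _ _ (by linarith) (by linarith)
    · exact c1 _ _ (by linarith) (by linarith)
    · exact c1 _ _ (by linarith) (by linarith)
    · exact c1 _ _ (by linarith) (by linarith)
  have horth : orth (k + 1) ⊆ Rg k 1 1 := fun x hx => ⟨hx 0, fun j => hx j.succ⟩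
  have ho : orth (k + 1) ⊆ Ω := fun x hx => Or.inl (Or.inr (horth hx))
  obtain ⟨G', hG', hGG'⟩ := bochner hΩo hΩc hG
  have hΩW : Ω ⊆ convexHull ℝ Ω := subset_convexHull ℝ Ω
  have hWo : IsOpen (convexHull ℝ Ω) := hΩo.convexHull
  have hWc := convex_convexHull ℝ Ω
  -- the point
  set la : ℝ := min (1 / 2) (ε / 4) with hla
  have hla0 : 0 < la := lt_min (by norm_num) (by linarith)
  have hla1 : la ≤ 1 / 2 := min_le_left _ _
  have hla2 : la ≤ ε / 4 := min_le_right _ _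
  set x1 : Fin (k + 1) → ℝ := Fin.cons (a + la / 4) fun _ => 1 / 2 + ε / 2 with hx1
  set x2 : Fin (k + 1) → ℝ := Fin.cons (3 / 4) fun _ => 2 with hx2
  have m1 : x1 ∈ Ω := by
    refine Or.inl (Or.inl ⟨?_, fun j => ?_⟩)
    · show a < a + la / 4
      linarith
    · show 1 / 2 < 1 / 2 + ε / 2
      linarith
  have m2 : x2 ∈ Ω := by
    refine Or.inr ⟨?_, fun j => ?_⟩
    · show (1 / 2 : ℝ) < 3 / 4
      norm_num
    · show (3 / 2 : ℝ) < 2
      norm_num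
  have m3 := hWc (hΩW m1) (hΩW m2) (by linarith : (0 : ℝ) ≤ 1 - la) hla0.le (by ring)
  have m4 : (Fin.cons a fun _ => 1 / 2 + ε : Fin (k + 1) → ℝ) ∈ convexHull ℝ Ω := by
    refine mem_of_ge hWo hWc (ho.trans hΩW) m3 fun i => ?_
    refine Fin.cases ?_ (fun j => ?_) i
    · show (1 - la) * (a + la / 4) + la * (3 / 4) ≤ a
      nlinarith
    · show (1 - la) * (1 / 2 + ε / 2) + la * 2 ≤ 1 / 2 + ε
      nlinarith
  refine ⟨convexHull ℝ Ω, hWo, ⟨⟨_, m4⟩, hWc.isPreconnected⟩, ho.trans hΩW, m4, G', hG', fun z hz => ?_⟩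
  have hz1 : z ∈ tube (Rg k 1 1) := horth hz
  rw [hGG' (ho hz), g1 (Or.inr hz1), e2 hz1]

/-- bounds on the critical line give bounds to the right -/
lemma GB_of_GrL {θ θ' : ℝ} (hθ : 0 ≤ θ) (h : GrL θ) (hθ' : θ < θ') : GB θ' (1 / 2) := by
  intro ρ hρ
  obtain ⟨C, N, hC, hb⟩ := h (θ' - θ) (by linarith)
  obtain ⟨B, hB1, hB⟩ := LL_right
  have hfr0 := fr_nonneg 0
  have hfrN := fr_nonneg N
  set D : ℝ := Real.exp 4 / 2 * (B * fr 0) + Real.exp 1 / ρ * (C * fr N) with hD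
  have hD0 : 0 ≤ D := by positivity
  refine ⟨B + D, N, by positivity, fun q hq z hz => ?_⟩
  have hq1 : (1 : ℝ) ≤ q := by
    have := hq.1
    exact_mod_cast (by omega : 1 ≤ q)
  have hqe : 1 ≤ (q : ℝ) ^ θ' := Real.one_le_rpow hq1 (by linarith)
  have hT : 1 ≤ (1 + |z.im|) ^ N := one_le_pow₀ (by linarith [abs_nonneg z.im])
  have hP : 1 ≤ (q : ℝ) ^ θ' * (1 + |z.im|) ^ N := one_le_mul_of_one_le_of_one_le hqe hT
  rcases le_or_gt (5 / 4) z.re with h1 | h1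
  · have h2 := hB 1 q hq z h1
    calc ‖LL 1 q z‖ ≤ (B + D) * 1 := by linarith
      _ ≤ (B + D) * ((q : ℝ) ^ θ' * (1 + |z.im|) ^ N) := mul_le_mul_of_nonneg_left hP (by positivity)
      _ = _ := by ring
  · have key := step_bd hq (σ := z.re) (a := 1 / 2 - z.re) (b := 2) (l := 0) (t := z.im)
      (A₁ := B) (A₂ := C * (q : ℝ) ^ θ') (N₁ := 0) (N₂ := N) (by linarith) two_pos (by linarith)
      (fun u => by
        have := hB 1 q hq ((z.re + 2 : ℝ) + u * I) (by simp; linarith)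
        rw [pow_zero, mul_one]
        exact this) (fun u => by
        have := hb q hq u
        have e1 : ((z.re + (1 / 2 - z.re) : ℝ) : ℂ) + u * I = 1 / 2 + u * I := by
          push_cast
          ring
        rw [e1]
        rwa [show θ + (θ' - θ) = θ' by ring] at this)
    rw [re_add_im] at key
    refine key.trans ?_
    have hab : |(1 / 2 - z.re)| = z.re - 1 / 2 := by
      rw [abs_of_neg (by linarith)]
      ring
    have p1 : Real.exp (0 * 2 + 2 ^ 2) / 2 * (B * (1 + |z.im|) ^ 0 * fr 0) ≤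
        Real.exp 4 / 2 * (B * fr 0) * ((q : ℝ) ^ θ' * (1 + |z.im|) ^ N) := by
      have e1 : Real.exp (0 * 2 + 2 ^ 2) = Real.exp 4 := by norm_num
      rw [e1, pow_zero, mul_one]
      exact le_mul_of_one_le_right (by positivity) hP
    have p2 : Real.exp (0 * (1 / 2 - z.re) + (1 / 2 - z.re) ^ 2) / |(1 / 2 - z.re)| *
        (C * (q : ℝ) ^ θ' * (1 + |z.im|) ^ N * fr N) ≤
        Real.exp 1 / ρ * (C * fr N) * ((q : ℝ) ^ θ' * (1 + |z.im|) ^ N) := by
      have e1 : Real.exp (0 * (1 / 2 - z.re) + (1 / 2 - z.re) ^ 2) / |(1 / 2 - z.re)| ≤ Real.exp 1 / ρ := by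
        rw [hab]
        refine div_le_div₀ (Real.exp_pos _).le (Real.exp_le_exp.2 ?_) hρ (by linarith)
        nlinarith
      calc _ ≤ Real.exp 1 / ρ * (C * (q : ℝ) ^ θ' * (1 + |z.im|) ^ N * fr N) :=
            mul_le_mul_of_nonneg_right e1 (by positivity)
        _ = _ := by ring
    calc _ ≤ Real.exp 4 / 2 * (B * fr 0) * ((q : ℝ) ^ θ' * (1 + |z.im|) ^ N) +
          Real.exp 1 / ρ * (C * fr N) * ((q : ℝ) ^ θ' * (1 + |z.im|) ^ N) := add_le_add p1 p2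
      _ = D * ((q : ℝ) ^ θ' * (1 + |z.im|) ^ N) := by rw [hD]; ring
      _ ≤ (B + D) * ((q : ℝ) ^ θ' * (1 + |z.im|) ^ N) := mul_le_mul_of_nonneg_right (by linarith) (by positivity)
      _ = _ := by ring

/-- exhaustion -/
lemma FF_tempered_lim {k M : ℕ} {θ : ℝ} (h : ∀ θ', θ < θ' → GB θ' (1 / 2)) : Tempered (Rg k (1 + k * θ) (1 / 2)) (FF k M) := by
  have hk0 : (0 : ℝ) ≤ k := Nat.cast_nonneg k
  have hex : ∀ ρ : ℝ, 0 < ρ → ∃ θ', θ < θ' ∧ 1 + k * θ' < 1 + k * θ + ρ := by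
    intro ρ hρ
    refine ⟨θ + ρ / (2 * (k + 1)), by
      have : 0 < ρ / (2 * (k + 1)) := by positivity
      linarith, ?_⟩
    have : (k : ℝ) * (ρ / (2 * (k + 1))) < ρ := by
      rw [mul_div_assoc', div_lt_iff₀ (by positivity)]
      nlinarith
    nlinarith
  constructor
  · intro z hz
    obtain ⟨ρ, hρ, h1, h2⟩ := point_Rg hz
    obtain ⟨θ', hθ', h3⟩ := hex ρ hρ
    have hz' : z ∈ tube (Reg k θ' (1 / 2)) := ⟨lt_of_lt_of_le h3 h1, hz.2⟩
    exact ((FF_tempered k M (h θ' hθ')).1.differentiableAt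
      ((isOpen_tube (isOpen_Reg _ _ _)).mem_nhds hz')).differentiableWithinAt
  · intro K hK hc
    obtain ⟨ρ, hρ, h1⟩ := compact_Rg hK hc
    obtain ⟨θ', hθ', h3⟩ := hex ρ hρ
    exact (FF_tempered k M (h θ' hθ')).2 K (fun x hx => ⟨lt_of_lt_of_le h3 (h1 x hx).1, (hK hx).2⟩) hc

theorem CT_of_GrL {θ : ℝ} (hθ : 0 ≤ θ) (h : GrL θ) (k M : ℕ) (hM : 1 ≤ M) {ε : ℝ} (hε : 0 < ε) :
    CT k M (Fin.cons (1 + k * θ) fun _ => 1 / 2 + ε) := by
  have hk0 : (0 : ℝ) ≤ k := Nat.cast_nonneg k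
  exact CT_of_tempered hM (by nlinarith [mul_nonneg hk0 hθ])
    (FF_tempered_lim fun θ' hθ' => GB_of_GrL hθ h hθ') hε

theorem tfae_GrL {θ : ℝ} (hθ : 0 ≤ θ) : List.TFAE [GrL θ,
    ∀ k M : ℕ, 1 ≤ k → 1 ≤ M → ∀ ε : ℝ, 0 < ε → CT k M (Fin.cons (1 + k * θ) fun _ => 1 / 2 + ε),
    ∀ ε : ℝ, 0 < ε → ∀ K : ℕ, ∃ k : ℕ, K ≤ k ∧ CT k 1 (Fin.cons (1 + k * θ + ε) fun _ => 1 / 2 + ε)] := by
  tfae_have 1 → 2 := fun h k M _ hM ε hε => CT_of_GrL hθ h k M hM hε
  tfae_have 2 → 3 := by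
    intro h ε hε K
    refine ⟨max K 1, le_max_left _ _, (h (max K 1) 1 (le_max_right _ _) le_rfl ε hε).up fun i => ?_⟩
    refine Fin.cases ?_ (fun j => ?_) i
    · show 1 + (max K 1 : ℕ) * θ ≤ 1 + (max K 1 : ℕ) * θ + ε
      linarith
    · exact le_rfl
  tfae_have 3 → 1 := fun h => LH_of_CT hθ h
  tfae_finish

end

end Pool.Agent.U575.MD
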