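import Pool.Agent.U575.MD.Mom
import Pool.Agent.U575.MD.Fwd

/-! From the moments to the continuation. -/

set_option autoImplicit false

open Complex Set Filter Topology MeasureTheory

namespace Pool.Agent.U575.MD

open Pool.Agent.N879.QM
open Pool.Agent.Q48.MDS (tube Tempered orth)
open Pool.Agent.U575.NC

noncomputable section

/-- the weight -/
def wt (N : ℕ) (u : ℝ) : ℝ := ((1 + |u|) ^ N)⁻¹ * (1 + |u|) ^ (-(3 / 2 : ℝ))

lemma wt_pos (N : ℕ) (u : ℝ) : 0 < wt N u := by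
  unfold wt
  positivity

lemma wt_cont (N : ℕ) : Continuous (wt N) := by
  unfold wt
  have h1 : Continuous fun u : ℝ => 1 + |u| := by fun_prop
  refine Continuous.mul ?_ ?_
  · exact (h1.pow N).inv₀ fun u => (by positivity : (0 : ℝ) < (1 + |u|) ^ N).ne'
  · exact h1.rpow_const fun u => Or.inl (by positivity)

/-- the Gaussian is at most the weight -/
lemma gauss_wt (N : ℕ) : ∃ D : ℝ, 0 < D ∧ ∀ t u : ℝ, Real.exp (-1 * (u - t) ^ 2) ≤ D * (1 + |t|) ^ (N + 2) * wt N u := by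
  obtain ⟨D, hD, h⟩ := gauss_pow (K := 1) one_pos (N + 3)
  refine ⟨D, hD, fun t u => ?_⟩
  have h1 : 0 < 1 + |u| := by positivity
  have h2 : 0 < 1 + |t| := by positivity
  have h3 : 0 < 1 + |u - t| := by positivity
  have h4 : 1 + |u| ≤ (1 + |t|) * (1 + |u - t|) := by
    have := abs_add_le t (u - t)
    rw [add_sub_cancel] at this
    nlinarith [abs_nonneg t, abs_nonneg (u - t), mul_nonneg (abs_nonneg t) (abs_nonneg (u - t))]
  have h5 := h (u - t)
  have h6 : (1 + |u|) ^ N * (1 + |u|) ^ (3 / 2 : ℝ) ≤ (1 + |t|) ^ (N + 2) * (1 + |u - t|) ^ (N + 3) := by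
    have e1 : (1 + |u|) ^ (3 / 2 : ℝ) ≤ (1 + |u|) ^ 2 := by
      have := Real.rpow_le_rpow_of_exponent_le (show 1 ≤ 1 + |u| by linarith [abs_nonneg u]) (show (3 / 2 : ℝ) ≤ 2 by norm_num)
      refine this.trans (le_of_eq ?_)
      exact_mod_cast Real.rpow_natCast (1 + |u|) 2
    calc (1 + |u|) ^ N * (1 + |u|) ^ (3 / 2 : ℝ) ≤ (1 + |u|) ^ N * (1 + |u|) ^ 2 :=
          mul_le_mul_of_nonneg_left e1 (by positivity)
      _ = (1 + |u|) ^ (N + 2) := (pow_add _ _ _).symm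
      _ ≤ ((1 + |t|) * (1 + |u - t|)) ^ (N + 2) := pow_le_pow_left₀ h1.le h4 _
      _ = (1 + |t|) ^ (N + 2) * (1 + |u - t|) ^ (N + 2) := mul_pow _ _ _
      _ ≤ _ := by
          refine mul_le_mul_of_nonneg_left ?_ (by positivity)
          exact pow_le_pow_right₀ (by linarith [abs_nonneg (u - t)]) (by omega)
  unfold wt
  rw [Real.rpow_neg h1.le, ← mul_inv, ← div_eq_mul_inv, le_div_iff₀ (by positivity)]
  have h7 : (1 + |u - t|) ^ (-(3 / 2 : ℝ)) ≤ 1 :=
    Real.rpow_le_one_of_one_le_of_nonpos (by linarith [abs_nonneg (u - t)]) (by norm_num)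
  calc Real.exp (-1 * (u - t) ^ 2) * ((1 + |u|) ^ N * (1 + |u|) ^ (3 / 2 : ℝ))
      ≤ Real.exp (-1 * (u - t) ^ 2) * ((1 + |t|) ^ (N + 2) * (1 + |u - t|) ^ (N + 3)) :=
        mul_le_mul_of_nonneg_left h6 (Real.exp_pos _).le
    _ = (1 + |t|) ^ (N + 2) * ((1 + |u - t|) ^ (N + 3) * Real.exp (-1 * (u - t) ^ 2)) := by ring
    _ ≤ (1 + |t|) ^ (N + 2) * (D * (1 + |u - t|) ^ (-(3 / 2 : ℝ))) := mul_le_mul_of_nonneg_left h5 (by positivity)
    _ ≤ (1 + |t|) ^ (N + 2) * (D * 1) :=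
        mul_le_mul_of_nonneg_left (mul_le_mul_of_nonneg_left h7 hD.le) (by positivity)
    _ = _ := by ring

/-- the total weight -/
def tw : ℝ := ∫ u : ℝ, (1 + |u|) ^ (-(3 / 2 : ℝ))

lemma tw_nonneg : 0 ≤ tw := integral_nonneg fun u => by positivity

/-- weighted integrals -/
def Hq (n N q : ℕ) : ℝ := ∫ u : ℝ, ‖LL 1 q (1 / 2 + u * I)‖ ^ n * wt N u

lemma Hq_nonneg (n N q : ℕ) : 0 ≤ Hq n N q := integral_nonneg fun u => by
  have := wt_pos N u
  positivity

lemma Hq_facts {n N : ℕ} {V : ℝ} (hV : 0 ≤ V) {S : Finset ℕ} (hS : ∀ q ∈ S, Is 1 q)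
    (h : ∀ t : ℝ, ∑ q ∈ S, ‖LL 1 q (1 / 2 + t * I)‖ ^ n ≤ V * (1 + |t|) ^ N) :
    (∀ q ∈ S, Integrable fun u : ℝ => ‖LL 1 q (1 / 2 + u * I)‖ ^ n * wt N u) ∧ ∑ q ∈ S, Hq n N q ≤ V * tw := by
  have hdom : ∀ u : ℝ, ∑ q ∈ S, ‖LL 1 q (1 / 2 + u * I)‖ ^ n * wt N u ≤ V * (1 + |u|) ^ (-(3 / 2 : ℝ)) := by
    intro u
    rw [← Finset.sum_mul]
    have h1 : 0 < (1 + |u|) ^ N := by positivity
    calc _ ≤ (V * (1 + |u|) ^ N) * wt N u := mul_le_mul_of_nonneg_right (h u) (wt_pos N u).le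
      _ = _ := by
          unfold wt
          field_simp
  have hint : ∀ q ∈ S, Integrable fun u : ℝ => ‖LL 1 q (1 / 2 + u * I)‖ ^ n * wt N u := by
    intro q hq
    have hc : Continuous fun u : ℝ => ‖LL 1 q (1 / 2 + u * I)‖ ^ n * wt N u := by
      have h1 : Continuous fun u : ℝ => LL 1 q (1 / 2 + u * I) :=
        (LL_diff (hS q hq)).continuous.comp (by fun_prop)
      have h2 := wt_cont N
      fun_prop
    refine (integrable_decay.const_mul V).mono' hc.aestronglyMeasurable (Eventually.of_forall fun u => ?_)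
    have hw : ∀ q, 0 ≤ ‖LL 1 q (1 / 2 + u * I)‖ ^ n * wt N u := fun q => by
      have := wt_pos N u
      positivity
    rw [Real.norm_of_nonneg (hw q)]
    exact (Finset.single_le_sum (f := fun q => ‖LL 1 q (1 / 2 + u * I)‖ ^ n * wt N u) (fun p _ => hw p) hq).trans (hdom u)
  refine ⟨hint, ?_⟩
  unfold Hq
  rw [← integral_finset_sum S hint]
  have h2 := integral_mono (integrable_finset_sum S hint) (integrable_decay.const_mul V) hdom
  rw [integral_const_mul] at h2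
  exact h2

/-- pointwise domination to the right of the critical line -/
lemma point_dom {n N : ℕ} {ρ : ℝ} (hρ : 0 < ρ) : ∃ D : ℝ, 0 < D ∧ ∀ q, Is 1 q →
    Integrable (fun u : ℝ => ‖LL 1 q (1 / 2 + u * I)‖ ^ n * wt N u) → ∀ z : ℂ, 1 / 2 + ρ ≤ z.re →
      ‖LL 1 q z‖ ^ n ≤ D * (1 + Hq n N q) * (1 + |z.im|) ^ (N + 2) := by
  obtain ⟨B, hB1, hB⟩ := LL_right
  obtain ⟨D, hD, hDb⟩ := gauss_wt N
  have hfr0 := fr_nonneg 0
  refine ⟨B ^ n + Real.exp 4 / 2 * (B ^ n * fr 0) + Real.exp 1 / ρ * D, by positivity, fun q hq hint z hz => ?_⟩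
  have hH := Hq_nonneg n N q
  have hT : 1 ≤ (1 + |z.im|) ^ (N + 2) := one_le_pow₀ (by linarith [abs_nonneg z.im])
  have hP : 1 ≤ (1 + Hq n N q) * (1 + |z.im|) ^ (N + 2) := one_le_mul_of_one_le_of_one_le (by linarith) hT
  have hP0 : 0 ≤ (1 + Hq n N q) * (1 + |z.im|) ^ (N + 2) := by linarith
  rcases le_or_gt (5 / 4) z.re with h1 | h1
  · have h2 := pow_le_pow_left₀ (norm_nonneg _) (hB 1 q hq z h1) n
    have h3 : 0 ≤ Real.exp 4 / 2 * (B ^ n * fr 0) + Real.exp 1 / ρ * D := by positivity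
    have h4 : B ^ n ≤ B ^ n * ((1 + Hq n N q) * (1 + |z.im|) ^ (N + 2)) := le_mul_of_one_le_right (by positivity) hP
    have h5 := mul_nonneg h3 hP0
    calc ‖LL 1 q z‖ ^ n ≤ B ^ n * ((1 + Hq n N q) * (1 + |z.im|) ^ (N + 2)) +
          (Real.exp 4 / 2 * (B ^ n * fr 0) + Real.exp 1 / ρ * D) * ((1 + Hq n N q) * (1 + |z.im|) ^ (N + 2)) := by
            linarith
      _ = _ := by ring
  · have key := one_step hq n (σ := z.re) (a := 1 / 2 - z.re) (b := 2) (l := 0) (K := 1) (t := z.im) one_pos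
      (by linarith) two_pos (by linarith)
    rw [re_add_im] at key
    refine key.trans ?_
    have hab : |(1 / 2 - z.re)| = z.re - 1 / 2 := by
      rw [abs_of_neg (by linarith)]
      ring
    have p1 : Real.exp (0 * 2 + 1 * 2 ^ 2) / |(2 : ℝ)| *
        (∫ y : ℝ, ‖LL 1 q ((z.re + 2 : ℝ) + (z.im + y : ℝ) * I)‖ ^ n * Real.exp (-1 * y ^ 2)) ≤
        Real.exp 4 / 2 * (B ^ n * fr 0) := by
      have e1 : Real.exp (0 * 2 + 1 * 2 ^ 2) = Real.exp 4 := by norm_num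
      rw [e1, abs_two]
      refine mul_le_mul_of_nonneg_left ?_ (by positivity)
      have := sum_gauss (S := {q}) (fun p hp => by
        rw [Finset.mem_singleton] at hp
        subst hp
        exact hq) (n := n) (N := 0) (x := z.re + 2) (V := B ^ n) (by positivity) (fun u => by
        rw [Finset.sum_singleton, pow_zero, mul_one]
        exact pow_le_pow_left₀ (norm_nonneg _) (hB 1 q hq _ (by simp; linarith)) n) z.im
      rwa [Finset.sum_singleton, pow_zero, mul_one] at this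
    have p2 : Real.exp (0 * (1 / 2 - z.re) + 1 * (1 / 2 - z.re) ^ 2) / |(1 / 2 - z.re)| *
        (∫ y : ℝ, ‖LL 1 q ((z.re + (1 / 2 - z.re) : ℝ) + (z.im + y : ℝ) * I)‖ ^ n * Real.exp (-1 * y ^ 2)) ≤
        Real.exp 1 / ρ * (D * (1 + |z.im|) ^ (N + 2) * Hq n N q) := by
      have e1 : Real.exp (0 * (1 / 2 - z.re) + 1 * (1 / 2 - z.re) ^ 2) / |(1 / 2 - z.re)| ≤ Real.exp 1 / ρ := by
        rw [hab]
        refine div_le_div₀ (Real.exp_pos _).le (Real.exp_le_exp.2 ?_) hρ (by linarith)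
        nlinarith
      have e2 : (∫ y : ℝ, ‖LL 1 q ((z.re + (1 / 2 - z.re) : ℝ) + (z.im + y : ℝ) * I)‖ ^ n * Real.exp (-1 * y ^ 2)) =
          ∫ u : ℝ, ‖LL 1 q (1 / 2 + u * I)‖ ^ n * Real.exp (-1 * (u - z.im) ^ 2) := by
        rw [← integral_add_left_eq_self (fun u : ℝ => ‖LL 1 q (1 / 2 + u * I)‖ ^ n * Real.exp (-1 * (u - z.im) ^ 2)) z.im]
        congr 1
        funext y
        have e3 : ((z.re + (1 / 2 - z.re) : ℝ) : ℂ) = 1 / 2 := by
          push_cast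
          ring
        rw [e3, add_sub_cancel_left]
      rw [e2]
      refine mul_le_mul e1 ?_ (integral_nonneg fun u => by positivity) (by positivity)
      unfold Hq
      rw [← integral_const_mul]
      apply integral_mono_of_nonneg
      · exact Eventually.of_forall fun y => by positivity
      · exact hint.const_mul _
      · refine Eventually.of_forall fun u => ?_
        simp only
        calc _ ≤ ‖LL 1 q (1 / 2 + u * I)‖ ^ n * (D * (1 + |z.im|) ^ (N + 2) * wt N u) :=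
              mul_le_mul_of_nonneg_left (hDb z.im u) (by positivity)
          _ = _ := by ring
    have q1 : Real.exp 4 / 2 * (B ^ n * fr 0) ≤
        Real.exp 4 / 2 * (B ^ n * fr 0) * ((1 + Hq n N q) * (1 + |z.im|) ^ (N + 2)) :=
      le_mul_of_one_le_right (by positivity) hP
    have q2 : Real.exp 1 / ρ * (D * (1 + |z.im|) ^ (N + 2) * Hq n N q) ≤
        Real.exp 1 / ρ * D * ((1 + Hq n N q) * (1 + |z.im|) ^ (N + 2)) := by
      have : 0 ≤ Real.exp 1 / ρ * D * (1 + |z.im|) ^ (N + 2) := by positivity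
      nlinarith
    have q3 : 0 ≤ B ^ n * ((1 + Hq n N q) * (1 + |z.im|) ^ (N + 2)) := by positivity
    calc _ ≤ Real.exp 4 / 2 * (B ^ n * fr 0) + Real.exp 1 / ρ * (D * (1 + |z.im|) ^ (N + 2) * Hq n N q) :=
          add_le_add p1 p2
      _ ≤ B ^ n * ((1 + Hq n N q) * (1 + |z.im|) ^ (N + 2)) +
          Real.exp 4 / 2 * (B ^ n * fr 0) * ((1 + Hq n N q) * (1 + |z.im|) ^ (N + 2)) +
          Real.exp 1 / ρ * D * ((1 + Hq n N q) * (1 + |z.im|) ^ (N + 2)) := by linarith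
      _ = _ := by ring

/-- products of at most `n` factors -/
lemma prod_le_sum {k n : ℕ} (hkn : k ≤ n) (hn : n ≠ 0) (x : Fin k → ℝ) (hx : ∀ j, 0 ≤ x j) :
    ∏ j, x j ≤ 1 + ∑ j, x j ^ n := by
  set S : ℝ := ∑ j, x j ^ n with hS
  have hS0 : 0 ≤ S := Finset.sum_nonneg fun j _ => pow_nonneg (hx j) n
  set y : ℝ := (1 + S) ^ ((n : ℝ)⁻¹) with hy
  have hyn : y ^ n = 1 + S := Real.rpow_inv_natCast_pow (by linarith) hn
  have hy1 : 1 ≤ y := Real.one_le_rpow (by linarith) (by positivity)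
  have hxy : ∀ j, x j ≤ y := fun j => by
    refine le_of_pow_le_pow_left₀ hn (by linarith) ?_
    rw [hyn]
    have := Finset.single_le_sum (f := fun j => x j ^ n) (fun j _ => pow_nonneg (hx j) n) (Finset.mem_univ j)
    linarith
  calc ∏ j, x j ≤ ∏ _j : Fin k, y := Finset.prod_le_prod (fun j _ => hx j) fun j _ => hxy j
    _ = y ^ k := by rw [Finset.prod_const, Finset.card_univ, Fintype.card_fin]
    _ ≤ y ^ n := pow_le_pow_right₀ hy1 hkn
    _ = 1 + S := hyn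

/-- summability from the partial sums -/
lemma summ_of {f : ℕ → ℝ} (hf : ∀ q, 0 ≤ f q) {C r s : ℝ} (hr : 0 ≤ r) (hs : r < s)
    (h : ∀ n : ℕ, 1 ≤ n → ∑ q ∈ Finset.Icc 1 n, f q ≤ C * (n : ℝ) ^ r) : Summable fun q : ℕ => f q * (q : ℝ) ^ (-s) := by
  have h1 : LSeriesSummable (fun q => (f q : ℂ)) (s : ℂ) := by
    refine LSeriesSummable_of_sum_norm_bigO (r := r) ?_ hr (by simpa using hs)
    refine Asymptotics.IsBigO.of_bound C ?_
    filter_upwards [eventually_ge_atTop 1] with n hn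
    rw [Real.norm_of_nonneg (Finset.sum_nonneg fun _ _ => norm_nonneg _), Real.norm_of_nonneg (by positivity)]
    refine le_trans (le_of_eq ?_) (h n hn)
    exact Finset.sum_congr rfl fun q _ => by rw [Complex.norm_real, Real.norm_of_nonneg (hf q)]
  have h2 := h1.norm
  refine (summable_congr_cofinite ?_).1 h2
  rw [Nat.cofinite_eq_atTop]
  filter_upwards [eventually_ge_atTop 1] with q hq
  rw [LSeries.term_of_ne_zero (by omega), norm_div, Complex.norm_real, Real.norm_of_nonneg (hf q),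
    norm_natCast_cpow_of_pos hq, ofReal_re, Real.rpow_neg (Nat.cast_nonneg q), div_eq_mul_inv]

/-- **from the moments to the dominated convergence of the series** -/
theorem DB_of_MB {n k M : ℕ} (hkn : k ≤ n) (hn : n ≠ 0) {a : ℝ} (ha : 1 ≤ a) (h : MB n a) : DB k M a (1 / 2) := by
  classical
  intro ρ hρ
  obtain ⟨C, N, hC, hm⟩ := h (ρ / 2) (by linarith)
  obtain ⟨D, hD, hDb⟩ := point_dom (n := n) (N := N) hρ
  have hfac : ∀ X : ℝ, 1 ≤ X → (∀ q ∈ Q 1 X, Integrable fun u : ℝ => ‖LL 1 q (1 / 2 + u * I)‖ ^ n * wt N u) ∧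
      ∑ q ∈ Q 1 X, Hq n N q ≤ C * X ^ (a + ρ / 2) * tw := fun X hX =>
    Hq_facts (by positivity) (fun q hq => (mem_Q hq).2.2) fun t => hm X t hX
  have hmemQ : ∀ q, Is 1 q → ∀ X : ℝ, (q : ℝ) < X → q ∈ Q 1 X := by
    intro q hq X hX
    unfold Q
    rw [Finset.mem_filter, Finset.mem_Ico]
    exact ⟨⟨hq.1, Nat.lt_ceil.2 hX⟩, hq⟩
  have hint : ∀ q, Is 1 q → Integrable fun u : ℝ => ‖LL 1 q (1 / 2 + u * I)‖ ^ n * wt N u := by
    intro q hq
    exact (hfac (q + 1) (by linarith [(Nat.cast_nonneg q : (0 : ℝ) ≤ q)])).1 q (hmemQ q hq _ (by linarith))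
  set g : ℕ → ℝ := fun q => if Is 1 q then 1 + Hq n N q else 0 with hg
  have hg0 : ∀ q, 0 ≤ g q := fun q => by
    simp only [hg]
    split_ifs
    · linarith [Hq_nonneg n N q]
    · exact le_rfl
  have htw := tw_nonneg
  have hgs : Summable fun q : ℕ => g q * (q : ℝ) ^ (-(a + ρ)) := by
    refine summ_of hg0 (C := (2 + C * tw) * 2 ^ (a + ρ / 2)) (r := a + ρ / 2) (by linarith) (by linarith) fun m hm1 => ?_
    have hmR : (1 : ℝ) ≤ m := by exact_mod_cast hm1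
    have h1 : ∑ q ∈ Finset.Icc 1 m, g q ≤ ∑ q ∈ Q 1 (m + 1 : ℝ), (1 + Hq n N q) := by
      have e1 : ∑ q ∈ Q 1 (m + 1 : ℝ), (1 + Hq n N q) = ∑ q ∈ Q 1 (m + 1 : ℝ), g q :=
        Finset.sum_congr rfl fun q hq => by
          simp only [hg]
          rw [if_pos (mem_Q hq).2.2]
      rw [e1]
      have e2 : ∑ q ∈ Finset.Icc 1 m, g q = ∑ q ∈ (Finset.Icc 1 m).filter (Is 1), g q := by
        rw [Finset.sum_filter]
        refine Finset.sum_congr rfl fun q _ => ?_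
        simp only [hg]
        split_ifs <;> rfl
      rw [e2]
      refine Finset.sum_le_sum_of_subset_of_nonneg (fun q hq => ?_) fun q _ _ => hg0 q
      obtain ⟨h2, h3⟩ := Finset.mem_filter.1 hq
      refine hmemQ q h3 _ ?_
      have : (q : ℝ) ≤ m := by exact_mod_cast (Finset.mem_Icc.1 h2).2
      linarith
    have h2 := (hfac (m + 1) (by linarith)).2
    have h3 := card_Q 1 (show (1 : ℝ) ≤ m + 1 by linarith)
    have h4 : ((m : ℝ) + 1) ≤ (m + 1) ^ (a + ρ / 2) := by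
      calc ((m : ℝ) + 1) = (m + 1) ^ (1 : ℝ) := (Real.rpow_one _).symm
        _ ≤ _ := Real.rpow_le_rpow_of_exponent_le (by linarith) (by linarith)
    have h5 : ((m : ℝ) + 1) ^ (a + ρ / 2) ≤ 2 ^ (a + ρ / 2) * (m : ℝ) ^ (a + ρ / 2) := by
      rw [← Real.mul_rpow (by norm_num) (by linarith)]
      exact Real.rpow_le_rpow (by linarith) (by linarith) (by linarith)
    have h6 : 0 ≤ ((m : ℝ) + 1) ^ (a + ρ / 2) := by positivity
    refine h1.trans ?_
    rw [Finset.sum_add_distrib, Finset.sum_const, nsmul_eq_mul, mul_one]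
    calc _ ≤ ((m : ℝ) + 1) ^ (a + ρ / 2) + C * ((m : ℝ) + 1) ^ (a + ρ / 2) * tw := by linarith
      _ ≤ (2 + C * tw) * ((m : ℝ) + 1) ^ (a + ρ / 2) := by nlinarith
      _ ≤ (2 + C * tw) * (2 ^ (a + ρ / 2) * (m : ℝ) ^ (a + ρ / 2)) := mul_le_mul_of_nonneg_left h5 (by positivity)
      _ = _ := by ring
  refine ⟨fun q => (1 + k * D) * (g q * (q : ℝ) ^ (-(a + ρ))), N + 2, hgs.mul_left _, fun q z h0 hj => ?_⟩
  set T : ℝ := 1 + ‖fun i => (z i).im‖ with hT
  have hT1 : 1 ≤ T := by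
    rw [hT]
    linarith [norm_nonneg fun i => (z i).im]
  have hTp : 1 ≤ T ^ (N + 2) := one_le_pow₀ hT1
  unfold gq
  by_cases hq : Is 1 q
  swap
  · rw [if_neg hq, norm_zero]
    have := hg0 q
    positivity
  rw [if_pos hq]
  have hq2 : 1 ≤ q := by have := hq.1; omega
  have hqR : (1 : ℝ) ≤ q := by exact_mod_cast hq2
  have hgq : g q = 1 + Hq n N q := by
    simp only [hg]
    rw [if_pos hq]
  have hg1 : 1 ≤ g q := by
    rw [hgq]
    linarith [Hq_nonneg n N q]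
  unfold fq
  rw [norm_mul, norm_mul, norm_prod, norm_natCast_cpow_of_pos (by omega)]
  have h1 : ∏ j : Fin k, ‖LL 1 q (z j.succ)‖ ≤ (1 + k * D) * g q * T ^ (N + 2) := by
    refine (prod_le_sum hkn hn _ fun j => norm_nonneg _).trans ?_
    have h2 : ∀ j : Fin k, ‖LL 1 q (z j.succ)‖ ^ n ≤ D * g q * T ^ (N + 2) := by
      intro j
      rw [hgq]
      refine (hDb q hq (hint q hq) _ (hj j)).trans ?_
      have h3 : |(z j.succ).im| ≤ ‖fun i => (z i).im‖ := by
        have := norm_le_pi_norm (fun i => (z i).im) j.succ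
        simpa using this
      refine mul_le_mul_of_nonneg_left ?_ (by
        have := Hq_nonneg n N q
        positivity)
      exact pow_le_pow_left₀ (by positivity) (by linarith) _
    have h3 : ∑ j : Fin k, ‖LL 1 q (z j.succ)‖ ^ n ≤ k * (D * g q * T ^ (N + 2)) := by
      calc _ ≤ ∑ _j : Fin k, D * g q * T ^ (N + 2) := Finset.sum_le_sum fun j _ => h2 j
        _ = _ := by rw [Finset.sum_const, Finset.card_univ, Fintype.card_fin, nsmul_eq_mul]
    have h4 : 1 ≤ g q * T ^ (N + 2) := one_le_mul_of_one_le_of_one_le hg1 hTp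
    calc _ ≤ g q * T ^ (N + 2) + k * (D * g q * T ^ (N + 2)) := add_le_add h4 h3
      _ = _ := by ring
  have h3 : (q : ℝ) ^ (-(z 0)).re ≤ (q : ℝ) ^ (-(a + ρ)) :=
    Real.rpow_le_rpow_of_exponent_le hqR (by rw [neg_re]; linarith)
  calc ‖vl 1 q M‖ * (q : ℝ) ^ (-(z 0)).re * ∏ j : Fin k, ‖LL 1 q (z j.succ)‖
      ≤ 1 * (q : ℝ) ^ (-(a + ρ)) * ((1 + k * D) * g q * T ^ (N + 2)) :=
        mul_le_mul (mul_le_mul (vl_le _ _ _) h3 (by positivity) zero_le_one) h1
          (Finset.prod_nonneg fun _ _ => norm_nonneg _) (by positivity)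
    _ = _ := by ring

/-- **the equivalence for one order** -/
theorem tfae_MB {m : ℕ} (hm : 1 ≤ m) {a : ℝ} (ha : 1 ≤ a) : List.TFAE [MB (2 * m) a,
    ∀ k M : ℕ, 1 ≤ k → k ≤ 2 * m → 1 ≤ M → ∀ ε : ℝ, 0 < ε → CT k M (Fin.cons a fun _ => 1 / 2 + ε),
    ∃ k : ℕ, 2 * m ≤ k ∧ ∀ ε : ℝ, 0 < ε → CT k 1 (Fin.cons (a + ε) fun _ => 1 / 2 + ε)] := by
  tfae_have 1 → 2 := fun h k M _ hk hM ε hε =>
    CT_of_tempered hM ha (FF_tempered' k M (DB_of_MB hk (by omega) ha h)) hε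
  tfae_have 2 → 3 := by
    intro h
    refine ⟨2 * m, le_rfl, fun ε hε => (h (2 * m) 1 (by omega) le_rfl le_rfl ε hε).up fun i => ?_⟩
    refine Fin.cases ?_ (fun j => ?_) i
    · show a ≤ a + ε
      linarith
    · exact le_rfl
  tfae_have 3 → 1 := fun ⟨k, hk, h⟩ => MB_of_CT hk ha h
  tfae_finish

end

end Pool.Agent.U575.MD
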