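import Pool.Agent.U575.MD.Hol

/-! Extraction of one coefficient of a Dirichlet series with nonnegative coefficients. -/

set_option autoImplicit false

open Complex Set Filter Topology MeasureTheory

namespace Pool.Agent.U575.MD

open Pool.Agent.U575.NC

noncomputable section

/-- one coefficient against the kernel -/
lemma one_term (c l : ℝ) {q : ℕ} (hq : 1 ≤ q) :
    Integrable (fun y : ℝ => (q : ℂ) ^ (-((c : ℂ) + y * I)) * ker l 1 (c + y * I)) ∧
    ∫ y : ℝ, (q : ℂ) ^ (-((c : ℂ) + y * I)) * ker l 1 (c + y * I) =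
      ((√Real.pi * Real.exp (-(l - Real.log q) ^ 2 / 4) : ℝ) : ℂ) := by
  have hq0 : (q : ℂ) ≠ 0 := by exact_mod_cast (by omega : q ≠ 0)
  have hlog : Complex.log (q : ℂ) = ((Real.log q : ℝ) : ℂ) := (natCast_log (n := q)).symm
  set la : ℝ := l - Real.log q with hla
  have e : ∀ y : ℝ, (q : ℂ) ^ (-((c : ℂ) + y * I)) * ker l 1 (c + y * I) =
      cexp (-1 * (y + (-(c + la / 2) : ℝ) * I) ^ 2) * ((Real.exp (-la ^ 2 / 4) : ℝ) : ℂ) := by
    intro y
    unfold NC.ker
    rw [cpow_def_of_ne_zero hq0, hlog, ofReal_exp, ← Complex.exp_add, ← Complex.exp_add]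
    congr 1
    rw [hla]
    push_cast
    ring_nf
    rw [I_sq]
    ring
  have h1 := GaussianFourier.integral_cexp_neg_mul_sq_add_real_mul_I (b := 1) (by simp) (-(c + la / 2))
  have h2 := GaussianFourier.integrable_cexp_neg_mul_sq_add_real_mul_I (b := 1) (by simp) (-(c + la / 2))
  simp only [e]
  refine ⟨h2.mul_const _, ?_⟩
  rw [integral_mul_const, h1, div_one, ofReal_mul]
  congr 1
  rw [Real.sqrt_eq_rpow, ofReal_cpow Real.pi_pos.le]
  norm_num

/-- **extraction of the coefficients** -/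
theorem extract_gen {a c : ℝ} (hac : a ≤ c) {r : ℕ → ℝ} (hr : ∀ q, 0 ≤ r q) (hr0 : r 0 = 0)
    (hs : Summable fun q : ℕ => r q * (q : ℝ) ^ (-c)) {H : ℂ → ℂ}
    (hH : ∀ w : ℂ, w.re = c → H w = ∑' q : ℕ, (r q : ℂ) * (q : ℂ) ^ (-w)) {B : ℝ} {N : ℕ}
    (hd : ∀ w : ℂ, a ≤ w.re → w.re ≤ c → DifferentiableAt ℂ H w)
    (hB : ∀ w : ℂ, a ≤ w.re → w.re ≤ c → ‖H w‖ ≤ B * (1 + |w.im|) ^ N) {Y : ℝ} (hY : 0 < Y) (S : Finset ℕ) :
    ∑ q ∈ S, r q * (√Real.pi * Real.exp (-(Real.log Y - Real.log q) ^ 2 / 4)) ≤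
      B * (Real.exp (a ^ 2) * fr N) * Y ^ a := by
  set l : ℝ := Real.log Y with hl
  obtain ⟨D, hD, hDb⟩ := gauss_pow (K := 1) one_pos N
  have hB0 : 0 ≤ B := by
    have := (norm_nonneg _).trans (hB a (by simp) (by simpa using hac))
    simpa using this
  set M : ℝ := Real.exp (|l| * (|a| + |c|) + (a ^ 2 + c ^ 2)) with hM
  have hshift := contour_shift (H := fun w => H w * ker l 1 w) (B := B * M * D) hac
    (fun s h1 h2 => (hd s h1 h2).mul (ker_diff l 1 s)) (fun s h1 h2 => by
      have h3 : s.re ^ 2 ≤ a ^ 2 + c ^ 2 := by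
        rcases le_or_gt 0 s.re with h | h
        · nlinarith [sq_nonneg a]
        · nlinarith [sq_nonneg c]
      have h4 : |s.re| ≤ |a| + |c| := by
        rw [abs_le]
        constructor
        · have := neg_abs_le a
          have := abs_nonneg c
          linarith
        · have := le_abs_self c
          have := abs_nonneg a
          linarith
      have h5 : l * s.re ≤ |l| * (|a| + |c|) := by
        calc l * s.re ≤ |l * s.re| := le_abs_self _
          _ = |l| * |s.re| := abs_mul _ _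
          _ ≤ _ := mul_le_mul_of_nonneg_left h4 (abs_nonneg _)
      have h6 : Real.exp (l * s.re + 1 * s.re ^ 2) ≤ M := by
        apply Real.exp_le_exp.2
        linarith
      show ‖H s * ker l 1 s‖ ≤ _
      rw [norm_mul, ker_norm]
      calc ‖H s‖ * (Real.exp (l * s.re + 1 * s.re ^ 2) * Real.exp (-1 * s.im ^ 2))
          ≤ (B * (1 + |s.im|) ^ N) * (M * Real.exp (-1 * s.im ^ 2)) := by
            refine mul_le_mul (hB s h1 h2) (mul_le_mul_of_nonneg_right h6 (Real.exp_pos _).le) (by positivity)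
              (by positivity)
        _ = B * M * ((1 + |s.im|) ^ N * Real.exp (-1 * s.im ^ 2)) := by ring
        _ ≤ B * M * (D * (1 + |s.im|) ^ (-(3 / 2 : ℝ))) := mul_le_mul_of_nonneg_left (hDb s.im) (by positivity)
        _ = _ := by ring)
  -- the left line
  have hleft : ‖∫ y : ℝ, H (a + y * I) * ker l 1 (a + y * I)‖ ≤ B * (Real.exp (a ^ 2) * fr N) * Y ^ a := by
    have h1 : ‖∫ y : ℝ, H (a + y * I) * ker l 1 (a + y * I)‖ ≤
        ∫ y : ℝ, B * (Real.exp (a ^ 2) * Y ^ a) * ((1 + |y|) ^ N * Real.exp (-1 * y ^ 2)) := by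
      refine norm_integral_le_of_norm_le ((fr_int N).const_mul _) (Eventually.of_forall fun y => ?_)
      rw [norm_mul, ker_norm]
      have h2 := hB (a + y * I) (by simp) (by simpa using hac)
      have e1 : ((a : ℂ) + y * I).re = a := by simp
      have e2 : ((a : ℂ) + y * I).im = y := by simp
      rw [e2] at h2
      rw [e1, e2]
      have h3 : Real.exp (l * a + 1 * a ^ 2) = Real.exp (a ^ 2) * Y ^ a := by
        rw [Real.rpow_def_of_pos hY, ← Real.exp_add, hl]
        ring_nf
      rw [h3]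
      calc ‖H (a + y * I)‖ * (Real.exp (a ^ 2) * Y ^ a * Real.exp (-1 * y ^ 2))
          ≤ (B * (1 + |y|) ^ N) * (Real.exp (a ^ 2) * Y ^ a * Real.exp (-1 * y ^ 2)) :=
            mul_le_mul_of_nonneg_right h2 (by positivity)
        _ = _ := by ring
    rw [integral_const_mul] at h1
    refine h1.trans (le_of_eq ?_)
    unfold fr
    ring
  -- the right line
  set f : ℕ → ℝ → ℂ := fun q y => (r q : ℂ) * ((q : ℂ) ^ (-((c : ℂ) + y * I)) * ker l 1 (c + y * I)) with hf
  have hfi : ∀ q, Integrable (f q) := by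
    intro q
    rcases Nat.eq_zero_or_pos q with h0 | h0
    · subst h0
      simp only [hf, hr0, ofReal_zero, zero_mul]
      exact integrable_zero _ _ _
    · exact (one_term c l h0).1.const_mul _
  have hfn : ∀ q, ∫ y : ℝ, ‖f q y‖ = r q * (q : ℝ) ^ (-c) * (Real.exp (l * c + 1 * c ^ 2) * ∫ y : ℝ, Real.exp (-1 * y ^ 2)) := by
    intro q
    rcases Nat.eq_zero_or_pos q with h0 | h0
    · subst h0
      simp only [hf, hr0, ofReal_zero, zero_mul, norm_zero, integral_zero]
    · rw [← integral_const_mul, ← integral_const_mul]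
      congr 1
      funext y
      simp only [hf]
      rw [norm_mul, norm_mul, ker_norm, norm_natCast_cpow_of_pos h0, Complex.norm_real, Real.norm_of_nonneg (hr q)]
      have e1 : ((c : ℂ) + y * I).re = c := by simp
      have e2 : ((c : ℂ) + y * I).im = y := by simp
      rw [neg_re, e1, e2]
      ring
  have hsum := hasSum_integral_of_summable_integral_norm hfi (by
    simp only [hfn]
    exact hs.mul_right _)
  have hval : ∀ q, ∫ y : ℝ, f q y = ((r q * (√Real.pi * Real.exp (-(l - Real.log q) ^ 2 / 4)) : ℝ) : ℂ) := by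
    intro q
    rcases Nat.eq_zero_or_pos q with h0 | h0
    · subst h0
      simp only [hf, hr0, ofReal_zero, zero_mul, integral_zero]
    · simp only [hf]
      rw [integral_const_mul, (one_term c l h0).2, ofReal_mul (r q)]
  have htot : (∫ y : ℝ, ∑' q, f q y) = ∫ y : ℝ, H (a + y * I) * ker l 1 (a + y * I) := by
    rw [hshift]
    congr 1
    funext y
    rw [hH _ (by simp), ← tsum_mul_right]
    refine tsum_congr fun q => ?_
    simp only [hf]
    ring
  rw [htot] at hsum
  simp only [hval] at hsum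
  have hsumr := hasSum_re hsum
  simp only [ofReal_re] at hsumr
  have h9 := sum_le_hasSum S (fun q _ => mul_nonneg (hr q) (by positivity)) hsumr
  exact h9.trans ((Complex.re_le_norm _).trans hleft)

/-- **extraction of one coefficient** -/
lemma one_coef {r : ℕ → ℝ} (hr : ∀ q, 0 ≤ r q) {V Y : ℝ} {S : Finset ℕ} (hS : ∀ q ∈ S, Y / 2 ≤ q ∧ (q : ℝ) ≤ Y) (hY : 0 < Y)
    (h : ∑ q ∈ S, r q * (√Real.pi * Real.exp (-(Real.log Y - Real.log q) ^ 2 / 4)) ≤ V) : ∑ q ∈ S, r q ≤ V := by
  refine (Finset.sum_le_sum fun q hq => ?_).trans h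
  obtain ⟨h1, h2⟩ := hS q hq
  have hq0 : (0 : ℝ) < q := by linarith
  have h3 : 0 ≤ Real.log Y - Real.log q := by
    have := Real.log_le_log hq0 h2
    linarith
  have h4 : Real.log Y - Real.log q ≤ 7 / 10 := by
    rw [← Real.log_div hY.ne' hq0.ne']
    have h5 : Y / q ≤ 2 := by
      rw [div_le_iff₀ hq0]
      linarith
    have h6 := Real.log_le_log (by positivity) h5
    have := Real.log_two_lt_d9
    linarith
  have h5 : 7 / 8 ≤ Real.exp (-(Real.log Y - Real.log q) ^ 2 / 4) := by
    have := Real.add_one_le_exp (-(Real.log Y - Real.log q) ^ 2 / 4)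
    nlinarith
  have h6 : 17 / 10 ≤ √Real.pi := by
    apply Real.le_sqrt_of_sq_le
    have := Real.pi_gt_three
    norm_num
    linarith
  have h7 : 1 ≤ √Real.pi * Real.exp (-(Real.log Y - Real.log q) ^ 2 / 4) := by nlinarith
  exact le_mul_of_one_le_right (hr q) h7

end

end Pool.Agent.U575.MD
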