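import Pool.Agent.U575.MD.Cen
import Pool.Agent.U575.NC.Lim

/-! The functional equation. -/

set_option autoImplicit false

open Complex Set Filter Topology MeasureTheory
open scoped ComplexConjugate

namespace Pool.Agent.U575.MD

open Pool.Agent.N879.QM
open H855R2.SF
open H370.DL
open Pool.Agent.U575.NC

noncomputable section

/-- the gamma quotient -/
def Xg (s : ℂ) : ℂ := Gammaℝ (1 - s) * (Gammaℝ s)⁻¹

/-- the root number -/
def rn {q : ℕ} (h : Is 1 q) : ℂ := by
  have : NeZero q := ⟨by have := h.1; omega⟩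
  exact DirichletCharacter.rootNumber (ch 1 q)

lemma ch_even {q : ℕ} (h : Is 1 q) : (ch 1 q).Even := by
  have := (ch_sp h).2.2.2
  unfold DirichletCharacter.Even
  rw [this]
  norm_num

/-- **the functional equation** -/
theorem fe {q : ℕ} (h : Is 1 q) {s : ℂ} (hs : s.re < 1) :
    LL 1 q s = rn h * (q : ℂ) ^ (1 / 2 - s) * Xg s * LL 1 q (1 - s) := by
  have hq : 1 < q := by have := h.1; omega
  have hNZ : NeZero q := ⟨by omega⟩
  have hp := (ch_sp h).1
  have h1 := fe_dir (χ := ch 1 q) hq hp s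
  have haa : aa (ch 1 q) = 0 := by
    unfold aa
    rw [if_pos (ch_even h)]
  simp only [Finset.univ_unique, Finset.prod_singleton, haa, neg_zero, map_zero, sub_zero] at h1
  have e1 : ∀ z, DirichletCharacter.LFunction (ch 1 q) z = LL 1 q z := by
    intro z
    unfold LL
    rw [dif_pos (by omega)]
  rw [e1, e1, ← LL_conj h] at h1
  have e2 : conj (1 - conj s) = 1 - s := by
    rw [map_sub, map_one, conj_conj]
  rw [e2] at h1
  have hne : Gammaℝ (1 - s) ≠ 0 := by
    apply Gammaℝ_ne_zero_of_re_pos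
    rw [sub_re, one_re]
    linarith
  rw [← div_eq_mul_inv, div_eq_iff hne] at h1
  rw [h1]
  unfold Xg rn
  ring

lemma conj_qpow {q : ℕ} (x : ℝ) : conj ((q : ℂ) ^ (x : ℂ)) = (q : ℂ) ^ (x : ℂ) := by
  have : ((q : ℂ) ^ (x : ℂ)) = (((q : ℝ) ^ x : ℝ) : ℂ) := by
    rw [ofReal_cpow (Nat.cast_nonneg q)]
    simp
  rw [this, conj_ofReal]

/-- the square of the root number -/
theorem rn_sq {q : ℕ} (h : Is 1 q) : rn h ^ 2 = 1 := by
  have hq : 1 < q := by have := h.1; omega
  have hNZ : NeZero q := ⟨by omega⟩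
  have hp := (ch_sp h).1
  have hnorm : ‖rn h‖ = 1 := H429.GP.norm_rootNumber hp
  have h1 := fe h (s := -1) (by norm_num)
  have hc1 : conj (LL 1 q (-1)) = LL 1 q (-1) := by
    rw [← LL_conj h, map_neg, map_one]
  obtain ⟨x, hx, hx2⟩ := LL_two h
  have e1 : (1 : ℂ) - -1 = 2 := by norm_num
  rw [e1, hx2] at h1
  set K : ℂ := (q : ℂ) ^ (1 / 2 - (-1 : ℂ)) * Xg (-1) * x with hK
  have hXc : conj (Xg (-1)) = Xg (-1) := by
    unfold Xg
    rw [map_mul, map_inv₀, ← H429.GP.Gammaℝ_conj, ← H429.GP.Gammaℝ_conj, map_sub, map_neg, map_one]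
  have hKc : conj K = K := by
    rw [hK, map_mul, map_mul, hXc, conj_ofReal]
    have e2 : (1 / 2 - (-1 : ℂ)) = ((3 / 2 : ℝ) : ℂ) := by push_cast; ring
    rw [e2, conj_qpow]
  have hK0 : K ≠ 0 := by
    rw [hK]
    refine mul_ne_zero (mul_ne_zero ?_ ?_) ?_
    · rw [Ne, cpow_eq_zero_iff]
      push Not
      intro h0
      exact absurd h0 (by exact_mod_cast (by omega : q ≠ 0))
    · unfold Xg
      refine mul_ne_zero ?_ (inv_ne_zero ?_)
      · apply Gammaℝ_ne_zero_of_re_pos
        norm_num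
      · rw [Ne, Gammaℝ_eq_zero_iff]
        rintro ⟨n, hn⟩
        have h3 := congrArg Complex.re hn
        simp at h3
        have h4 : (1 : ℝ) = ((2 * n : ℕ) : ℝ) := by
          push_cast
          linarith
        have h5 : 1 = 2 * n := by exact_mod_cast h4
        omega
    · exact_mod_cast (by linarith : x ≠ 0)
  have h2 : LL 1 q (-1) = rn h * K := by
    rw [h1, hK]
    ring
  rw [h2, map_mul, hKc] at hc1
  have h3 := mul_right_cancel₀ hK0 hc1
  calc rn h ^ 2 = rn h * conj (rn h) := by rw [h3]; ring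
    _ = 1 := by
      rw [mul_conj, normSq_eq_norm_sq, hnorm]
      norm_num

lemma Xg_diff {s : ℂ} (hs : s.re < 1) : DifferentiableAt ℂ Xg s := by
  unfold Xg
  have h1 : DifferentiableAt ℂ Gammaℝ (1 - s) := by
    have h2 : Gammaℝ (1 - s) ≠ 0 := by
      apply Gammaℝ_ne_zero_of_re_pos
      rw [sub_re, one_re]
      linarith
    have h3 := (differentiable_Gammaℝ_inv (1 - s)).inv (inv_ne_zero h2)
    refine h3.congr_of_eventuallyEq (Eventually.of_forall fun z => ?_)
    simp
  have h4 : DifferentiableAt ℂ (fun s => Gammaℝ (1 - s)) s := h1.comp s (by fun_prop)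
  exact h4.mul (differentiable_Gammaℝ_inv s)

lemma Xg_bound {s : ℂ} (h1 : -1 / 4 ≤ s.re) (h2 : s.re ≤ 1 / 2) : ‖Xg s‖ ≤ 16 * (1 + |s.im|) := by
  have h := gamma_prod (m := 1) (fun _ => 0) (fun _ => by norm_num) (x := 1 / 2 - s.re) (t := s.im) (by linarith)
    (by linarith)
  have e : (⟨1 / 2 - (1 / 2 - s.re), s.im⟩ : ℂ) = s := by
    apply Complex.ext
    · show 1 / 2 - (1 / 2 - s.re) = s.re
      ring
    · rfl
  simp only [Finset.univ_unique, Finset.prod_singleton, e, map_zero, sub_zero, zero_sub, pow_one] at h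
  unfold Xg
  rw [norm_mul]
  refine h.trans (mul_le_mul_of_nonneg_left ?_ (by norm_num))
  rw [norm_neg, norm_mul, norm_I, mul_one, Complex.norm_real, Real.norm_eq_abs]
  calc (1 + |s.im|) ^ (1 / 2 - s.re) ≤ (1 + |s.im|) ^ (1 : ℝ) :=
        Real.rpow_le_rpow_of_exponent_le (by linarith [abs_nonneg s.im]) (by linarith)
    _ = _ := Real.rpow_one _

end

end Pool.Agent.U575.MD
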