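import Pool.Agent.U575.MD.Kill

/-! The final statements. -/

set_option autoImplicit false

open Complex Set Filter Topology MeasureTheory

namespace Pool.Agent.U575.MD

open Pool.Agent.N879.QM
open Pool.Agent.Q48.MDS (tube Tempered orth)
open Pool.Agent.U575.NC

noncomputable section

/-- `F` continues to some point of height at most `b` -/
def Reach (k M : ℕ) (b : ℝ) : Prop := ∃ p : Fin (k + 1) → ℝ, (∀ j : Fin k, 1 / 2 ≤ p j.succ ∧ p j.succ < 5 / 4) ∧
  p 0 + 1 / 2 * ∑ j : Fin k, (p j.succ - 1 / 2) ≤ b ∧ CT k M p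

/-- **the criterion for the points above the centre** -/
theorem reach_iff {k M : ℕ} (hk : 2 ≤ k) {b : ℝ} : CT k M (Fin.cons b fun _ => 1 / 2) ↔ Reach k M b := by
  classical
  constructor
  · intro h
    refine ⟨Fin.cons b fun _ => 1 / 2, fun j => ?_, ?_, h⟩
    · show (1 / 2 : ℝ) ≤ 1 / 2 ∧ (1 / 2 : ℝ) < 5 / 4
      norm_num
    · show b + 1 / 2 * ∑ _j : Fin k, ((1 / 2 : ℝ) - 1 / 2) ≤ b
      simp
  · rintro ⟨p, hp, hle, h⟩
    rcases Nat.even_or_odd k with he | ho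
    · have h1 := h.kill (J := Finset.univ) (by rwa [Finset.card_univ, Fintype.card_fin])
        ⟨⟨0, by omega⟩, Finset.mem_univ _⟩ fun j _ => hp j
      refine h1.up fun i => ?_
      refine Fin.cases ?_ (fun j => ?_) i
      · exact hle
      · show (if j ∈ Finset.univ then 1 / 2 else p j.succ) ≤ 1 / 2
        rw [if_pos (Finset.mem_univ j)]
    · set i₀ : Fin k := ⟨0, by omega⟩ with hi₀
      set i₁ : Fin k := ⟨1, by omega⟩ with hi₁
      have hne : i₀ ≠ i₁ := by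
        intro h
        rw [hi₀, hi₁, Fin.mk.injEq] at h
        omega
      set J : Finset (Fin k) := Finset.univ.erase i₀ with hJ
      have hcard : J.card = k - 1 := by
        rw [hJ, Finset.card_erase_of_mem (Finset.mem_univ _), Finset.card_univ, Fintype.card_fin]
      have h1 := h.kill (J := J) (by
        rw [hcard]
        obtain ⟨m, hm⟩ := ho
        exact ⟨m, by omega⟩) ⟨i₁, Finset.mem_erase.2 ⟨hne.symm, Finset.mem_univ _⟩⟩ fun j _ => hp j
      have ks : ∀ j : Fin k, kl J p j.succ = if j ∈ J then 1 / 2 else p j.succ := fun j => rfl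
      have h2 := h1.kill (J := {i₀, i₁}) (by
        rw [Finset.card_pair hne]
        exact even_two) ⟨i₀, by simp⟩ fun j _ => by
          rw [ks]
          split_ifs
          · norm_num
          · exact hp j
      refine h2.up fun i => ?_
      refine Fin.cases ?_ (fun j => ?_) i
      · show kl J p 0 + 1 / 2 * ∑ j ∈ {i₀, i₁}, (kl J p j.succ - 1 / 2) ≤ b
        rw [Finset.sum_pair hne, ks, ks, if_neg (Finset.notMem_erase _ _),
          if_pos (Finset.mem_erase.2 ⟨hne.symm, Finset.mem_univ _⟩), sub_self, add_zero]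
        show p 0 + 1 / 2 * ∑ j ∈ J, (p j.succ - 1 / 2) + 1 / 2 * (p i₀.succ - 1 / 2) ≤ b
        have e : ∑ j : Fin k, (p j.succ - 1 / 2) = ∑ j ∈ J, (p j.succ - 1 / 2) + (p i₀.succ - 1 / 2) :=
          (Finset.sum_erase_add Finset.univ _ (Finset.mem_univ i₀)).symm
        rw [e] at hle
        linarith
      · show (if j ∈ ({i₀, i₁} : Finset (Fin k)) then 1 / 2 else kl J p j.succ) ≤ 1 / 2
        split_ifs with hj
        · exact le_rfl
        · rw [ks, if_pos]
          rw [hJ, Finset.mem_erase]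
          refine ⟨?_, Finset.mem_univ _⟩
          rintro rfl
          exact hj (by simp)

lemma up_cons {k M : ℕ} {a b c d : ℝ} (h : CT k M (Fin.cons a fun _ => c)) (hab : a ≤ b) (hcd : c ≤ d) :
    CT k M (Fin.cons b fun _ => d) := h.up fun i => by
  refine Fin.cases ?_ (fun j => ?_) i
  · exact hab
  · exact hcd

/-- **the equivalence for one order** -/
theorem tfae_MB' {m : ℕ} (hm : 1 ≤ m) {a : ℝ} (ha : 1 ≤ a) : List.TFAE [MB (2 * m) a,
    ∀ k M : ℕ, 1 ≤ k → k ≤ 2 * m → 1 ≤ M → ∀ ε : ℝ, 0 < ε → CT k M (Fin.cons a fun _ => 1 / 2 + ε),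
    ∃ k : ℕ, 2 * m ≤ k ∧ ∀ ε : ℝ, 0 < ε → Reach k 1 (a + ε)] := by
  tfae_have 1 → 2 := fun h k M _ hk hM ε hε =>
    CT_of_tempered hM ha (FF_tempered' k M (DB_of_MB hk (by omega) ha h)) hε
  tfae_have 2 → 3 := by
    intro h
    refine ⟨2 * m, le_rfl, fun ε hε => ?_⟩
    have hm0 : (0 : ℝ) < m := by exact_mod_cast hm
    set x : ℝ := min (1 / 2) (ε / m) with hx
    have hx0 : 0 < x := lt_min (by norm_num) (by positivity)
    have hx1 : x ≤ 1 / 2 := min_le_left _ _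
    have hx2 : x * m ≤ ε := by
      have : x ≤ ε / m := min_le_right _ _
      rwa [le_div_iff₀ hm0] at this
    refine ⟨Fin.cons a fun _ => 1 / 2 + x, fun j => ?_, ?_, h (2 * m) 1 (by omega) le_rfl le_rfl x hx0⟩
    · show (1 / 2 : ℝ) ≤ 1 / 2 + x ∧ 1 / 2 + x < 5 / 4
      constructor <;> linarith
    · show a + 1 / 2 * ∑ _j : Fin (2 * m), ((1 / 2 + x : ℝ) - 1 / 2) ≤ a + ε
      rw [Finset.sum_const, Finset.card_univ, Fintype.card_fin, nsmul_eq_mul]
      push_cast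
      nlinarith
  tfae_have 3 → 1 := fun ⟨k, hk, h⟩ => MB_of_CT hk ha fun ε hε =>
    up_cons ((reach_iff (by omega)).2 (h ε hε)) le_rfl (by linarith)
  tfae_finish

theorem GrL_of_MB {n : ℕ} (hn : n ≠ 0) {a : ℝ} (ha : 0 ≤ a) (h : MB n a) : GrL (a / n) := by
  intro ε hε
  have hn0 : (0 : ℝ) < n := by exact_mod_cast Nat.pos_of_ne_zero hn
  obtain ⟨C, N, hC, hb⟩ := h (ε * n) (by positivity)
  refine ⟨1 + C * 2 ^ (a + ε * n), N, by positivity, fun q hq t => ?_⟩
  have hq1 : (1 : ℝ) ≤ q := by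
    have := hq.1
    exact_mod_cast (by omega : 1 ≤ q)
  have h1 := hb (q + 1) t (by linarith)
  have hmem : q ∈ Q 1 ((q : ℝ) + 1) := by
    classical
    unfold Q
    rw [Finset.mem_filter, Finset.mem_Ico]
    exact ⟨⟨hq.1, Nat.lt_ceil.2 (by linarith)⟩, hq⟩
  have h2 := (Finset.single_le_sum (f := fun q => ‖LL 1 q (1 / 2 + t * I)‖ ^ n) (fun _ _ => by positivity) hmem).trans h1
  refine root_bound hn (by positivity) (by positivity) (by linarith [abs_nonneg t]) (h2.trans ?_)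
  have h3 : ((q : ℝ) + 1) ^ (a + ε * n) ≤ 2 ^ (a + ε * n) * (q : ℝ) ^ (a + ε * n) := by
    rw [← Real.mul_rpow (by norm_num) (by linarith)]
    exact Real.rpow_le_rpow (by linarith) (by linarith) (by positivity)
  have h4 : ((q : ℝ) ^ (a / n + ε)) ^ n = (q : ℝ) ^ (a + ε * n) := by
    rw [← Real.rpow_natCast, ← Real.rpow_mul (by linarith)]
    congr 1
    field_simp
  rw [h4]
  refine mul_le_mul_of_nonneg_right ?_ (by positivity)
  calc C * ((q : ℝ) + 1) ^ (a + ε * n) ≤ C * (2 ^ (a + ε * n) * (q : ℝ) ^ (a + ε * n)) :=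
        mul_le_mul_of_nonneg_left h3 hC.le
    _ = _ := by ring

lemma GrL_mono_lim {θ : ℝ} (h : ∀ η : ℝ, 0 < η → ∃ θ', θ' ≤ θ + η ∧ GrL θ') : GrL θ := by
  intro ε hε
  obtain ⟨θ', h1, h2⟩ := h (ε / 2) (by linarith)
  obtain ⟨C, N, hC, hb⟩ := h2 (ε / 2) (by linarith)
  refine ⟨C, N, hC, fun q hq t => (hb q hq t).trans ?_⟩
  have hq1 : (1 : ℝ) ≤ q := by
    have := hq.1
    exact_mod_cast (by omega : 1 ≤ q)
  refine mul_le_mul_of_nonneg_right (mul_le_mul_of_nonneg_left ?_ hC.le) (by positivity)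
  exact Real.rpow_le_rpow_of_exponent_le hq1 (by linarith)

/-- one order gives a pointwise bound -/
theorem GrL_of_reach {k m : ℕ} (hm : 1 ≤ m) (hk : 2 * m ≤ k) {b : ℝ} (hb : 1 ≤ b) (h : Reach k 1 b) :
    MB (2 * m) b ∧ GrL (b / (2 * m)) := by
  have h1 : MB (2 * m) b := MB_of_CT hk hb fun ε hε =>
    up_cons ((reach_iff (by omega)).2 h) (by linarith) (by linarith)
  refine ⟨h1, ?_⟩
  have h2 := GrL_of_MB (by omega) (by linarith) h1
  rwa [show (b / ((2 * m : ℕ) : ℝ)) = b / (2 * m) by push_cast; rfl] at h2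

/-- **the equivalence for all orders** -/
theorem tfae_GrL' {θ : ℝ} (hθ : 0 ≤ θ) : List.TFAE [GrL θ,
    ∀ k M : ℕ, 1 ≤ k → 1 ≤ M → ∀ ε : ℝ, 0 < ε → CT k M (Fin.cons (1 + k * θ) fun _ => 1 / 2 + ε),
    ∀ ε : ℝ, 0 < ε → ∀ K : ℕ, ∃ k : ℕ, K ≤ k ∧ Reach k 1 (k * (θ + ε))] := by
  tfae_have 1 → 2 := fun h k M _ hM ε hε => CT_of_GrL hθ h k M hM hε
  tfae_have 2 → 3 := by
    intro h ε hε K
    obtain ⟨k, hk⟩ := exists_nat_gt ((K : ℝ) + 2 + 2 / ε)
    have h2ε : 0 < 2 / ε := by positivity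
    have hK0 : (0 : ℝ) ≤ K := Nat.cast_nonneg K
    have hkR : (2 : ℝ) < k := by linarith
    have hKk : K ≤ k := by
      have : (K : ℝ) ≤ k := by linarith
      exact_mod_cast this
    have hk2 : 2 ≤ k := by
      have : (2 : ℝ) ≤ k := hkR.le
      exact_mod_cast this
    have hke : 2 ≤ k * ε := by
      have : 2 / ε < k := by linarith
      rw [div_lt_iff₀ hε] at this
      exact this.le
    set x : ℝ := min (1 / 2) ε with hx
    have hx0 : 0 < x := lt_min (by norm_num) hε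
    have hx1 : x ≤ 1 / 2 := min_le_left _ _
    have hx2 : x ≤ ε := min_le_right _ _
    refine ⟨k, hKk, Fin.cons (1 + k * θ) fun _ => 1 / 2 + x, fun j => ?_, ?_, h k 1 (by omega) le_rfl x hx0⟩
    · show (1 / 2 : ℝ) ≤ 1 / 2 + x ∧ 1 / 2 + x < 5 / 4
      constructor <;> linarith
    · show 1 + k * θ + 1 / 2 * ∑ _j : Fin k, ((1 / 2 + x : ℝ) - 1 / 2) ≤ k * (θ + ε)
      rw [Finset.sum_const, Finset.card_univ, Fintype.card_fin, nsmul_eq_mul]
      nlinarith
  tfae_have 3 → 1 := by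
    intro h
    refine GrL_mono_lim fun η hη => ?_
    set ε : ℝ := min (1 / 2) (η / (4 * (1 + θ))) with hε
    have hε0 : 0 < ε := lt_min (by norm_num) (by positivity)
    have hε1 : ε ≤ 1 / 2 := min_le_left _ _
    have hε2 : ε * (4 * (1 + θ)) ≤ η := by
      have : ε ≤ η / (4 * (1 + θ)) := min_le_right _ _
      rwa [le_div_iff₀ (by positivity)] at this
    obtain ⟨k, hkK, hr⟩ := h ε hε0 (max 2 ⌈1 / ε⌉₊)
    have hk2 : 2 ≤ k := (le_max_left _ _).trans hkK
    have hkε : 1 ≤ k * ε := by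
      have h1 : 1 / ε ≤ k := (Nat.le_ceil _).trans (by exact_mod_cast (le_max_right _ _).trans hkK)
      rwa [div_le_iff₀ hε0] at h1
    have hb : 1 ≤ k * (θ + ε) := by
      have : (0 : ℝ) ≤ k * θ := by positivity
      linarith
    have hm1 : 1 ≤ k / 2 := by omega
    obtain ⟨-, h2⟩ := GrL_of_reach hm1 (by omega : 2 * (k / 2) ≤ k) hb hr
    refine ⟨_, ?_, h2⟩
    -- `k (θ + ε) / (2 ⌊k/2⌋) ≤ θ + η`
    have hkR : (k : ℝ) ≤ 2 * ((k / 2 : ℕ) : ℝ) + 1 := by
      have h9 : k ≤ 2 * (k / 2) + 1 := by omega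
      exact_mod_cast h9
    set m : ℝ := ((k / 2 : ℕ) : ℝ) with hm
    have hm0 : 1 ≤ m := by
      rw [hm]
      exact_mod_cast hm1
    rw [div_le_iff₀ (by linarith)]
    have h3 : (k : ℝ) * (θ + ε) ≤ (2 * m + 1) * (θ + ε) := mul_le_mul_of_nonneg_right hkR (by linarith)
    have h4 : 1 ≤ (2 * m + 1) * ε := hkε.trans (mul_le_mul_of_nonneg_right hkR hε0.le)
    have h5 : θ + ε ≤ (2 * m + 1) * ε * (θ + ε) := le_mul_of_one_le_left (by linarith) h4
    have h6 : (2 * m + 1) * ε * (θ + ε) ≤ (3 * m) * (ε * (1 + θ)) := by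
      have : (2 * m + 1) * (ε * (θ + ε)) ≤ (3 * m) * (ε * (1 + θ)) := by
        refine mul_le_mul (by linarith) ?_ (by positivity) (by positivity)
        exact mul_le_mul_of_nonneg_left (by linarith) hε0.le
      linarith
    have h7 : 3 * m * (ε * (1 + θ)) + 2 * m * ε ≤ 2 * m * η := by
      have h8 : ε ≤ ε * (1 + θ) := le_mul_of_one_le_right hε0.le (by linarith)
      have h9 : ε * (1 + θ) ≤ η / 4 := by linarith
      nlinarith
    linarith
  tfae_finish

end

end Pool.Agent.U575.MD
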