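import Pool.Agent.Q48.MDS.Glue
import Pool.Agent.U575.NC.Back

/-! The multiple Dirichlet series: convergence and holomorphy from bounds for the L-functions. -/

set_option autoImplicit false

open Complex Set Filter Topology MeasureTheory

namespace Pool.Agent.U575.MD

open Pool.Agent.N879.QM
open Pool.Agent.Q48.MDS (tube Tempered orth sigma isOpen_tube differentiableOn_integral continuous_re')
open Pool.Agent.U575.NC

noncomputable section

/-- one term -/
def fq (k M q : ℕ) (z : Fin (k + 1) → ℂ) : ℂ :=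
  vl 1 q M * (q : ℂ) ^ (-(z 0)) * ∏ j : Fin k, LL 1 q (z j.succ)

open Classical in
/-- the terms of the series -/
def gq (k M : ℕ) (z : Fin (k + 1) → ℂ) (q : ℕ) : ℂ := if Is 1 q then fq k M q z else 0

/-- the series without the first term -/
def BB (k M : ℕ) (z : Fin (k + 1) → ℂ) : ℂ := ∑' q : ℕ, gq k M z q

/-- the product of the polar factors -/
def PF {k : ℕ} (z : Fin (k + 1) → ℂ) : ℂ := ∏ J : Finset (Fin k), (sigma J z - 1)

/-- the function of the problem -/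
def FF (k M : ℕ) (z : Fin (k + 1) → ℂ) : ℂ := BB k M z * PF z

lemma diff_prod {E ι : Type*} [NormedAddCommGroup E] [NormedSpace ℂ E] (s : Finset ι) (f : ι → E → ℂ)
    (h : ∀ i ∈ s, Differentiable ℂ (f i)) : Differentiable ℂ fun z => ∏ i ∈ s, f i z := by
  classical
  induction s using Finset.induction_on with
  | empty => simp
  | insert a s ha ih =>
      simp only [Finset.prod_insert ha]
      exact (h a (Finset.mem_insert_self a s)).mul (ih fun i hi => h i (Finset.mem_insert_of_mem hi))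

/-- bounds `q ^ θ` to the right of `σ₀` -/
def GB (θ σ₀ : ℝ) : Prop := ∀ ρ : ℝ, 0 < ρ → ∃ (C : ℝ) (N : ℕ), 0 < C ∧ ∀ q : ℕ, Is 1 q → ∀ z : ℂ, σ₀ + ρ ≤ z.re →
  ‖LL 1 q z‖ ≤ C * (q : ℝ) ^ θ * (1 + |z.im|) ^ N

lemma vl_le (s : ℤ) (q n : ℕ) : ‖vl s q n‖ ≤ 1 := by
  unfold vl
  exact DirichletCharacter.norm_le_one _ _

lemma gq_diff (k M q : ℕ) : Differentiable ℂ fun z : Fin (k + 1) → ℂ => gq k M z q := by
  unfold gq
  by_cases h : Is 1 q
  · simp only [if_pos h]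
    unfold fq
    have hq : (q : ℂ) ≠ 0 := by
      have := h.1
      exact_mod_cast (by omega : q ≠ 0)
    have h1 : Differentiable ℂ fun z : Fin (k + 1) → ℂ => (q : ℂ) ^ (-(z 0)) := by
      have : Differentiable ℂ fun z : Fin (k + 1) → ℂ => -(z 0) := by fun_prop
      exact this.const_cpow (Or.inl hq)
    have h2 : Differentiable ℂ fun z : Fin (k + 1) → ℂ => ∏ j : Fin k, LL 1 q (z j.succ) := by
      apply diff_prod
      intro j _
      exact (LL_diff h).comp (by fun_prop)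
    exact (h1.const_mul _).mul h2
  · simp only [if_neg h]
    fun_prop

/-- a bound for one term -/
lemma gq_bound {k M : ℕ} {θ σ₀ ρ : ℝ} (hG : GB θ σ₀) (hρ : 0 < ρ) : ∃ (C : ℝ) (N : ℕ), 0 < C ∧
    ∀ (q : ℕ) (z : Fin (k + 1) → ℂ), 1 + k * θ + ρ ≤ (z 0).re → (∀ j : Fin k, σ₀ + ρ ≤ (z j.succ).re) →
      ‖gq k M z q‖ ≤ C * (1 + ‖fun i => (z i).im‖) ^ N * (q : ℝ) ^ (-(1 + ρ)) := by
  obtain ⟨C, N, hC, h⟩ := hG ρ hρ
  refine ⟨C ^ k, N * k, by positivity, fun q z h0 hj => ?_⟩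
  unfold gq
  by_cases hq : Is 1 q
  swap
  · rw [if_neg hq, norm_zero]
    positivity
  rw [if_pos hq]
  have hq2 : 1 ≤ q := by have := hq.1; omega
  have hqR : (1 : ℝ) ≤ q := by exact_mod_cast hq2
  have hqR0 : (0 : ℝ) < q := by linarith
  unfold fq
  rw [norm_mul, norm_mul, norm_prod, norm_natCast_cpow_of_pos (by omega)]
  have h1 : ∏ j : Fin k, ‖LL 1 q (z j.succ)‖ ≤ (C * (q : ℝ) ^ θ * (1 + ‖fun i => (z i).im‖) ^ N) ^ k := by
    calc ∏ j : Fin k, ‖LL 1 q (z j.succ)‖ ≤ ∏ _j : Fin k, (C * (q : ℝ) ^ θ * (1 + ‖fun i => (z i).im‖) ^ N) := by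
          refine Finset.prod_le_prod (fun _ _ => norm_nonneg _) fun j _ => (h q hq _ (hj j)).trans ?_
          have h2 : |(z j.succ).im| ≤ ‖fun i => (z i).im‖ := by
            have := norm_le_pi_norm (fun i => (z i).im) j.succ
            simpa using this
          gcongr
      _ = _ := by rw [Finset.prod_const, Finset.card_univ, Fintype.card_fin]
  have h3 : (q : ℝ) ^ (-(z 0)).re ≤ (q : ℝ) ^ (-(1 + k * θ + ρ)) :=
    Real.rpow_le_rpow_of_exponent_le hqR (by rw [neg_re]; linarith)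
  calc ‖vl 1 q M‖ * (q : ℝ) ^ (-(z 0)).re * ∏ j : Fin k, ‖LL 1 q (z j.succ)‖
      ≤ 1 * (q : ℝ) ^ (-(1 + k * θ + ρ)) * (C * (q : ℝ) ^ θ * (1 + ‖fun i => (z i).im‖) ^ N) ^ k := by
        refine mul_le_mul (mul_le_mul (vl_le _ _ _) h3 (by positivity) zero_le_one) h1
          (Finset.prod_nonneg fun _ _ => norm_nonneg _) (by positivity)
    _ = C ^ k * (1 + ‖fun i => (z i).im‖) ^ (N * k) * ((q : ℝ) ^ (-(1 + k * θ + ρ)) * ((q : ℝ) ^ θ) ^ k) := by
        rw [mul_pow, mul_pow, ← pow_mul]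
        ring
    _ = _ := by
        congr 1
        rw [← Real.rpow_natCast, ← Real.rpow_mul hqR0.le, ← Real.rpow_add hqR0]
        congr 1
        ring

lemma sum_q {ρ : ℝ} (hρ : 0 < ρ) : Summable fun q : ℕ => (q : ℝ) ^ (-(1 + ρ)) :=
  Real.summable_nat_rpow.2 (by linarith)

/-- the region -/
def Rg (k : ℕ) (a b : ℝ) : Set (Fin (k + 1) → ℝ) := {x | a < x 0 ∧ ∀ j : Fin k, b < x j.succ}

/-- the region -/
abbrev Reg (k : ℕ) (θ σ₀ : ℝ) : Set (Fin (k + 1) → ℝ) := Rg k (1 + k * θ) σ₀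

lemma isOpen_Rg (k : ℕ) (α β : ℝ) : IsOpen (Rg k α β) := by
  have e : Rg k α β = {x : Fin (k + 1) → ℝ | α < x 0} ∩ ⋂ j : Fin k, {x : Fin (k + 1) → ℝ | β < x j.succ} := by
    ext x
    simp [Rg]
  rw [e]
  exact (isOpen_lt continuous_const (continuous_apply 0)).inter
    (isOpen_iInter_of_finite fun j => isOpen_lt continuous_const (continuous_apply j.succ))

lemma conv_lt {α x y a b : ℝ} (hx : α < x) (hy : α < y) (ha : 0 ≤ a) (hb : 0 ≤ b) (hab : a + b = 1) :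
    α < a * x + b * y := by
  rcases eq_or_lt_of_le ha with h | h
  · have hb1 : b = 1 := by linarith
    rw [← h, hb1]
    linarith
  · have := mul_lt_mul_of_pos_left hx h
    have := mul_le_mul_of_nonneg_left hy.le hb
    have e : α = a * α + b * α := by rw [← add_mul, hab, one_mul]
    rw [e]
    linarith

lemma convex_Rg (k : ℕ) (α β : ℝ) : Convex ℝ (Rg k α β) := by
  intro x hx y hy a b ha hb hab
  exact ⟨conv_lt hx.1 hy.1 ha hb hab, fun j => conv_lt (hx.2 j) (hy.2 j) ha hb hab⟩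

lemma isOpen_Reg (k : ℕ) (θ σ₀ : ℝ) : IsOpen (Reg k θ σ₀) := isOpen_Rg _ _ _

lemma convex_Reg (k : ℕ) (θ σ₀ : ℝ) : Convex ℝ (Reg k θ σ₀) := convex_Rg _ _ _

lemma fin_pos {k : ℕ} (r : Fin k → ℝ) (h : ∀ j, 0 < r j) : ∃ ρ : ℝ, 0 < ρ ∧ ∀ j, ρ ≤ r j := by
  rcases Nat.eq_zero_or_pos k with h0 | h0
  · subst h0
    exact ⟨1, one_pos, fun j => j.elim0⟩
  · have : Nonempty (Fin k) := ⟨⟨0, h0⟩⟩
    obtain ⟨j0, -, hj0⟩ := Finset.exists_min_image Finset.univ r Finset.univ_nonempty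
    exact ⟨r j0, h j0, fun j => hj0 j (Finset.mem_univ j)⟩

/-- compact sets stay away from the boundary -/
lemma compact_Rg {k : ℕ} {α β : ℝ} {K : Set (Fin (k + 1) → ℝ)} (hK : K ⊆ Rg k α β) (hc : IsCompact K) :
    ∃ ρ : ℝ, 0 < ρ ∧ ∀ x ∈ K, α + ρ ≤ x 0 ∧ ∀ j : Fin k, β + ρ ≤ x j.succ := by
  obtain ⟨a, ha, ha'⟩ := hc.exists_forall_le' (f := fun x => x 0) (by fun_prop) (a := α) fun x hx => (hK hx).1
  have h2 : ∀ j : Fin k, ∃ b : ℝ, β < b ∧ ∀ x ∈ K, b ≤ x j.succ := fun j =>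
    hc.exists_forall_le' (f := fun x => x j.succ) (by fun_prop) (a := β) fun x hx => (hK hx).2 j
  choose b hb hb' using h2
  obtain ⟨ρ, hρ, hρ'⟩ := fin_pos (fun j => b j - β) fun j => by linarith [hb j]
  refine ⟨min ρ (a - α), lt_min hρ (by linarith), fun x hx => ⟨?_, fun j => ?_⟩⟩
  · have := ha' x hx
    have := min_le_right ρ (a - α)
    linarith
  · have := hb' j x hx
    have := hρ' j
    have := min_le_left ρ (a - α)
    linarith

lemma compact_Reg {k : ℕ} {θ σ₀ : ℝ} {K : Set (Fin (k + 1) → ℝ)} (hK : K ⊆ Reg k θ σ₀) (hc : IsCompact K) :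
    ∃ ρ : ℝ, 0 < ρ ∧ ∀ x ∈ K, 1 + k * θ + ρ ≤ x 0 ∧ ∀ j : Fin k, σ₀ + ρ ≤ x j.succ := compact_Rg hK hc

/-- a neighbourhood with uniform bounds -/
lemma nhd_bound {k : ℕ} (z₀ : Fin (k + 1) → ℂ) {δ : ℝ} (hδ : 0 < δ) : ∃ V ∈ 𝓝 z₀, ∀ z ∈ V,
    (∀ i, |(z i).re - (z₀ i).re| ≤ δ) ∧ ‖fun i => (z i).im‖ ≤ ‖fun i => (z₀ i).im‖ + 1 := by
  refine ⟨Metric.ball z₀ (min 1 δ), Metric.ball_mem_nhds _ (by positivity), fun z hz => ⟨fun i => ?_, ?_⟩⟩
  · rw [mem_ball_iff_norm] at hz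
    have e1 := norm_le_pi_norm (z - z₀) i
    have e2 := Complex.abs_re_le_norm ((z - z₀) i)
    rw [Pi.sub_apply, sub_re] at e2
    have := min_le_right (1 : ℝ) δ
    rw [Pi.sub_apply] at e1
    linarith
  · rw [mem_ball_iff_norm] at hz
    rw [pi_norm_le_iff_of_nonneg (by positivity)]
    intro i
    have e1 := norm_le_pi_norm (z - z₀) i
    have e2 := Complex.abs_im_le_norm ((z - z₀) i)
    rw [Pi.sub_apply, sub_im] at e2
    have e3 := norm_le_pi_norm (fun i => (z₀ i).im) i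
    have := min_le_left (1 : ℝ) δ
    rw [Pi.sub_apply] at e1
    simp only [Real.norm_eq_abs] at e3 ⊢
    have e4 : |(z i).im| ≤ |(z₀ i).im| + |(z i).im - (z₀ i).im| := by
      have := abs_add_le (z₀ i).im ((z i).im - (z₀ i).im)
      rwa [add_sub_cancel] at this
    linarith

/-- dominated terms -/
def DB (k M : ℕ) (α β : ℝ) : Prop := ∀ ρ : ℝ, 0 < ρ → ∃ (b : ℕ → ℝ) (N : ℕ), Summable b ∧
  ∀ (q : ℕ) (z : Fin (k + 1) → ℂ), α + ρ ≤ (z 0).re → (∀ j : Fin k, β + ρ ≤ (z j.succ).re) →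
    ‖gq k M z q‖ ≤ (1 + ‖fun i => (z i).im‖) ^ N * b q

lemma DB_of_GB {k M : ℕ} {θ σ₀ : ℝ} (hG : GB θ σ₀) : DB k M (1 + k * θ) σ₀ := by
  intro ρ hρ
  obtain ⟨C, N, hC, hb⟩ := gq_bound (k := k) (M := M) hG hρ
  refine ⟨fun q => C * (q : ℝ) ^ (-(1 + ρ)), N, (sum_q hρ).mul_left _, fun q z h1 h2 => (hb q z h1 h2).trans (le_of_eq ?_)⟩
  ring

lemma DB_summable {k M : ℕ} {α β : ℝ} (hG : DB k M α β) {z : Fin (k + 1) → ℂ} (hz : z ∈ tube (Rg k α β)) :
    Summable fun q => ‖gq k M z q‖ := by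
  obtain ⟨ρ, hρ, h⟩ := compact_Rg (K := {fun i => (z i).re}) (by rintro x rfl; exact hz) isCompact_singleton
  obtain ⟨b, N, hb, hb'⟩ := hG ρ hρ
  obtain ⟨h1, h2⟩ := h _ rfl
  exact Summable.of_nonneg_of_le (fun _ => norm_nonneg _) (fun q => hb' q z h1 h2) (hb.mul_left _)

lemma gq_summable {k M : ℕ} {θ σ₀ : ℝ} (hG : GB θ σ₀) {z : Fin (k + 1) → ℂ} (hz : z ∈ tube (Reg k θ σ₀)) :
    Summable fun q => ‖gq k M z q‖ := DB_summable (DB_of_GB hG) hz

theorem BB_tempered' (k M : ℕ) {α β : ℝ} (hG : DB k M α β) : Tempered (Rg k α β) (BB k M) := by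
  constructor
  · have hint : EqOn (BB k M) (fun z => ∫ q, gq k M z q ∂(Measure.count : Measure ℕ)) (tube (Rg k α β)) := by
      intro z hz
      have hs := DB_summable hG hz
      have hi : Integrable (gq k M z) (Measure.count : Measure ℕ) := by
        rw [integrable_count_iff]
        exact hs
      simp only
      rw [integral_countable' hi]
      unfold BB
      refine tsum_congr fun q => ?_
      simp
    refine DifferentiableOn.congr ?_ hint
    refine differentiableOn_integral (isOpen_tube (isOpen_Rg k α β)) (fun z q => gq k M z q)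
      (fun q => (gq_diff k M q).differentiableOn) (fun z _ => (measurable_from_nat).aestronglyMeasurable) ?_
    intro z₀ hz₀
    obtain ⟨ρ, hρ, h⟩ := compact_Rg (K := {fun i => (z₀ i).re}) (by rintro x rfl; exact hz₀) isCompact_singleton
    obtain ⟨h1, h2⟩ := h _ rfl
    obtain ⟨b, N, hb, hb'⟩ := hG (ρ / 2) (half_pos hρ)
    obtain ⟨V, hV, hVb⟩ := nhd_bound z₀ (half_pos hρ)
    refine ⟨V, hV, fun q => (1 + (‖fun i => (z₀ i).im‖ + 1)) ^ N * |b q|, ?_, fun z hz q => ?_⟩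
    · rw [integrable_count_iff]
      exact ((hb.abs).mul_left _).norm
    · obtain ⟨hr, hi⟩ := hVb z hz
      refine (hb' q z ?_ fun j => ?_).trans ?_
      · have := (abs_le.1 (hr 0)).1
        linarith
      · have := (abs_le.1 (hr j.succ)).1
        have := h2 j
        linarith
      · refine mul_le_mul (pow_le_pow_left₀ (by positivity) (by linarith) N) (le_abs_self _) ?_ (by positivity)
        have h3 := (norm_nonneg _).trans (hb' q z₀ (by linarith) (fun j => by linarith [h2 j]))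
        exact nonneg_of_mul_nonneg_right h3 (by positivity)
  · intro K hK hc
    obtain ⟨ρ, hρ, h⟩ := compact_Rg hK hc
    obtain ⟨b, N, hb, hb'⟩ := hG ρ hρ
    refine ⟨∑' q : ℕ, b q, N, fun z hz => ?_⟩
    obtain ⟨h1, h2⟩ := h _ hz
    unfold BB
    have h3 := (hb.hasSum.mul_left ((1 + ‖fun i => (z i).im‖) ^ N))
    refine (tsum_of_norm_bounded h3 fun q => hb' q z h1 h2).trans (le_of_eq (by ring))

theorem BB_tempered (k M : ℕ) {θ σ₀ : ℝ} (hG : GB θ σ₀) : Tempered (Reg k θ σ₀) (BB k M) :=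
  BB_tempered' k M (DB_of_GB hG)

lemma sigma_diff {k : ℕ} (J : Finset (Fin k)) : Differentiable ℂ (sigma J) := by
  unfold sigma
  fun_prop

/-- the polar factors are polynomials -/
lemma PF_tempered {k : ℕ} (Ω : Set (Fin (k + 1) → ℝ)) : Tempered Ω (PF (k := k)) := by
  constructor
  · apply Differentiable.differentiableOn
    unfold PF
    apply diff_prod
    intro J _
    exact (sigma_diff J).sub_const 1
  · intro K _ hc
    obtain ⟨R, hR⟩ := hc.isBounded.exists_norm_le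
    refine ⟨(|R| * (k + 2) + (k + 2)) ^ (Fintype.card (Finset (Fin k))), Fintype.card (Finset (Fin k)), fun z hz => ?_⟩
    unfold PF
    rw [norm_prod, ← mul_pow]
    have hzi : ∀ i, ‖z i‖ ≤ |R| + ‖fun i => (z i).im‖ := fun i => by
      have e1 := norm_le_pi_norm (fun i => (z i).re) i
      have e2 := norm_le_pi_norm (fun i => (z i).im) i
      have e3 := hR _ hz
      have e4 := Complex.norm_le_abs_re_add_abs_im (z i)
      simp only [Real.norm_eq_abs] at e1 e2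
      have := le_abs_self R
      linarith
    set T := ‖fun i => (z i).im‖ with hT
    have hT0 : 0 ≤ T := norm_nonneg _
    have h1 : ∀ J : Finset (Fin k), ‖sigma J z - 1‖ ≤ (|R| * (k + 2) + (k + 2)) * (1 + T) := by
      intro J
      unfold sigma
      have hJ : (J.card : ℝ) ≤ k := by
        have := Finset.card_le_univ J
        rw [Fintype.card_fin] at this
        exact_mod_cast this
      have hk0 : (0 : ℝ) ≤ k := Nat.cast_nonneg k
      have hJ0 : (0 : ℝ) ≤ J.card := Nat.cast_nonneg _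
      have e1 : ‖∑ j ∈ J, z j.succ‖ ≤ k * (|R| + T) := by
        refine (norm_sum_le _ _).trans ?_
        calc ∑ j ∈ J, ‖z j.succ‖ ≤ ∑ _j ∈ J, (|R| + T) := Finset.sum_le_sum fun j _ => hzi _
          _ = J.card * (|R| + T) := by rw [Finset.sum_const, nsmul_eq_mul]
          _ ≤ _ := mul_le_mul_of_nonneg_right hJ (by positivity)
      have e2 : ‖(J.card : ℂ) / 2‖ ≤ k := by
        rw [norm_div, Complex.norm_natCast]
        norm_num
        linarith
      have e3 := hzi 0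
      have e4 : ‖z 0 - (J.card : ℂ) / 2 + ∑ j ∈ J, z j.succ - 1‖ ≤
          ‖z 0‖ + ‖(J.card : ℂ) / 2‖ + ‖∑ j ∈ J, z j.succ‖ + 1 := by
        refine (norm_sub_le _ _).trans ?_
        rw [norm_one]
        have := norm_add_le (z 0 - (J.card : ℂ) / 2) (∑ j ∈ J, z j.succ)
        have := norm_sub_le (z 0) ((J.card : ℂ) / 2)
        linarith
      have hR0 : 0 ≤ |R| := abs_nonneg R
      nlinarith [mul_nonneg hk0 hT0, mul_nonneg hR0 hT0, mul_nonneg (mul_nonneg hk0 hR0) hT0, mul_nonneg hk0 hR0]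
    calc ∏ J : Finset (Fin k), ‖sigma J z - 1‖ ≤ ∏ _J : Finset (Fin k), (|R| * (k + 2) + (k + 2)) * (1 + T) :=
          Finset.prod_le_prod (fun _ _ => norm_nonneg _) fun J _ => h1 J
      _ = _ := by rw [Finset.prod_const, Finset.card_univ]

lemma Tempered.mul {ι : Type*} [Fintype ι] {Ω : Set (ι → ℝ)} {F G : (ι → ℂ) → ℂ} (hF : Tempered Ω F)
    (hG : Tempered Ω G) : Tempered Ω (fun z => F z * G z) := by
  refine ⟨hF.1.mul hG.1, fun K hK hc => ?_⟩
  obtain ⟨C, N, h1⟩ := hF.2 K hK hc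
  obtain ⟨C', N', h2⟩ := hG.2 K hK hc
  refine ⟨|C| * |C'|, N + N', fun z hz => ?_⟩
  rw [norm_mul, pow_add]
  have e1 : ‖F z‖ ≤ |C| * (1 + ‖fun i => (z i).im‖) ^ N :=
    (h1 z hz).trans (mul_le_mul_of_nonneg_right (le_abs_self C) (by positivity))
  have e2 : ‖G z‖ ≤ |C'| * (1 + ‖fun i => (z i).im‖) ^ N' :=
    (h2 z hz).trans (mul_le_mul_of_nonneg_right (le_abs_self C') (by positivity))
  calc ‖F z‖ * ‖G z‖ ≤ (|C| * (1 + ‖fun i => (z i).im‖) ^ N) * (|C'| * (1 + ‖fun i => (z i).im‖) ^ N') :=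
        mul_le_mul e1 e2 (norm_nonneg _) (by positivity)
    _ = _ := by ring

theorem FF_tempered' (k M : ℕ) {α β : ℝ} (hG : DB k M α β) : Tempered (Rg k α β) (FF k M) :=
  Tempered.mul (BB_tempered' k M hG) (PF_tempered _)

theorem FF_tempered (k M : ℕ) {θ σ₀ : ℝ} (hG : GB θ σ₀) : Tempered (Reg k θ σ₀) (FF k M) :=
  FF_tempered' k M (DB_of_GB hG)

end

end Pool.Agent.U575.MD
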