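import Pool.Agent.U575.MD.Brg

/-!
# Interpolation and extrapolation of the moment bounds
-/

set_option autoImplicit false

open Complex Set Filter Topology MeasureTheory
open Pool.Agent.N879.QM Pool.Agent.U575.NC

namespace Pool.Agent.U575.MD

noncomputable section

lemma MB_lim {n : ℕ} {a : ℝ} (h : ∀ ε : ℝ, 0 < ε → MB n (a + ε)) : MB n a := by
  intro ε hε
  obtain ⟨C, N, hC, hb⟩ := h (ε / 2) (by linarith) (ε / 2) (by linarith)
  refine ⟨C, N, hC, fun X t hX => ?_⟩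
  have := hb X t hX
  rwa [show a + ε / 2 + ε / 2 = a + ε by ring] at this

lemma MB_zero : MB 0 1 := by
  intro ε hε
  refine ⟨1, 0, one_pos, fun X t hX => ?_⟩
  have h1 : ((Q 1 X).card : ℝ) ≤ X := by
    classical
    have h2 : (Q 1 X).card ≤ ⌈X⌉₊ - 2 := by
      unfold Q
      exact (Finset.card_filter_le _ _).trans (by rw [Nat.card_Ico])
    have h3 : (⌈X⌉₊ : ℝ) < X + 1 := Nat.ceil_lt_add_one (by linarith)
    rcases Nat.lt_or_ge ⌈X⌉₊ 2 with h | h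
    · have : (Q 1 X).card = 0 := by omega
      rw [this]
      push_cast
      linarith
    · have h4 : ((Q 1 X).card : ℝ) ≤ (⌈X⌉₊ : ℝ) - 2 := by
        have : (Q 1 X).card + 2 ≤ ⌈X⌉₊ := by omega
        have : ((Q 1 X).card : ℝ) + 2 ≤ ⌈X⌉₊ := by exact_mod_cast this
        linarith
      linarith
  have h5 : X ≤ X ^ (1 + ε) := by
    calc X = X ^ (1 : ℝ) := (Real.rpow_one X).symm
      _ ≤ X ^ (1 + ε) := Real.rpow_le_rpow_of_exponent_le hX (by linarith)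
  simp only [pow_zero, Finset.sum_const, nsmul_eq_mul, mul_one, one_mul]
  linarith

lemma MB_add {m r : ℕ} {b θ : ℝ} (hθ : 0 ≤ θ) (hG : GrL θ) (hM : MB m b) : MB (m + r) (b + r * θ) := by
  intro ε hε
  have hr0 : (0 : ℝ) ≤ r := Nat.cast_nonneg r
  set η : ℝ := ε / (2 * (r + 1)) with hη
  have hη0 : 0 < η := by positivity
  have hηr : r * η ≤ ε / 2 := by
    have h1 : η * (2 * (r + 1)) = ε := by
      rw [hη]
      field_simp
    nlinarith
  obtain ⟨C₁, N₁, hC₁, h1⟩ := hG η hη0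
  obtain ⟨C₂, N₂, hC₂, h2⟩ := hM (ε / 2) (by linarith)
  refine ⟨C₁ ^ r * C₂, N₁ * r + N₂, by positivity, fun X t hX => ?_⟩
  have hX0 : (0 : ℝ) < X := by linarith
  have hT : (1 : ℝ) ≤ 1 + |t| := by linarith [abs_nonneg t]
  have hT0 : (0 : ℝ) ≤ 1 + |t| := by linarith
  have hpt : ∀ q ∈ Q 1 X, ‖LL 1 q (1 / 2 + t * I)‖ ^ (m + r) ≤
      (C₁ * X ^ (θ + η) * (1 + |t|) ^ N₁) ^ r * ‖LL 1 q (1 / 2 + t * I)‖ ^ m := by
    intro q hq
    have h3 := h1 q (mem_Q hq).2.2 t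
    have h4 : (q : ℝ) ^ (θ + η) ≤ X ^ (θ + η) :=
      Real.rpow_le_rpow (Nat.cast_nonneg q) (mem_Q hq).2.1.le (by linarith)
    have h5 : ‖LL 1 q (1 / 2 + t * I)‖ ≤ C₁ * X ^ (θ + η) * (1 + |t|) ^ N₁ :=
      h3.trans (mul_le_mul_of_nonneg_right (mul_le_mul_of_nonneg_left h4 hC₁.le) (by positivity))
    rw [pow_add, mul_comm]
    exact mul_le_mul_of_nonneg_right (pow_le_pow_left₀ (norm_nonneg _) h5 r) (by positivity)
  have h6 : (X ^ (θ + η)) ^ r = X ^ (r * (θ + η)) := by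
    rw [← Real.rpow_natCast (X ^ (θ + η)) r, ← Real.rpow_mul hX0.le, mul_comm]
  calc ∑ q ∈ Q 1 X, ‖LL 1 q (1 / 2 + t * I)‖ ^ (m + r)
      ≤ ∑ q ∈ Q 1 X, (C₁ * X ^ (θ + η) * (1 + |t|) ^ N₁) ^ r * ‖LL 1 q (1 / 2 + t * I)‖ ^ m := Finset.sum_le_sum hpt
    _ = (C₁ * X ^ (θ + η) * (1 + |t|) ^ N₁) ^ r * ∑ q ∈ Q 1 X, ‖LL 1 q (1 / 2 + t * I)‖ ^ m := by
        rw [← Finset.mul_sum]
    _ ≤ (C₁ * X ^ (θ + η) * (1 + |t|) ^ N₁) ^ r * (C₂ * X ^ (b + ε / 2) * (1 + |t|) ^ N₂) :=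
        mul_le_mul_of_nonneg_left (h2 X t hX) (by positivity)
    _ = C₁ ^ r * C₂ * (X ^ (r * (θ + η)) * X ^ (b + ε / 2)) * (1 + |t|) ^ (N₁ * r + N₂) := by
        rw [mul_pow, mul_pow, h6, ← pow_mul, pow_add]
        ring
    _ = C₁ ^ r * C₂ * X ^ (r * (θ + η) + (b + ε / 2)) * (1 + |t|) ^ (N₁ * r + N₂) := by
        rw [← Real.rpow_add hX0]
    _ ≤ C₁ ^ r * C₂ * X ^ (b + r * θ + ε) * (1 + |t|) ^ (N₁ * r + N₂) := by
        refine mul_le_mul_of_nonneg_right (mul_le_mul_of_nonneg_left ?_ (by positivity)) (by positivity)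
        refine Real.rpow_le_rpow_of_exponent_le hX ?_
        nlinarith

lemma MB_ip {l m n : ℕ} (h1 : l ≤ m) (h2 : m ≤ n) (h3 : l < n) {b c : ℝ} (hb : MB (2 * l) b) (hc : MB (2 * n) c) :
    MB (2 * m) (((n - m) * b + (m - l) * c) / (n - l)) := by
  have hl : (l : ℝ) ≤ m := by exact_mod_cast h1
  have hn : (m : ℝ) ≤ n := by exact_mod_cast h2
  have hln : (0 : ℝ) < n - l := by
    have : (l : ℝ) < n := by exact_mod_cast h3
    linarith
  set u : ℝ := (n - m) / (n - l) with hu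
  set v : ℝ := (m - l) / (n - l) with hv
  have hu0 : 0 ≤ u := div_nonneg (by linarith) hln.le
  have hv0 : 0 ≤ v := div_nonneg (by linarith) hln.le
  have huv : u + v = 1 := by
    rw [hu, hv, ← add_div]
    rw [show ((n : ℝ) - m + (m - l)) = n - l by ring]
    exact div_self hln.ne'
  have hm : 2 * (l : ℝ) * u + 2 * n * v = 2 * m := by
    rw [hu, hv]
    field_simp
    ring
  have ha : ((n - m) * b + (m - l) * c) / (n - l) = u * b + v * c := by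
    rw [hu, hv]
    field_simp
  rw [ha]
  intro ε hε
  obtain ⟨C₁, N₁, hC₁, k1⟩ := hb ε hε
  obtain ⟨C₂, N₂, hC₂, k2⟩ := hc ε hε
  refine ⟨C₁ + C₂, max N₁ N₂, by positivity, fun X t hX => ?_⟩
  have hX0 : (0 : ℝ) < X := by linarith
  have hT : (1 : ℝ) ≤ 1 + |t| := by linarith [abs_nonneg t]
  set T : ℝ := 1 + |t| with hTd
  have hpt : ∀ q ∈ Q 1 X, ‖LL 1 q (1 / 2 + t * I)‖ ^ (2 * m) ≤
      u * (X ^ ((c - b) * v) * ‖LL 1 q (1 / 2 + t * I)‖ ^ (2 * l)) +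
      v * (X ^ (-((c - b) * u)) * ‖LL 1 q (1 / 2 + t * I)‖ ^ (2 * n)) := by
    intro q _
    set x : ℝ := ‖LL 1 q (1 / 2 + t * I)‖ with hx
    have hx0 : 0 ≤ x := norm_nonneg _
    have key := Real.geom_mean_le_arith_mean2_weighted hu0 hv0
      (p₁ := X ^ ((c - b) * v) * x ^ (2 * l)) (p₂ := X ^ (-((c - b) * u)) * x ^ (2 * n))
      (by positivity) (by positivity) huv
    refine le_trans (le_of_eq ?_) key
    rw [Real.mul_rpow (by positivity) (by positivity), Real.mul_rpow (by positivity) (by positivity),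
      ← Real.rpow_mul hX0.le, ← Real.rpow_mul hX0.le, ← Real.rpow_natCast x (2 * l), ← Real.rpow_natCast x (2 * n),
      ← Real.rpow_mul hx0, ← Real.rpow_mul hx0]
    have e1 : X ^ ((c - b) * v * u) * x ^ (((2 * l : ℕ) : ℝ) * u) * (X ^ (-((c - b) * u) * v) *
        x ^ (((2 * n : ℕ) : ℝ) * v)) = (X ^ ((c - b) * v * u) * X ^ (-((c - b) * u) * v)) *
        (x ^ (((2 * l : ℕ) : ℝ) * u) * x ^ (((2 * n : ℕ) : ℝ) * v)) := by ring
    rw [e1, ← Real.rpow_add hX0, ← Real.rpow_add_of_nonneg hx0 (by positivity) (by positivity)]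
    rw [show (c - b) * v * u + -((c - b) * u) * v = 0 by ring, Real.rpow_zero, one_mul]
    rw [show ((2 * l : ℕ) : ℝ) * u + ((2 * n : ℕ) : ℝ) * v = ((2 * m : ℕ) : ℝ) by push_cast; linarith]
    rw [Real.rpow_natCast]
  have hT1 : T ^ N₁ ≤ T ^ max N₁ N₂ := pow_le_pow_right₀ hT (le_max_left _ _)
  have hT2 : T ^ N₂ ≤ T ^ max N₁ N₂ := pow_le_pow_right₀ hT (le_max_right _ _)
  have hT0 : (0 : ℝ) ≤ T := by linarith
  calc ∑ q ∈ Q 1 X, ‖LL 1 q (1 / 2 + t * I)‖ ^ (2 * m)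
      ≤ ∑ q ∈ Q 1 X, (u * (X ^ ((c - b) * v) * ‖LL 1 q (1 / 2 + t * I)‖ ^ (2 * l)) +
        v * (X ^ (-((c - b) * u)) * ‖LL 1 q (1 / 2 + t * I)‖ ^ (2 * n))) := Finset.sum_le_sum hpt
    _ = u * X ^ ((c - b) * v) * ∑ q ∈ Q 1 X, ‖LL 1 q (1 / 2 + t * I)‖ ^ (2 * l) +
        v * X ^ (-((c - b) * u)) * ∑ q ∈ Q 1 X, ‖LL 1 q (1 / 2 + t * I)‖ ^ (2 * n) := by
        rw [Finset.sum_add_distrib, Finset.mul_sum, Finset.mul_sum]
        congr 1 <;> exact Finset.sum_congr rfl fun q _ => by ring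
    _ ≤ u * X ^ ((c - b) * v) * (C₁ * X ^ (b + ε) * T ^ N₁) +
        v * X ^ (-((c - b) * u)) * (C₂ * X ^ (c + ε) * T ^ N₂) :=
        add_le_add (mul_le_mul_of_nonneg_left (k1 X t hX) (by positivity))
          (mul_le_mul_of_nonneg_left (k2 X t hX) (by positivity))
    _ = u * C₁ * X ^ (u * b + v * c + ε) * T ^ N₁ + v * C₂ * X ^ (u * b + v * c + ε) * T ^ N₂ := by
        have f1 : X ^ ((c - b) * v) * X ^ (b + ε) = X ^ (u * b + v * c + ε) := by
          rw [← Real.rpow_add hX0]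
          congr 1
          have : u = 1 - v := by linarith
          rw [this]
          ring
        have f2 : X ^ (-((c - b) * u)) * X ^ (c + ε) = X ^ (u * b + v * c + ε) := by
          rw [← Real.rpow_add hX0]
          congr 1
          have : v = 1 - u := by linarith
          rw [this]
          ring
        rw [← f1]
        nth_rewrite 2 [f1]
        rw [← f2]
        ring
    _ ≤ 1 * C₁ * X ^ (u * b + v * c + ε) * T ^ max N₁ N₂ + 1 * C₂ * X ^ (u * b + v * c + ε) * T ^ max N₁ N₂ := by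
        gcongr <;> linarith
    _ = (C₁ + C₂) * X ^ (u * b + v * c + ε) * T ^ max N₁ N₂ := by ring

end

end Pool.Agent.U575.MD
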