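import Pool.Agent.U575.MD.Ref

/-! The domain of continuation is invariant under the functional equations; the criterion for the centre. -/

set_option autoImplicit false

open Complex Set Filter Topology MeasureTheory
open scoped ComplexConjugate

namespace Pool.Agent.U575.MD

open Pool.Agent.N879.QM
open Pool.Agent.Q48.MDS (tube Tempered orth sigma isOpen_tube bochner mem_of_ge tempered_glue eqOn_tube isOpen_orth
  orth_nonempty)
open Pool.Agent.U575.NC

noncomputable section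

/-- the reflected region -/
def VV {k : ℕ} (J : Finset (Fin k)) (W : Set (Fin (k + 1) → ℝ)) : Set (Fin (k + 1) → ℝ) :=
  {x | Rr J x ∈ W ∧ ∀ j ∈ J, -1 / 4 < x j.succ ∧ x j.succ < 1 / 2}

lemma isOpen_VV {k : ℕ} (J : Finset (Fin k)) {W : Set (Fin (k + 1) → ℝ)} (hW : IsOpen W) : IsOpen (VV J W) := by
  have e : VV J W = Rr J ⁻¹' W ∩ ⋂ j ∈ J, {x : Fin (k + 1) → ℝ | -1 / 4 < x j.succ ∧ x j.succ < 1 / 2} := by
    ext x
    simp [VV]
  rw [e]
  refine (hW.preimage (Rr_cont J)).inter (isOpen_biInter_finset fun j _ => ?_)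
  exact (isOpen_lt continuous_const (continuous_apply j.succ)).inter (isOpen_lt (continuous_apply j.succ) continuous_const)

lemma convex_VV {k : ℕ} (J : Finset (Fin k)) {W : Set (Fin (k + 1) → ℝ)} (hW : Convex ℝ W) : Convex ℝ (VV J W) := by
  intro x hx y hy a b ha hb hab
  refine ⟨?_, fun j hj => ⟨conv_lt (hx.2 j hj).1 (hy.2 j hj).1 ha hb hab, ?_⟩⟩
  · rw [Rr_affine J x y hab]
    exact hW hx.1 hy.1 ha hb hab
  · have := conv_lt (α := -(1 / 2)) (neg_lt_neg (hx.2 j hj).2) (neg_lt_neg (hy.2 j hj).2) ha hb hab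
    show a * x j.succ + b * y j.succ < 1 / 2
    linarith

lemma H_tempered {k : ℕ} (J : Finset (Fin k)) {W : Set (Fin (k + 1) → ℝ)} (hW : IsOpen W)
    {G : (Fin (k + 1) → ℂ) → ℂ} (hG : Tempered W G) :
    Tempered (VV J W) (fun z => (∏ j ∈ J, Xg (z j.succ)) * G (Rf J z)) := by
  refine Tempered.mul (Tempered.finset_prod J fun j hj => ?_) ?_
  · refine ⟨fun z hz => ?_, fun K hK hc => ⟨16, 1, fun z hz => ?_⟩⟩
    · have h1 : (z j.succ).re < 1 / 2 := (hz.2 j hj).2
      have h2 : DifferentiableAt ℂ Xg (z j.succ) := Xg_diff (by linarith)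
      have h3 : DifferentiableAt ℂ (fun z : Fin (k + 1) → ℂ => z j.succ) z := by fun_prop
      exact (h2.comp z h3).differentiableWithinAt
    · have h1 := (hK hz).2 j hj
      have h2 := Xg_bound (s := z j.succ) h1.1.le h1.2.le
      refine h2.trans ?_
      have h3 := norm_le_pi_norm (fun i => (z i).im) j.succ
      simp only [Real.norm_eq_abs] at h3
      rw [pow_one]
      linarith
  · have hmem : ∀ z : Fin (k + 1) → ℂ, z ∈ tube (VV J W) → Rf J z ∈ tube W := by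
      intro z hz
      show (fun i => (Rf J z i).re) ∈ W
      rw [Rf_re]
      exact hz.1
    refine ⟨fun z hz => ?_, fun K hK hc => ?_⟩
    · have h1 : DifferentiableAt ℂ G (Rf J z) := hG.1.differentiableAt ((isOpen_tube hW).mem_nhds (hmem z hz))
      exact (h1.comp z (Rf_diff J z)).differentiableWithinAt
    · obtain ⟨C, N, h1⟩ := hG.2 (Rr J '' K) (by
        rintro _ ⟨x, hx, rfl⟩
        exact (hK hx).1) (hc.image (Rr_cont J))
      refine ⟨|C| * (k + 1) ^ N, N, fun z hz => ?_⟩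
      have h2 := h1 (Rf J z) (by
        rw [Rf_re]
        exact ⟨_, hz, rfl⟩)
      have h3 := Rf_im J z
      have hk : (0 : ℝ) ≤ k := Nat.cast_nonneg k
      have h4 : 1 + ‖fun i => (Rf J z i).im‖ ≤ (k + 1) * (1 + ‖fun i => (z i).im‖) := by
        nlinarith [norm_nonneg fun i => (z i).im]
      calc ‖G (Rf J z)‖ ≤ C * (1 + ‖fun i => (Rf J z i).im‖) ^ N := h2
        _ ≤ |C| * ((k + 1) * (1 + ‖fun i => (z i).im‖)) ^ N :=
            mul_le_mul (le_abs_self _) (pow_le_pow_left₀ (by positivity) h4 N) (by positivity) (abs_nonneg _)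
        _ = _ := by
            rw [mul_pow]
            ring

/-- **reflection** -/
theorem CT.reflect {k M : ℕ} {J : Finset (Fin k)} (hJ : Even J.card) (hJ0 : J.Nonempty) {p : Fin (k + 1) → ℝ}
    (h : CT k M p) (hp : ∀ j ∈ J, 1 / 2 < p j.succ ∧ p j.succ < 5 / 4) : CT k M (Rr J p) := by
  obtain ⟨W, hWo, hWc, hpW, hUW, G, hG, hGF⟩ := h.strong
  have hk0 : (0 : ℝ) ≤ k := Nat.cast_nonneg k
  have hUt : Tempered (Rg k (1 + k) (-1 / 4)) (FF k M) := by
    have := FF_tempered k M GB_one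
    unfold Reg at this
    rwa [mul_one] at this
  set U := Rg k (1 + k) (-1 / 4) with hU
  set V := VV J W with hV
  have hVo : IsOpen V := isOpen_VV J hWo
  have hVc : Convex ℝ V := convex_VV J hWc
  set H : (Fin (k + 1) → ℂ) → ℂ := fun z => (∏ j ∈ J, Xg (z j.succ)) * G (Rf J z) with hH
  have hHt : Tempered V H := H_tempered J hWo hG
  have hcard : (J.card : ℝ) ≤ k := by
    have := Finset.card_le_univ J
    rw [Fintype.card_fin] at this
    exact_mod_cast this
  have hcard0 : (0 : ℝ) ≤ J.card := Nat.cast_nonneg _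
  -- the overlap
  set Ω₀ : Set (Fin (k + 1) → ℝ) := {x | 3 * k + 3 < x 0 ∧ (∀ j : Fin k, -1 / 4 < x j.succ) ∧ ∀ j ∈ J, x j.succ < 1 / 2} with hΩ₀
  have hΩ₀U : ∀ x ∈ Ω₀, Rr J x ∈ U := by
    rintro x ⟨h1, h2, h3⟩
    refine ⟨?_, fun j => ?_⟩
    · rw [Rr_zero]
      have h4 : ∑ j ∈ J, (-(1 / 4) : ℝ) ≤ ∑ j ∈ J, x j.succ := Finset.sum_le_sum fun j _ => by linarith [h2 j]
      rw [Finset.sum_const, nsmul_eq_mul] at h4
      nlinarith
    · rw [Rr_succ]
      split_ifs with hj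
      · linarith [h3 j hj]
      · exact h2 j
  have hΩ₀V : Ω₀ ⊆ V ∩ U := by
    intro x hx
    exact ⟨⟨hUW (hΩ₀U x hx), fun j hj => ⟨hx.2.1 j, hx.2.2 j hj⟩⟩, by
      have := hx.1
      show 1 + (k : ℝ) < x 0
      linarith, hx.2.1⟩
  have hΩ₀o : IsOpen Ω₀ := by
    have e : Ω₀ = {x : Fin (k + 1) → ℝ | 3 * k + 3 < x 0} ∩ ((⋂ j : Fin k, {x : Fin (k + 1) → ℝ | -1 / 4 < x j.succ}) ∩
        ⋂ j ∈ J, {x : Fin (k + 1) → ℝ | x j.succ < 1 / 2}) := by
      ext x
      simp [hΩ₀]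
    rw [e]
    exact (isOpen_lt continuous_const (continuous_apply 0)).inter
      ((isOpen_iInter_of_finite fun j => isOpen_lt continuous_const (continuous_apply j.succ)).inter
        (isOpen_biInter_finset fun j _ => isOpen_lt (continuous_apply j.succ) continuous_const))
  have hpt : (Fin.cons (3 * k + 4) fun _ => 0 : Fin (k + 1) → ℝ) ∈ Ω₀ := by
    refine ⟨?_, fun j => ?_, fun j _ => ?_⟩
    · show 3 * (k : ℝ) + 3 < 3 * k + 4
      linarith
    · show (-1 / 4 : ℝ) < 0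
      norm_num
    · show (0 : ℝ) < 1 / 2
      norm_num
  have hHF : EqOn H (FF k M) (tube (V ∩ U)) := by
    refine eqOn_tube hΩ₀o ⟨_, hpt⟩ (hVo.inter (isOpen_Rg _ _ _)) (hVc.inter (convex_Rg _ _ _)) hΩ₀V
      (hHt.1.mono fun z hz => hz.1) (hUt.1.mono fun z hz => hz.2) ?_
    intro z hz
    have h1 : Rf J z ∈ tube U := by
      show (fun i => (Rf J z i).re) ∈ U
      rw [Rf_re]
      exact hΩ₀U _ hz
    simp only [hH]
    rw [hGF h1]
    exact FF_Rf hJ fun j hj => by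
      have : (z j.succ).re < 1 / 2 := hz.2.2 j hj
      linarith
  -- gluing
  obtain ⟨G2, hG2, e1, e2⟩ := tempered_glue (isOpen_Rg k (1 + k) (-1 / 4)) (isOpen_Rg k 1 1) hUt (FF_orth k M)
    (fun _ _ => rfl)
  have hU2o : IsOpen (U ∪ Rg k 1 1) := (isOpen_Rg _ _ _).union (isOpen_Rg _ _ _)
  obtain ⟨G3, hG3, f1, f2⟩ := tempered_glue hVo hU2o hHt hG2 (by
    rintro z ⟨hz1, hz2⟩
    rcases hz2 with hz2 | hz2
    · rw [hHF ⟨hz1, hz2⟩, e1 hz2]
    · exfalso
      obtain ⟨j, hj⟩ := hJ0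
      have h1 : (z j.succ).re < 1 / 2 := (hz1.2 j hj).2
      have h2 : 1 < (z j.succ).re := hz2.2 j
      linarith)
  have horth : orth (k + 1) ⊆ Rg k 1 1 := fun x hx => ⟨hx 0, fun j => hx j.succ⟩
  have hpt2 : (fun _ => k + 3 : Fin (k + 1) → ℝ) ∈ U ∩ Rg k 1 1 := by
    refine ⟨⟨?_, fun j => ?_⟩, ?_, fun j => ?_⟩
    · show (1 : ℝ) + k < k + 3
      linarith
    · show (-1 / 4 : ℝ) < k + 3
      linarith
    · show (1 : ℝ) < k + 3
      linarith
    · show (1 : ℝ) < k + 3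
      linarith
  have hRp : Rr J p ∈ V := by
    refine ⟨by rw [Rr_Rr]; exact hpW, fun j hj => ?_⟩
    rw [Rr_succ, if_pos hj]
    have := hp j hj
    constructor <;> linarith
  refine ⟨V ∪ (U ∪ Rg k 1 1), hVo.union hU2o, ?_, fun x hx => Or.inr (Or.inr (horth hx)), Or.inl hRp, G3, hG3,
    fun z hz => ?_⟩
  · refine IsConnected.union ⟨_, (hΩ₀V hpt).1, Or.inl (hΩ₀V hpt).2⟩ ⟨⟨_, hRp⟩, hVc.isPreconnected⟩
      (IsConnected.union ⟨_, hpt2⟩ ⟨⟨_, hpt2.1⟩, (convex_Rg _ _ _).isPreconnected⟩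
        ⟨⟨_, hpt2.2⟩, (convex_Rg _ _ _).isPreconnected⟩)
  · have hz1 : z ∈ tube (Rg k 1 1) := horth hz
    rw [f2 (Or.inr hz1), e2 hz1]

/-- moving the variables in `J` to the centre -/
def kl {k : ℕ} (J : Finset (Fin k)) (p : Fin (k + 1) → ℝ) : Fin (k + 1) → ℝ :=
  Fin.cons (p 0 + 1 / 2 * ∑ j ∈ J, (p j.succ - 1 / 2)) fun j => if j ∈ J then 1 / 2 else p j.succ

theorem CT.kill {k M : ℕ} {J : Finset (Fin k)} (hJ : Even J.card) (hJ0 : J.Nonempty) {p : Fin (k + 1) → ℝ}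
    (h : CT k M p) (hp : ∀ j ∈ J, 1 / 2 ≤ p j.succ ∧ p j.succ < 5 / 4) : CT k M (kl J p) := by
  -- a slightly different point
  obtain ⟨Ω, hΩo, hΩc, hsub, hpΩ, hG⟩ := h
  set f : ℝ → Fin (k + 1) → ℝ := fun x => Fin.cons (p 0 - 1 / 2 * J.card * x) fun j => if j ∈ J then p j.succ + x else p j.succ with hf
  have hfc : Continuous f := by
    refine continuous_pi fun i => ?_
    refine Fin.cases ?_ (fun j => ?_) i
    · show Continuous fun x : ℝ => p 0 - 1 / 2 * J.card * x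
      fun_prop
    · show Continuous fun x : ℝ => if j ∈ J then p j.succ + x else p j.succ
      split_ifs
      · fun_prop
      · fun_prop
  have hf0 : f 0 = p := by
    funext i
    refine Fin.cases ?_ (fun j => ?_) i
    · show p 0 - 1 / 2 * J.card * 0 = p 0
      ring
    · show (if j ∈ J then p j.succ + 0 else p j.succ) = p j.succ
      split_ifs
      · ring
      · rfl
  have hev1 : ∀ᶠ x in 𝓝[>] (0 : ℝ), f x ∈ Ω := by
    apply nhdsWithin_le_nhds
    have : f ⁻¹' Ω ∈ 𝓝 (0 : ℝ) := (hΩo.preimage hfc).mem_nhds (by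
      show f 0 ∈ Ω
      rw [hf0]
      exact hpΩ)
    exact this
  have hev2 : ∀ᶠ x in 𝓝[>] (0 : ℝ), ∀ j ∈ J, p j.succ + x < 5 / 4 := by
    apply nhdsWithin_le_nhds
    show ∀ᶠ x in 𝓝 (0 : ℝ), ∀ j ∈ J, p j.succ + x < 5 / 4
    rw [Filter.eventually_all_finset]
    intro j hj
    have h1 : Tendsto (fun x : ℝ => p j.succ + x) (𝓝 0) (𝓝 (p j.succ + 0)) := by
      exact (continuous_const.add continuous_id).tendsto 0
    rw [add_zero] at h1
    exact h1.eventually_lt_const (hp j hj).2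
  have hev3 : ∀ᶠ x in 𝓝[>] (0 : ℝ), (0 : ℝ) < x := self_mem_nhdsWithin
  obtain ⟨x, h1, h2, h3⟩ := (hev1.and (hev2.and hev3)).exists
  have hc1 : CT k M (f x) := ⟨Ω, hΩo, hΩc, hsub, h1, hG⟩
  have fs : ∀ j : Fin k, f x j.succ = if j ∈ J then p j.succ + x else p j.succ := fun j => rfl
  have f0 : f x 0 = p 0 - 1 / 2 * J.card * x := rfl
  have hc2 : CT k M (Rr J (f x)) := CT.reflect hJ hJ0 hc1 fun j hj => by
    rw [fs, if_pos hj]
    have := hp j hj
    exact ⟨by linarith, h2 j hj⟩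
  have hc3 := convex_CT k M hc1 hc2 (by norm_num : (0 : ℝ) ≤ 1 / 2) (by norm_num : (0 : ℝ) ≤ 1 / 2) (by norm_num)
  have he : (1 / 2 : ℝ) • f x + (1 / 2 : ℝ) • Rr J (f x) = kl J p := by
    funext i
    refine Fin.cases ?_ (fun j => ?_) i
    · show 1 / 2 * f x 0 + 1 / 2 * Rr J (f x) 0 = p 0 + 1 / 2 * ∑ j ∈ J, (p j.succ - 1 / 2)
      rw [Rr_zero, f0]
      have e1 : ∑ j ∈ J, f x j.succ = ∑ j ∈ J, p j.succ + J.card * x := by
        rw [Finset.sum_congr rfl fun j hj => by rw [fs, if_pos hj]]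
        rw [Finset.sum_add_distrib, Finset.sum_const, nsmul_eq_mul]
      rw [e1, Finset.sum_sub_distrib, Finset.sum_const, nsmul_eq_mul]
      ring
    · show 1 / 2 * f x j.succ + 1 / 2 * Rr J (f x) j.succ = if j ∈ J then 1 / 2 else p j.succ
      rw [Rr_succ, fs]
      split_ifs
      · ring
      · ring
  rw [← he]
  exact hc3

/-- **the criterion for the centre** -/
theorem center_crit {k M : ℕ} (hk : 2 ≤ k) : CT k M (Fin.cons 1 fun _ => 1 / 2) ↔
    ∃ p : Fin (k + 1) → ℝ, (∀ j : Fin k, 1 / 2 ≤ p j.succ ∧ p j.succ < 5 / 4) ∧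
      p 0 + 1 / 2 * ∑ j : Fin k, (p j.succ - 1 / 2) ≤ 1 ∧ CT k M p := by
  classical
  constructor
  · intro h
    refine ⟨Fin.cons 1 fun _ => 1 / 2, fun j => ?_, ?_, h⟩
    · show (1 / 2 : ℝ) ≤ 1 / 2 ∧ (1 / 2 : ℝ) < 5 / 4
      norm_num
    · show (1 : ℝ) + 1 / 2 * ∑ _j : Fin k, ((1 / 2 : ℝ) - 1 / 2) ≤ 1
      simp
  · rintro ⟨p, hp, hle, h⟩
    rcases Nat.even_or_odd k with he | ho
    · have h1 := h.kill (J := Finset.univ) (by rwa [Finset.card_univ, Fintype.card_fin])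
        ⟨⟨0, by omega⟩, Finset.mem_univ _⟩ fun j _ => hp j
      refine h1.up fun i => ?_
      refine Fin.cases ?_ (fun j => ?_) i
      · exact hle
      · show (if j ∈ Finset.univ then 1 / 2 else p j.succ) ≤ 1 / 2
        rw [if_pos (Finset.mem_univ j)]
    · set i₀ : Fin k := ⟨0, by omega⟩ with hi₀
      set i₁ : Fin k := ⟨1, by omega⟩ with hi₁
      have hne : i₀ ≠ i₁ := by
        intro h
        rw [hi₀, hi₁, Fin.mk.injEq] at h
        omega
      set J : Finset (Fin k) := Finset.univ.erase i₀ with hJ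
      have hcard : J.card = k - 1 := by
        rw [hJ, Finset.card_erase_of_mem (Finset.mem_univ _), Finset.card_univ, Fintype.card_fin]
      have h1 := h.kill (J := J) (by
        rw [hcard]
        obtain ⟨m, hm⟩ := ho
        exact ⟨m, by omega⟩) ⟨i₁, Finset.mem_erase.2 ⟨hne.symm, Finset.mem_univ _⟩⟩ fun j _ => hp j
      have ks : ∀ j : Fin k, kl J p j.succ = if j ∈ J then 1 / 2 else p j.succ := fun j => rfl
      have h2 := h1.kill (J := {i₀, i₁}) (by
        rw [Finset.card_pair hne]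
        exact even_two) ⟨i₀, by simp⟩ fun j _ => by
          rw [ks]
          split_ifs
          · norm_num
          · exact hp j
      refine h2.up fun i => ?_
      refine Fin.cases ?_ (fun j => ?_) i
      · show kl J p 0 + 1 / 2 * ∑ j ∈ {i₀, i₁}, (kl J p j.succ - 1 / 2) ≤ 1
        rw [Finset.sum_pair hne, ks, ks, if_neg (Finset.notMem_erase _ _),
          if_pos (Finset.mem_erase.2 ⟨hne.symm, Finset.mem_univ _⟩), sub_self, add_zero]
        show p 0 + 1 / 2 * ∑ j ∈ J, (p j.succ - 1 / 2) + 1 / 2 * (p i₀.succ - 1 / 2) ≤ 1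
        have e : ∑ j : Fin k, (p j.succ - 1 / 2) = ∑ j ∈ J, (p j.succ - 1 / 2) + (p i₀.succ - 1 / 2) :=
          (Finset.sum_erase_add Finset.univ _ (Finset.mem_univ i₀)).symm
        rw [e] at hle
        linarith
      · show (if j ∈ ({i₀, i₁} : Finset (Fin k)) then 1 / 2 else kl J p j.succ) ≤ 1 / 2
        split_ifs with hj
        · exact le_rfl
        · rw [ks, if_pos]
          rw [hJ, Finset.mem_erase]
          refine ⟨?_, Finset.mem_univ _⟩
          rintro rfl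
          exact hj (by simp)

end

end Pool.Agent.U575.MD
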