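import Pool.Agent.U575.MD.Conv

/-! Bounds on the critical line from the continuation. -/

set_option autoImplicit false

open Complex Set Filter Topology MeasureTheory
open scoped ComplexConjugate

namespace Pool.Agent.U575.MD

open Pool.Agent.N879.QM
open Pool.Agent.U575.NC

noncomputable section

/-- the value at `2` -/
lemma LL_two {q : ℕ} (h : Is 1 q) : ∃ x : ℝ, 1 / 4 ≤ x ∧ LL 1 q 2 = x := by
  have hconj : conj (LL 1 q 2) = LL 1 q 2 := by
    have := LL_conj h 2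
    rw [← this]
    congr 1
    exact conj_ofNat 2
  obtain ⟨x, hx⟩ := Complex.conj_eq_iff_real.1 hconj
  refine ⟨x, ?_, hx⟩
  have hq : q ≠ 0 := by have := h.1; omega
  have : NeZero q := ⟨hq⟩
  have e1 : LL 1 q 2 = LSeries (fun n => ch 1 q n) 2 := by
    unfold LL
    rw [dif_pos hq]
    exact DirichletCharacter.LFunction_eq_LSeries _ (by norm_num)
  have hS : LSeriesSummable (fun n => ch 1 q n) 2 :=
    DirichletCharacter.LSeriesSummable_of_one_lt_re _ (by norm_num)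
  have h1 := hS.hasSum
  have h2 : HasSum (fun n : ℕ => LSeries.term (fun n => ch 1 q n) 2 n - if n = 1 then (1 : ℂ) else 0)
      (LSeries (fun n => ch 1 q n) 2 - 1) := h1.sub (hasSum_ite_eq 1 1)
  have h3 : HasSum (fun n : ℕ => 1 / (n : ℝ) ^ 2 - if n = 1 then (1 : ℝ) else 0) (Real.pi ^ 2 / 6 - 1) :=
    hasSum_zeta_two.sub (hasSum_ite_eq 1 1)
  have h4 : ‖LSeries (fun n => ch 1 q n) 2 - 1‖ ≤ Real.pi ^ 2 / 6 - 1 := by
    refine h2.norm_le_of_bounded h3 fun n => ?_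
    rcases Nat.eq_zero_or_pos n with h0 | h0
    · subst h0
      simp
    · rw [LSeries.term_of_ne_zero (by omega)]
      by_cases hn : n = 1
      · subst hn
        simp
      · rw [if_neg hn, if_neg hn, sub_zero, sub_zero, norm_div]
        have e2 : ‖((n : ℂ) ^ (2 : ℂ))‖ = (n : ℝ) ^ 2 := by
          rw [norm_natCast_cpow_of_pos h0]
          exact_mod_cast Real.rpow_natCast (n : ℝ) 2
        rw [e2]
        exact div_le_div_of_nonneg_right (DirichletCharacter.norm_le_one _ _) (by positivity)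
  rw [← e1, hx] at h4
  have h5 : ‖((x : ℂ) - 1)‖ = |x - 1| := by
    rw [← ofReal_one, ← ofReal_sub, Complex.norm_real, Real.norm_eq_abs]
  rw [h5] at h4
  have h6 := (abs_le.1 h4).1
  have h7 : Real.pi < 3.15 := Real.pi_lt_d2
  have h8 := Real.pi_pos
  nlinarith

lemma append_re {m r : ℕ} (u : ℂ) (j : Fin (m + m + r)) :
    (Fin.append (Fin.append (fun _ : Fin m => u) (fun _ : Fin m => conj u)) (fun _ : Fin r => (2 : ℂ)) j) = u ∨
    (Fin.append (Fin.append (fun _ : Fin m => u) (fun _ : Fin m => conj u)) (fun _ : Fin r => (2 : ℂ)) j) = conj u ∨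
    (Fin.append (Fin.append (fun _ : Fin m => u) (fun _ : Fin m => conj u)) (fun _ : Fin r => (2 : ℂ)) j) = 2 := by
  refine Fin.addCases (fun i => ?_) (fun i => ?_) j
  · rw [Fin.append_left]
    refine Fin.addCases (fun i => ?_) (fun i => ?_) i
    · left
      rw [Fin.append_left]
    · right; left
      rw [Fin.append_right]
  · right; right
    rw [Fin.append_right]

theorem off_sum {m r : ℕ} {a ε : ℝ} (ha : 1 < a) (hε : 0 < ε) (hε2 : ε ≤ 1)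
    (h : CT (m + m + r) 1 (Fin.cons a fun _ => 1 / 2 + ε)) :
    ∃ (C : ℝ) (N : ℕ), 0 < C ∧ ∀ (t Y : ℝ) (S : Finset ℕ), 0 < Y → (∀ q ∈ S, Y / 2 ≤ q ∧ (q : ℝ) ≤ Y) →
      (∀ q ∈ S, Is 1 q) →
      ∑ q ∈ S, ‖LL 1 q ((1 / 2 + ε : ℝ) + t * I)‖ ^ (2 * m) ≤ C * Y ^ a * (1 + |t|) ^ N := by
  obtain ⟨C, N, hC, hb⟩ := coef_bound ha hε h
  refine ⟨4 ^ r * C, N, by positivity, fun t Y S hY hS hSI => ?_⟩
  set u : ℂ := (1 / 2 + ε : ℝ) + t * I with hu
  have hre : u.re = 1 / 2 + ε := by simp [hu]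
  have him : u.im = t := by simp [hu]
  set s : Fin (m + m + r) → ℂ :=
    Fin.append (Fin.append (fun _ : Fin m => u) (fun _ : Fin m => conj u)) (fun _ : Fin r => (2 : ℂ)) with hs
  have hre' : ∀ j, 1 / 2 + ε ≤ (s j).re ∧ (s j).re ≤ 2 := by
    intro j
    rcases append_re u j with h1 | h1 | h1
    · rw [hs, h1, hre]
      exact ⟨le_rfl, by linarith⟩
    · rw [hs, h1, conj_re, hre]
      exact ⟨le_rfl, by linarith⟩
    · rw [hs, h1]
      norm_num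
      linarith
  have him' : ‖fun j => (s j).im‖ ≤ |t| := by
    rw [pi_norm_le_iff_of_nonneg (abs_nonneg t)]
    intro j
    rcases append_re u j with h1 | h1 | h1
    · rw [hs, h1, him, Real.norm_eq_abs]
    · rw [hs, h1, conj_im, him, norm_neg, Real.norm_eq_abs]
    · rw [hs, h1]
      simp
  have hprod : ∀ q, Is 1 q → ∏ j, LL 1 q (s j) = ((‖LL 1 q u‖ ^ (2 * m) * (LL 1 q 2).re ^ r : ℝ) : ℂ) := by
    intro q hq
    obtain ⟨x, hx, hx2⟩ := LL_two hq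
    rw [hs, Fin.prod_univ_add, Fin.prod_univ_add]
    simp only [Fin.append_left, Fin.append_right, Finset.prod_const, Finset.card_univ, Fintype.card_fin]
    rw [LL_conj hq, ← mul_pow, Complex.mul_conj, hx2, ofReal_re, pow_mul, Complex.normSq_eq_norm_sq]
    push_cast
    ring
  classical
  have key := hb s hre' (fun q => if Is 1 q then ‖LL 1 q u‖ ^ (2 * m) * (LL 1 q 2).re ^ r else 0) (fun q => by
    by_cases hI : Is 1 q
    · rw [if_pos hI]
      obtain ⟨x, hx, hx2⟩ := LL_two hI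
      rw [hx2, ofReal_re]
      have : 0 ≤ x := by linarith
      positivity
    · rw [if_neg hI]) (fun q hI => by
      rw [if_pos hI]
      exact hprod q hI) (fun q hI => if_neg hI) Y S hY hS
  have hterm : ∀ q ∈ S, ‖LL 1 q u‖ ^ (2 * m) ≤
      4 ^ r * (if Is 1 q then ‖LL 1 q u‖ ^ (2 * m) * (LL 1 q 2).re ^ r else 0) := by
    intro q hq
    rw [if_pos (hSI q hq)]
    obtain ⟨x, hx, hx2⟩ := LL_two (hSI q hq)
    rw [hx2, ofReal_re]
    have h1 : (1 / 4 : ℝ) ^ r ≤ x ^ r := pow_le_pow_left₀ (by norm_num) hx r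
    have h2 : 0 ≤ ‖LL 1 q u‖ ^ (2 * m) := by positivity
    have h3 : (4 : ℝ) ^ r * (1 / 4) ^ r = 1 := by
      rw [← mul_pow]
      norm_num
    calc ‖LL 1 q u‖ ^ (2 * m) = 4 ^ r * (‖LL 1 q u‖ ^ (2 * m) * (1 / 4) ^ r) := by
          linear_combination -(‖LL 1 q u‖ ^ (2 * m)) * h3
      _ ≤ 4 ^ r * (‖LL 1 q u‖ ^ (2 * m) * x ^ r) :=
          mul_le_mul_of_nonneg_left (mul_le_mul_of_nonneg_left h1 h2) (by positivity)
  calc ∑ q ∈ S, ‖LL 1 q u‖ ^ (2 * m) ≤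
        ∑ q ∈ S, 4 ^ r * (if Is 1 q then ‖LL 1 q u‖ ^ (2 * m) * (LL 1 q 2).re ^ r else 0) :=
        Finset.sum_le_sum hterm
    _ = 4 ^ r * ∑ q ∈ S, (if Is 1 q then ‖LL 1 q u‖ ^ (2 * m) * (LL 1 q 2).re ^ r else 0) := by
        rw [Finset.mul_sum]
    _ ≤ 4 ^ r * (C * Y ^ a * (1 + ‖fun j => (s j).im‖) ^ N) := mul_le_mul_of_nonneg_left key (by positivity)
    _ ≤ 4 ^ r * (C * Y ^ a * (1 + |t|) ^ N) := by
        refine mul_le_mul_of_nonneg_left (mul_le_mul_of_nonneg_left ?_ (by positivity)) (by positivity)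
        exact pow_le_pow_left₀ (by positivity) (by linarith) N
    _ = _ := by ring

theorem off_bound {m r : ℕ} {a ε : ℝ} (ha : 1 < a) (hε : 0 < ε) (hε2 : ε ≤ 1)
    (h : CT (m + m + r) 1 (Fin.cons a fun _ => 1 / 2 + ε)) :
    ∃ (C : ℝ) (N : ℕ), 0 < C ∧ ∀ q, Is 1 q → ∀ t : ℝ,
      ‖LL 1 q ((1 / 2 + ε : ℝ) + t * I)‖ ^ (2 * m) ≤ C * (q : ℝ) ^ a * (1 + |t|) ^ N := by
  obtain ⟨C, N, hC, hb⟩ := off_sum ha hε hε2 h
  refine ⟨C, N, hC, fun q hq t => ?_⟩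
  have hq0 : (0 : ℝ) < q := by
    have := hq.1
    exact_mod_cast (by omega : 0 < q)
  have key := hb t q {q} hq0 (fun p hp => by
    rw [Finset.mem_singleton] at hp
    subst hp
    exact ⟨by linarith, le_rfl⟩) (fun p hp => by
    rw [Finset.mem_singleton] at hp
    subst hp
    exact hq)
  rwa [Finset.sum_singleton] at key

/-- dyadic summation -/
lemma dyadic {f : ℕ → ℝ} (hf : ∀ q, 0 ≤ f q) {V a : ℝ} (hV : 0 ≤ V) (ha : 1 ≤ a)
    (h : ∀ n : ℕ, ∑ q ∈ Finset.Ico (2 ^ n) (2 ^ (n + 1)), f q ≤ V * ((2 : ℝ) ^ (n + 1)) ^ a) (n : ℕ) :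
    ∑ q ∈ Finset.Ico 1 (2 ^ n), f q ≤ 2 * V * ((2 : ℝ) ^ n) ^ a := by
  induction n with
  | zero => simp; linarith
  | succ n ih =>
      rw [← Finset.sum_Ico_consecutive f Nat.one_le_two_pow (Nat.pow_le_pow_right two_pos (Nat.le_succ n))]
      have h1 := h n
      have h2 : 2 * ((2 : ℝ) ^ n) ^ a ≤ ((2 : ℝ) ^ (n + 1)) ^ a := by
        rw [pow_succ, Real.mul_rpow (by positivity) (by norm_num), mul_comm]
        refine mul_le_mul_of_nonneg_left ?_ (by positivity)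
        calc (2 : ℝ) = 2 ^ (1 : ℝ) := (Real.rpow_one 2).symm
          _ ≤ 2 ^ a := Real.rpow_le_rpow_of_exponent_le (by norm_num) ha
      nlinarith

/-- the moments off the line -/
theorem off_moment {m r : ℕ} {a ε : ℝ} (ha : 1 < a) (hε : 0 < ε) (hε2 : ε ≤ 1)
    (h : CT (m + m + r) 1 (Fin.cons a fun _ => 1 / 2 + ε)) :
    ∃ (C : ℝ) (N : ℕ), 0 < C ∧ ∀ X t : ℝ, 1 ≤ X →
      ∑ q ∈ Q 1 X, ‖LL 1 q ((1 / 2 + ε : ℝ) + t * I)‖ ^ (2 * m) ≤ C * X ^ a * (1 + |t|) ^ N := by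
  classical
  obtain ⟨C, N, hC, hb⟩ := off_sum ha hε hε2 h
  refine ⟨2 * C * 2 ^ a, N, by positivity, fun X t hX => ?_⟩
  set f : ℕ → ℝ := fun q => if Is 1 q then ‖LL 1 q ((1 / 2 + ε : ℝ) + t * I)‖ ^ (2 * m) else 0 with hf
  have hf0 : ∀ q, 0 ≤ f q := fun q => by
    simp only [hf]
    split_ifs <;> positivity
  have hT0 : 0 ≤ (1 + |t|) ^ N := by positivity
  have hd := dyadic hf0 (V := C * (1 + |t|) ^ N) (a := a) (by positivity) ha.le (fun n => by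
    have h1 : ∑ q ∈ Finset.Ico (2 ^ n) (2 ^ (n + 1)), f q =
        ∑ q ∈ (Finset.Ico (2 ^ n) (2 ^ (n + 1))).filter (Is 1), ‖LL 1 q ((1 / 2 + ε : ℝ) + t * I)‖ ^ (2 * m) := by
      rw [Finset.sum_filter]
    rw [h1]
    refine (hb t ((2 : ℝ) ^ (n + 1)) _ (by positivity) (fun q hq => ?_) (fun q hq => (Finset.mem_filter.1 hq).2)).trans
      (le_of_eq (by ring))
    obtain ⟨h2, h3⟩ := Finset.mem_Ico.1 (Finset.mem_filter.1 hq).1
    constructor
    · rw [pow_succ, mul_div_assoc, div_self two_ne_zero, mul_one]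
      exact_mod_cast h2
    · exact_mod_cast h3.le)
  obtain ⟨n, hn1, hn2⟩ := exists_nat_pow_near hX (one_lt_two)
  have h2 : ∑ q ∈ Q 1 X, ‖LL 1 q ((1 / 2 + ε : ℝ) + t * I)‖ ^ (2 * m) ≤ ∑ q ∈ Finset.Ico 1 (2 ^ (n + 1)), f q := by
    have h3 : ∑ q ∈ Q 1 X, ‖LL 1 q ((1 / 2 + ε : ℝ) + t * I)‖ ^ (2 * m) = ∑ q ∈ Q 1 X, f q :=
      Finset.sum_congr rfl fun q hq => by
        simp only [hf]
        rw [if_pos (mem_Q hq).2.2]
    rw [h3]
    refine Finset.sum_le_sum_of_subset_of_nonneg (fun q hq => ?_) fun q _ _ => hf0 q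
    obtain ⟨h4, h5, -⟩ := mem_Q hq
    rw [Finset.mem_Ico]
    refine ⟨by omega, ?_⟩
    have : (q : ℝ) < ((2 ^ (n + 1) : ℕ) : ℝ) := by
      push_cast
      linarith
    exact_mod_cast this
  refine h2.trans ((hd (n + 1)).trans ?_)
  have h6 : ((2 : ℝ) ^ (n + 1)) ^ a ≤ 2 ^ a * X ^ a := by
    rw [← Real.mul_rpow (by norm_num) (by linarith)]
    refine Real.rpow_le_rpow (by positivity) ?_ (by linarith)
    rw [pow_succ]
    linarith
  calc 2 * (C * (1 + |t|) ^ N) * ((2 : ℝ) ^ (n + 1)) ^ a ≤ 2 * (C * (1 + |t|) ^ N) * (2 ^ a * X ^ a) :=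
        mul_le_mul_of_nonneg_left h6 (by positivity)
    _ = _ := by ring

/-- roots -/
lemma root_bound {x C Y T : ℝ} {n N : ℕ} (hn : n ≠ 0) (hC : 0 < C) (hY : 0 ≤ Y) (hT : 1 ≤ T)
    (h : x ^ n ≤ C * Y ^ n * T ^ N) : x ≤ (1 + C) * Y * T ^ N := by
  have hT0 : 0 ≤ T := by linarith
  have h1 : C ≤ (1 + C) ^ n := by
    calc C ≤ 1 + C := by linarith
      _ ≤ (1 + C) ^ n := le_self_pow₀ (by linarith) hn
  have h2 : T ^ N ≤ (T ^ N) ^ n := le_self_pow₀ (one_le_pow₀ hT) hn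
  refine le_of_pow_le_pow_left₀ hn (by positivity) (h.trans ?_)
  rw [mul_pow, mul_pow]
  exact mul_le_mul (mul_le_mul_of_nonneg_right h1 (by positivity)) h2 (by positivity) (by positivity)

/-- one step with pointwise bounds -/
lemma step_bd {q : ℕ} (hI : Is 1 q) {σ a b l A₁ A₂ t : ℝ} {N₁ N₂ : ℕ} (ha : a < 0) (hb : 0 < b)
    (hσ : -1 / 4 ≤ σ + a) (h1 : ∀ u : ℝ, ‖LL 1 q ((σ + b : ℝ) + u * I)‖ ≤ A₁ * (1 + |u|) ^ N₁)
    (h2 : ∀ u : ℝ, ‖LL 1 q ((σ + a : ℝ) + u * I)‖ ≤ A₂ * (1 + |u|) ^ N₂) :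
    ‖LL 1 q (σ + t * I)‖ ≤ Real.exp (l * b + b ^ 2) / b * (A₁ * (1 + |t|) ^ N₁ * fr N₁) +
      Real.exp (l * a + a ^ 2) / |a| * (A₂ * (1 + |t|) ^ N₂ * fr N₂) := by
  have key := one_step hI 1 (σ := σ) (a := a) (b := b) (l := l) (K := 1) (t := t) one_pos ha hb hσ
  have hA : ∀ {x A : ℝ} {N : ℕ}, (∀ u : ℝ, ‖LL 1 q ((x : ℝ) + u * I)‖ ≤ A * (1 + |u|) ^ N) →
      ∫ y : ℝ, ‖LL 1 q ((x : ℝ) + (t + y : ℝ) * I)‖ ^ 1 * Real.exp (-1 * y ^ 2) ≤ A * (1 + |t|) ^ N * fr N := by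
    intro x A N hx
    have hA0 : 0 ≤ A := by
      have := (norm_nonneg _).trans (hx 0)
      simpa using this
    unfold fr
    rw [← integral_const_mul]
    apply integral_mono_of_nonneg
    · exact Eventually.of_forall fun y => by positivity
    · exact (fr_int N).const_mul _
    · refine Eventually.of_forall fun y => ?_
      have g1 := hx (t + y)
      have g3 : 1 + |t + y| ≤ (1 + |t|) * (1 + |y|) := by
        have := abs_add_le t y
        nlinarith [abs_nonneg y, abs_nonneg t, mul_nonneg (abs_nonneg t) (abs_nonneg y)]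
      simp only
      rw [pow_one]
      calc _ ≤ (A * ((1 + |t|) * (1 + |y|)) ^ N) * Real.exp (-1 * y ^ 2) := by
            refine mul_le_mul_of_nonneg_right (g1.trans ?_) (Real.exp_pos _).le
            exact mul_le_mul_of_nonneg_left (pow_le_pow_left₀ (by positivity) g3 N) hA0
        _ = _ := by
            rw [mul_pow]
            ring
  rw [pow_one, one_mul, one_mul, abs_of_pos hb] at key
  refine key.trans (add_le_add ?_ ?_)
  · exact mul_le_mul_of_nonneg_left (hA h1) (by positivity)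
  · exact mul_le_mul_of_nonneg_left (hA h2) (by positivity)

/-- bounds `q ^ θ` on the critical line, for all the exponents larger than `θ` -/
def GrL (θ : ℝ) : Prop := ∀ ε : ℝ, 0 < ε → ∃ (C : ℝ) (N : ℕ), 0 < C ∧ ∀ q : ℕ, Is 1 q → ∀ t : ℝ,
  ‖LL 1 q (1 / 2 + t * I)‖ ≤ C * (q : ℝ) ^ (θ + ε) * (1 + |t|) ^ N

theorem LH_of_CT {θ : ℝ} (hθ : 0 ≤ θ) (h : ∀ ε : ℝ, 0 < ε → ∀ K : ℕ, ∃ k : ℕ, K ≤ k ∧
    CT k 1 (Fin.cons (1 + k * θ + ε) fun _ => 1 / 2 + ε)) : GrL θ := by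
  intro η hη
  set ε : ℝ := min (η / 4) (1 / 2) with hε
  have hε0 : 0 < ε := lt_min (by linarith) (by norm_num)
  have hε1 : ε ≤ η / 4 := min_le_left _ _
  have hε2 : ε ≤ 1 / 2 := min_le_right _ _
  obtain ⟨k, hk, hCT⟩ := h ε hε0 (max 3 ⌈(3 + 2 * θ + η) / η⌉₊)
  have hk3 : 3 ≤ k := (le_max_left _ _).trans hk
  have hkη : 3 + 2 * θ + η ≤ k * η := by
    have h1 : (3 + 2 * θ + η) / η ≤ k := (Nat.le_ceil _).trans (by exact_mod_cast (le_max_right _ _).trans hk)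
    rwa [div_le_iff₀ hη] at h1
  obtain ⟨m, r, hr, hkm⟩ : ∃ m r : ℕ, r ≤ 1 ∧ k = m + m + r := ⟨k / 2, k % 2, by omega, by omega⟩
  have hm : 1 ≤ m := by omega
  set a : ℝ := 1 + k * θ + ε with ha
  have hk0 : (0 : ℝ) ≤ k := Nat.cast_nonneg k
  have ha1 : 1 < a := by
    have := mul_nonneg hk0 hθ
    linarith
  have hCT2 : CT (m + m + r) 1 (Fin.cons a fun _ => 1 / 2 + ε) := by
    subst hkm
    exact hCT
  obtain ⟨C, N, hC, hb⟩ := off_bound ha1 hε0 (by linarith) hCT2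
  -- the exponent
  have hkR : (k : ℝ) - 1 ≤ 2 * m := by
    have : (k : ℝ) ≤ 2 * m + 1 := by
      have h9 : k ≤ 2 * m + 1 := by omega
      exact_mod_cast h9
    linarith
  have hexp : a ≤ (θ + η / 2) * (2 * m) := by
    have h1 : (k - 1) * (θ + η / 2) ≤ (2 * m) * (θ + η / 2) := mul_le_mul_of_nonneg_right hkR (by linarith)
    nlinarith
  have hoff : ∀ q, Is 1 q → ∀ t : ℝ, ‖LL 1 q ((1 / 2 + ε : ℝ) + t * I)‖ ≤
      (1 + C) * (q : ℝ) ^ (θ + η / 2) * (1 + |t|) ^ N := by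
    intro q hq t
    have hq1 : (1 : ℝ) ≤ q := by
      have := hq.1
      exact_mod_cast (by omega : 1 ≤ q)
    refine root_bound (n := 2 * m) (by omega) hC (by positivity) (by linarith [abs_nonneg t]) ((hb q hq t).trans ?_)
    refine mul_le_mul_of_nonneg_right (mul_le_mul_of_nonneg_left ?_ hC.le) (by positivity)
    rw [← Real.rpow_natCast, ← Real.rpow_mul (by linarith)]
    refine Real.rpow_le_rpow_of_exponent_le hq1 (hexp.trans (le_of_eq ?_))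
    push_cast
    ring
  obtain ⟨G, hG1, hG⟩ := growth
  set M : ℕ := max N 1 with hM
  set D1 : ℝ := Real.exp (ε ^ 2) / ε * ((1 + C) * fr N) with hD1
  set D2 : ℝ := Real.exp ((3 / 4) ^ 2) / (3 / 4) * (G * fr 1) with hD2
  have hD10 : 0 ≤ D1 := by
    have := fr_nonneg N
    positivity
  have hD20 : 0 ≤ D2 := by
    have := fr_nonneg 1
    have : 0 ≤ G := by linarith
    positivity
  refine ⟨D1 + D2 + 1, M, by positivity, fun q hq t => ?_⟩
  have hq1 : (1 : ℝ) ≤ q := by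
    have := hq.1
    exact_mod_cast (by omega : 1 ≤ q)
  have hq0 : (0 : ℝ) < q := by linarith
  have key := step_bd hq (σ := 1 / 2) (a := -(3 / 4)) (b := ε) (l := 2 * Real.log q) (t := t)
    (A₁ := (1 + C) * (q : ℝ) ^ (θ + η / 2)) (A₂ := G * q) (N₁ := N) (N₂ := 1) (by norm_num) hε0 (by norm_num)
    (fun u => hoff q hq u) (fun u => by
      have := hG 1 q hq ((1 / 2 + -(3 / 4) : ℝ) + u * I) (by simp; norm_num)
      have e2 : (((1 / 2 + -(3 / 4) : ℝ) : ℂ) + u * I).im = u := by simp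
      rw [e2] at this
      rw [pow_one]
      linarith)
  have e1 : (((1 / 2 : ℝ) : ℂ) + t * I) = 1 / 2 + t * I := by push_cast; rfl
  rw [e1] at key
  refine key.trans ?_
  have hT1 : 1 ≤ 1 + |t| := by linarith [abs_nonneg t]
  have hT0 : 0 < 1 + |t| := by linarith
  have hTN : (1 + |t|) ^ N ≤ (1 + |t|) ^ M := pow_le_pow_right₀ hT1 (le_max_left _ _)
  have hT1' : (1 + |t|) ^ 1 ≤ (1 + |t|) ^ M := pow_le_pow_right₀ hT1 (le_max_right _ _)
  have hqe : 0 < (q : ℝ) ^ (θ + η) := by positivity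
  have p1 : Real.exp (2 * Real.log q * ε + ε ^ 2) / ε * ((1 + C) * (q : ℝ) ^ (θ + η / 2) * (1 + |t|) ^ N * fr N) ≤
      D1 * (q : ℝ) ^ (θ + η) * (1 + |t|) ^ M := by
    have h1 : Real.exp (2 * Real.log q * ε + ε ^ 2) = Real.exp (ε ^ 2) * (q : ℝ) ^ (2 * ε) := by
      rw [Real.rpow_def_of_pos hq0, ← Real.exp_add]
      ring_nf
    have h2 : (q : ℝ) ^ (2 * ε) * (q : ℝ) ^ (θ + η / 2) ≤ (q : ℝ) ^ (θ + η) := by
      rw [← Real.rpow_add hq0]
      exact Real.rpow_le_rpow_of_exponent_le hq1 (by linarith)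
    rw [h1]
    calc _ = D1 * ((q : ℝ) ^ (2 * ε) * (q : ℝ) ^ (θ + η / 2)) * (1 + |t|) ^ N := by
          rw [hD1]
          ring
      _ ≤ D1 * (q : ℝ) ^ (θ + η) * (1 + |t|) ^ M :=
          mul_le_mul (mul_le_mul_of_nonneg_left h2 hD10) hTN (by positivity) (by positivity)
  have p2 : Real.exp (2 * Real.log q * -(3 / 4) + (-(3 / 4)) ^ 2) / |(-(3 / 4) : ℝ)| *
      (G * q * (1 + |t|) ^ 1 * fr 1) ≤ D2 * (q : ℝ) ^ (θ + η) * (1 + |t|) ^ M := by
    have h0 : |(-(3 / 4) : ℝ)| = 3 / 4 := by rw [abs_neg, abs_of_pos (by norm_num)]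
    have h1 : Real.exp (2 * Real.log q * -(3 / 4) + (-(3 / 4)) ^ 2) = Real.exp ((3 / 4) ^ 2) * (q : ℝ) ^ (-(3 / 2) : ℝ) := by
      rw [Real.rpow_def_of_pos hq0, ← Real.exp_add]
      ring_nf
    have h2 : (q : ℝ) ^ (-(3 / 2) : ℝ) * q ≤ (q : ℝ) ^ (θ + η) := by
      calc (q : ℝ) ^ (-(3 / 2) : ℝ) * q = (q : ℝ) ^ (-(3 / 2) : ℝ) * (q : ℝ) ^ (1 : ℝ) := by rw [Real.rpow_one]
        _ = (q : ℝ) ^ (-(3 / 2) + 1 : ℝ) := by rw [← Real.rpow_add hq0]
        _ ≤ _ := Real.rpow_le_rpow_of_exponent_le hq1 (by linarith)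
    rw [h0, h1]
    calc _ = D2 * ((q : ℝ) ^ (-(3 / 2) : ℝ) * q) * (1 + |t|) ^ 1 := by
          rw [hD2]
          ring
      _ ≤ D2 * (q : ℝ) ^ (θ + η) * (1 + |t|) ^ M :=
          mul_le_mul (mul_le_mul_of_nonneg_left h2 hD20) hT1' (by positivity) (by positivity)
  calc _ ≤ D1 * (q : ℝ) ^ (θ + η) * (1 + |t|) ^ M + D2 * (q : ℝ) ^ (θ + η) * (1 + |t|) ^ M := add_le_add p1 p2
    _ ≤ D1 * (q : ℝ) ^ (θ + η) * (1 + |t|) ^ M + D2 * (q : ℝ) ^ (θ + η) * (1 + |t|) ^ M +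
        (q : ℝ) ^ (θ + η) * (1 + |t|) ^ M := le_add_of_nonneg_right (by positivity)
    _ = _ := by ring

end

end Pool.Agent.U575.MD
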