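import Pool.Agent.U575.MD.Lh

/-! Moments: from the continuation to the critical line. -/

set_option autoImplicit false

open Complex Set Filter Topology MeasureTheory

namespace Pool.Agent.U575.MD

open Pool.Agent.N879.QM
open Pool.Agent.U575.NC

noncomputable section

/-- the `n`-th moment is at most `X ^ (a + ε)` -/
def MB (n : ℕ) (a : ℝ) : Prop := ∀ ε : ℝ, 0 < ε → ∃ (C : ℝ) (N : ℕ), 0 < C ∧ ∀ X t : ℝ, 1 ≤ X →
  ∑ q ∈ Q 1 X, ‖LL 1 q (1 / 2 + t * I)‖ ^ n ≤ C * X ^ (a + ε) * (1 + |t|) ^ N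

/-- a bound for the sum of Gaussian integrals -/
lemma sum_gauss {S : Finset ℕ} (hS : ∀ q ∈ S, Is 1 q) {n N : ℕ} {x V : ℝ} (hV : 0 ≤ V)
    (h : ∀ t : ℝ, ∑ q ∈ S, ‖LL 1 q ((x : ℝ) + t * I)‖ ^ n ≤ V * (1 + |t|) ^ N) (t : ℝ) :
    ∑ q ∈ S, ∫ y : ℝ, ‖LL 1 q ((x : ℝ) + (t + y : ℝ) * I)‖ ^ n * Real.exp (-1 * y ^ 2) ≤
      V * (1 + |t|) ^ N * fr N := by
  have hg : ∀ y : ℝ, 1 + |t + y| ≤ (1 + |t|) * (1 + |y|) := fun y => by
    have := abs_add_le t y
    nlinarith [abs_nonneg y, abs_nonneg t, mul_nonneg (abs_nonneg t) (abs_nonneg y)]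
  have hdom : ∀ y : ℝ, ∑ q ∈ S, ‖LL 1 q ((x : ℝ) + (t + y : ℝ) * I)‖ ^ n * Real.exp (-1 * y ^ 2) ≤
      V * (1 + |t|) ^ N * ((1 + |y|) ^ N * Real.exp (-1 * y ^ 2)) := by
    intro y
    rw [← Finset.sum_mul]
    calc _ ≤ (V * ((1 + |t|) * (1 + |y|)) ^ N) * Real.exp (-1 * y ^ 2) := by
          refine mul_le_mul_of_nonneg_right ((h (t + y)).trans ?_) (Real.exp_pos _).le
          exact mul_le_mul_of_nonneg_left (pow_le_pow_left₀ (by positivity) (hg y) N) hV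
      _ = _ := by
          rw [mul_pow]
          ring
  have hint : ∀ q ∈ S, Integrable (fun y : ℝ => ‖LL 1 q ((x : ℝ) + (t + y : ℝ) * I)‖ ^ n * Real.exp (-1 * y ^ 2)) := by
    intro q hq
    have hc : Continuous fun y : ℝ => ‖LL 1 q ((x : ℝ) + (t + y : ℝ) * I)‖ ^ n * Real.exp (-1 * y ^ 2) := by
      have h1 : Continuous fun y : ℝ => LL 1 q ((x : ℝ) + (t + y : ℝ) * I) :=
        (LL_diff (hS q hq)).continuous.comp (by fun_prop)
      fun_prop
    refine ((fr_int N).const_mul (V * (1 + |t|) ^ N)).mono' hc.aestronglyMeasurable (Eventually.of_forall fun y => ?_)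
    rw [Real.norm_of_nonneg (by positivity)]
    exact (Finset.single_le_sum (f := fun q => ‖LL 1 q ((x : ℝ) + (t + y : ℝ) * I)‖ ^ n * Real.exp (-1 * y ^ 2))
      (fun _ _ => by positivity) hq).trans (hdom y)
  rw [← integral_finset_sum S hint]
  have h2 : ∫ y : ℝ, ∑ q ∈ S, ‖LL 1 q ((x : ℝ) + (t + y : ℝ) * I)‖ ^ n * Real.exp (-1 * y ^ 2) ≤
      ∫ y : ℝ, V * (1 + |t|) ^ N * ((1 + |y|) ^ N * Real.exp (-1 * y ^ 2)) := by
    apply integral_mono (integrable_finset_sum S hint) ((fr_int N).const_mul _)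
    exact hdom
  rw [integral_const_mul] at h2
  exact h2

/-- from the right to the critical line, in the mean -/
theorem line_mean {n N : ℕ} {b a C : ℝ} (hb : 0 < b) (ha : 1 ≤ a) (hC : 0 < C)
    (h : ∀ X t : ℝ, 1 ≤ X → ∑ q ∈ Q 1 X, ‖LL 1 q ((1 / 2 + b : ℝ) + t * I)‖ ^ n ≤ C * X ^ a * (1 + |t|) ^ N) :
    ∃ (C' : ℝ) (N' : ℕ), 0 < C' ∧ ∀ X t : ℝ, 1 ≤ X →
      ∑ q ∈ Q 1 X, ‖LL 1 q (1 / 2 + t * I)‖ ^ n ≤ C' * X ^ (a + 4 * n * b) * (1 + |t|) ^ N' := by
  obtain ⟨G, hG1, hG⟩ := growth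
  have hG0 : 0 < G := by linarith
  have hfrN := fr_nonneg N
  have hfrn := fr_nonneg n
  set D1 : ℝ := Real.exp (b ^ 2) / b * (C * fr N) with hD1
  set D2 : ℝ := Real.exp ((3 / 4) ^ 2) / (3 / 4) * (G ^ n * fr n) with hD2
  have hD10 : 0 ≤ D1 := by positivity
  have hD20 : 0 ≤ D2 := by positivity
  refine ⟨D1 + D2 + 1, max N n, by positivity, fun X t hX => ?_⟩
  have hX0 : 0 < X := by linarith
  have hn0 : (0 : ℝ) ≤ n := Nat.cast_nonneg n
  set l : ℝ := 4 * n * Real.log X with hl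
  have hT1 : 1 ≤ 1 + |t| := by linarith [abs_nonneg t]
  have hTN : (1 + |t|) ^ N ≤ (1 + |t|) ^ max N n := pow_le_pow_right₀ hT1 (le_max_left _ _)
  have hTn : (1 + |t|) ^ n ≤ (1 + |t|) ^ max N n := pow_le_pow_right₀ hT1 (le_max_right _ _)
  have hone : ∀ q ∈ Q 1 X, ‖LL 1 q (1 / 2 + t * I)‖ ^ n ≤
      Real.exp (l * b + b ^ 2) / b *
        (∫ y : ℝ, ‖LL 1 q ((1 / 2 + b : ℝ) + (t + y : ℝ) * I)‖ ^ n * Real.exp (-1 * y ^ 2)) + D2 * (1 + |t|) ^ n := by
    intro q hq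
    obtain ⟨hq2, hqX, hI⟩ := mem_Q hq
    have h1 := one_step hI n (σ := 1 / 2) (a := -(3 / 4)) (b := b) (l := l) (K := 1) (t := t) one_pos (by norm_num) hb
      (by norm_num)
    have e1 : (((1 / 2 : ℝ) : ℂ) + t * I) = 1 / 2 + t * I := by push_cast; rfl
    rw [e1, one_mul, one_mul, abs_of_pos hb] at h1
    refine h1.trans (add_le_add le_rfl ?_)
    have h3 := sum_gauss (S := {q}) (fun p hp => by
      rw [Finset.mem_singleton] at hp
      subst hp
      exact hI) (n := n) (N := n) (x := 1 / 2 + -(3 / 4)) (V := (G * X) ^ n) (by positivity) (fun u => by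
      rw [Finset.sum_singleton, ← mul_pow]
      refine pow_le_pow_left₀ (norm_nonneg _) ?_ n
      have := hG 1 q hI ((1 / 2 + -(3 / 4) : ℝ) + u * I) (by simp; norm_num)
      have e2 : (((1 / 2 + -(3 / 4) : ℝ) : ℂ) + u * I).im = u := by simp
      rw [e2] at this
      calc _ ≤ G * (q * (1 + |u|)) := this
        _ ≤ G * (X * (1 + |u|)) :=
            mul_le_mul_of_nonneg_left (mul_le_mul_of_nonneg_right hqX.le (by positivity)) hG0.le
        _ = _ := by ring) t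
    rw [Finset.sum_singleton] at h3
    have h4 : Real.exp (l * -(3 / 4) + (-(3 / 4)) ^ 2) ≤ Real.exp ((3 / 4) ^ 2) * (X ^ n)⁻¹ := by
      have h5 : X ^ n = Real.exp (Real.log X * n) := by
        rw [← Real.rpow_natCast, Real.rpow_def_of_pos hX0]
      rw [h5, ← Real.exp_neg, ← Real.exp_add, hl]
      apply Real.exp_le_exp.2
      have := mul_nonneg (Real.log_nonneg hX) hn0
      nlinarith
    have h0 : |(-(3 / 4) : ℝ)| = 3 / 4 := by rw [abs_neg, abs_of_pos (by norm_num)]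
    rw [h0]
    calc _ ≤ Real.exp ((3 / 4) ^ 2) * (X ^ n)⁻¹ / (3 / 4) * ((G * X) ^ n * (1 + |t|) ^ n * fr n) :=
          mul_le_mul (div_le_div_of_nonneg_right h4 (by norm_num)) h3 (integral_nonneg fun y => by positivity)
            (by positivity)
      _ = _ := by
          rw [hD2, mul_pow]
          field_simp
  refine (Finset.sum_le_sum hone).trans ?_
  rw [Finset.sum_add_distrib, Finset.sum_const, nsmul_eq_mul, ← Finset.mul_sum]
  have h2 := sum_gauss (S := Q 1 X) (fun q hq => (mem_Q hq).2.2) (n := n) (N := N) (x := 1 / 2 + b) (V := C * X ^ a)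
    (by positivity) (fun u => h X u hX) t
  have hXa : X ≤ X ^ (a + 4 * n * b) := by
    calc X = X ^ (1 : ℝ) := (Real.rpow_one X).symm
      _ ≤ _ := Real.rpow_le_rpow_of_exponent_le hX (by
          have : 0 ≤ 4 * n * b := by positivity
          linarith)
  have hXp : 0 < X ^ (a + 4 * n * b) := by positivity
  have p1 : Real.exp (l * b + b ^ 2) / b * ∑ q ∈ Q 1 X, (∫ y : ℝ, ‖LL 1 q ((1 / 2 + b : ℝ) + (t + y : ℝ) * I)‖ ^ n *
      Real.exp (-1 * y ^ 2)) ≤ D1 * X ^ (a + 4 * n * b) * (1 + |t|) ^ max N n := by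
    have h1 : Real.exp (l * b + b ^ 2) = Real.exp (b ^ 2) * X ^ (4 * n * b) := by
      rw [Real.rpow_def_of_pos hX0, ← Real.exp_add, hl]
      ring_nf
    rw [h1]
    calc _ ≤ Real.exp (b ^ 2) * X ^ (4 * n * b) / b * (C * X ^ a * (1 + |t|) ^ N * fr N) :=
          mul_le_mul_of_nonneg_left h2 (by positivity)
      _ = D1 * (X ^ a * X ^ (4 * n * b)) * (1 + |t|) ^ N := by
          rw [hD1]
          ring
      _ = D1 * X ^ (a + 4 * n * b) * (1 + |t|) ^ N := by rw [← Real.rpow_add hX0]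
      _ ≤ _ := mul_le_mul_of_nonneg_left hTN (by positivity)
  have p2 : ((Q 1 X).card : ℝ) * (D2 * (1 + |t|) ^ n) ≤ D2 * X ^ (a + 4 * n * b) * (1 + |t|) ^ max N n := by
    calc _ ≤ X ^ (a + 4 * n * b) * (D2 * (1 + |t|) ^ max N n) := by
          refine mul_le_mul ((card_Q 1 hX).trans hXa) (mul_le_mul_of_nonneg_left hTn hD20) (by positivity) hXp.le
      _ = _ := by ring
  calc _ ≤ D1 * X ^ (a + 4 * n * b) * (1 + |t|) ^ max N n + D2 * X ^ (a + 4 * n * b) * (1 + |t|) ^ max N n :=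
        add_le_add p1 p2
    _ ≤ D1 * X ^ (a + 4 * n * b) * (1 + |t|) ^ max N n + D2 * X ^ (a + 4 * n * b) * (1 + |t|) ^ max N n +
        X ^ (a + 4 * n * b) * (1 + |t|) ^ max N n := le_add_of_nonneg_right (by positivity)
    _ = _ := by ring

/-- **from the continuation to the moments** -/
theorem MB_of_CT {m k : ℕ} (hk : 2 * m ≤ k) {a : ℝ} (ha : 1 ≤ a)
    (h : ∀ ε : ℝ, 0 < ε → CT k 1 (Fin.cons (a + ε) fun _ => 1 / 2 + ε)) : MB (2 * m) a := by
  obtain ⟨r, rfl⟩ : ∃ r, k = m + m + r := ⟨k - 2 * m, by omega⟩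
  intro η hη
  set ε : ℝ := min 1 (η / (8 * m + 2)) with hε
  have hm0 : (0 : ℝ) ≤ m := Nat.cast_nonneg m
  have hε0 : 0 < ε := lt_min one_pos (by positivity)
  have hε1 : ε ≤ 1 := min_le_left _ _
  have hε2 : ε * (8 * m + 2) ≤ η := by
    have : ε ≤ η / (8 * m + 2) := min_le_right _ _
    rwa [le_div_iff₀ (by positivity)] at this
  obtain ⟨C, N, hC, hb⟩ := off_moment (a := a + ε) (by linarith) hε0 hε1 (h ε hε0)
  obtain ⟨C', N', hC', hb'⟩ := line_mean hε0 (by linarith : 1 ≤ a + ε) hC hb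
  refine ⟨C', N', hC', fun X t hX => (hb' X t hX).trans ?_⟩
  refine mul_le_mul_of_nonneg_right (mul_le_mul_of_nonneg_left ?_ hC'.le) (by positivity)
  refine Real.rpow_le_rpow_of_exponent_le hX ?_
  push_cast
  nlinarith

end

end Pool.Agent.U575.MD
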