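import Pool.Agent.U575.MD.Fe

/-! Reflection of all the variables. -/

set_option autoImplicit false

open Complex Set Filter Topology MeasureTheory
open scoped ComplexConjugate

namespace Pool.Agent.U575.MD

open Pool.Agent.N879.QM
open Pool.Agent.Q48.MDS (tube Tempered orth sigma isOpen_tube bochner mem_of_ge tempered_glue eqOn_tube isOpen_orth
  orth_nonempty)
open Pool.Agent.U575.NC

noncomputable section

/-- a strong form of the continuation -/
theorem CT.strong {k M : ℕ} {p : Fin (k + 1) → ℝ} (h : CT k M p) : ∃ W : Set (Fin (k + 1) → ℝ), IsOpen W ∧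
    Convex ℝ W ∧ p ∈ W ∧ Rg k (1 + k) (-1 / 4) ⊆ W ∧ ∃ G : (Fin (k + 1) → ℂ) → ℂ, Tempered W G ∧
      EqOn G (FF k M) (tube (Rg k (1 + k) (-1 / 4))) := by
  obtain ⟨Ω, hΩo, hΩc, hsub, hp, G₀, hG₀, hGeq⟩ := h
  obtain ⟨G, hG, hGG⟩ := bochner hΩo hΩc hG₀
  set W := convexHull ℝ Ω with hW
  have hΩW : Ω ⊆ W := subset_convexHull ℝ Ω
  have hWo : IsOpen W := hΩo.convexHull
  have hWc : Convex ℝ W := convex_convexHull ℝ Ω
  have hoW : orth (k + 1) ⊆ W := hsub.trans hΩW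
  have hk0 : (0 : ℝ) ≤ k := Nat.cast_nonneg k
  have hUt : Tempered (Rg k (1 + k) (-1 / 4)) (FF k M) := by
    have := FF_tempered k M GB_one
    unfold Reg at this
    rwa [mul_one] at this
  set U := Rg k (1 + k) (-1 / 4) with hU
  have hmem : (fun _ => k + 3 : Fin (k + 1) → ℝ) ∈ orth (k + 1) ∩ U := by
    refine ⟨fun i => ?_, ?_, fun j => ?_⟩
    · show (1 : ℝ) < k + 3
      linarith
    · show (1 : ℝ) + k < k + 3
      linarith
    · show (-1 / 4 : ℝ) < k + 3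
      linarith
  have hEq : EqOn G (FF k M) (tube (W ∩ U)) := by
    refine eqOn_tube (Ω := orth (k + 1) ∩ U) ((isOpen_orth _).inter (isOpen_Rg _ _ _)) ⟨_, hmem⟩
      (hWo.inter (isOpen_Rg _ _ _)) (hWc.inter (convex_Rg _ _ _)) (inter_subset_inter_left _ hoW)
      (hG.1.mono fun z hz => hz.1) (hUt.1.mono fun z hz => hz.2) ?_
    intro z hz
    have h1 : z ∈ tube (orth (k + 1)) := hz.1
    rw [hGG (hsub h1), hGeq h1]
  obtain ⟨g, hg, hg1, hg2⟩ := tempered_glue hWo (isOpen_Rg _ _ _) hG hUt hEq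
  have hconn : IsConnected (W ∪ U) := IsConnected.union ⟨_, hoW hmem.1, hmem.2⟩ ⟨⟨_, hoW hmem.1⟩, hWc.isPreconnected⟩
    ⟨⟨_, hmem.2⟩, (convex_Rg _ _ _).isPreconnected⟩
  obtain ⟨g', hg', hgg'⟩ := bochner (hWo.union (isOpen_Rg _ _ _)) hconn hg
  have hWW : W ∪ U ⊆ convexHull ℝ (W ∪ U) := subset_convexHull ℝ _
  refine ⟨convexHull ℝ (W ∪ U), (hWo.union (isOpen_Rg _ _ _)).convexHull, convex_convexHull ℝ _,
    hWW (Or.inl (hΩW hp)), subset_union_right.trans hWW, g', hg', fun z hz => ?_⟩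
  rw [hgg' (show z ∈ tube (W ∪ U) from Or.inr hz), hg2 hz]

/-- the reflection of the variables in `J` -/
def Rf {k : ℕ} (J : Finset (Fin k)) (z : Fin (k + 1) → ℂ) : Fin (k + 1) → ℂ :=
  Fin.cons (z 0 + ∑ j ∈ J, z j.succ - J.card / 2) fun j => if j ∈ J then 1 - z j.succ else z j.succ

/-- the reflection of real points -/
def Rr {k : ℕ} (J : Finset (Fin k)) (x : Fin (k + 1) → ℝ) : Fin (k + 1) → ℝ :=
  Fin.cons (x 0 + ∑ j ∈ J, x j.succ - J.card / 2) fun j => if j ∈ J then 1 - x j.succ else x j.succ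

lemma Rf_zero {k : ℕ} (J : Finset (Fin k)) (z : Fin (k + 1) → ℂ) : Rf J z 0 = z 0 + ∑ j ∈ J, z j.succ - J.card / 2 := rfl

lemma Rf_succ {k : ℕ} (J : Finset (Fin k)) (z : Fin (k + 1) → ℂ) (j : Fin k) :
    Rf J z j.succ = if j ∈ J then 1 - z j.succ else z j.succ := rfl

lemma Rr_zero {k : ℕ} (J : Finset (Fin k)) (z : Fin (k + 1) → ℝ) : Rr J z 0 = z 0 + ∑ j ∈ J, z j.succ - J.card / 2 := rfl

lemma Rr_succ {k : ℕ} (J : Finset (Fin k)) (z : Fin (k + 1) → ℝ) (j : Fin k) :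
    Rr J z j.succ = if j ∈ J then 1 - z j.succ else z j.succ := rfl

lemma Rf_re {k : ℕ} (J : Finset (Fin k)) (z : Fin (k + 1) → ℂ) : (fun i => (Rf J z i).re) = Rr J fun i => (z i).re := by
  funext i
  refine Fin.cases ?_ (fun j => ?_) i
  · rw [Rf_zero, Rr_zero, sub_re, add_re, re_sum]
    congr 1
    rw [← ofReal_natCast, ← ofReal_ofNat, ← ofReal_div, ofReal_re]
  · rw [Rf_succ, Rr_succ]
    split_ifs
    · rw [sub_re, one_re]
    · rfl

lemma Rf_im {k : ℕ} (J : Finset (Fin k)) (z : Fin (k + 1) → ℂ) :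
    ‖fun i => (Rf J z i).im‖ ≤ (k + 1) * ‖fun i => (z i).im‖ := by
  have h0 : 0 ≤ ‖fun i => (z i).im‖ := norm_nonneg _
  have hk : (0 : ℝ) ≤ k := Nat.cast_nonneg k
  have hi : ∀ i, |(z i).im| ≤ ‖fun i => (z i).im‖ := fun i => by
    have := norm_le_pi_norm (fun i => (z i).im) i
    simpa using this
  rw [pi_norm_le_iff_of_nonneg (by positivity)]
  intro i
  refine Fin.cases ?_ (fun j => ?_) i
  · rw [Rf_zero, sub_im, add_im, im_sum, Real.norm_eq_abs]
    have e : ((J.card : ℂ) / 2).im = 0 := by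
      rw [← ofReal_natCast, ← ofReal_ofNat, ← ofReal_div, ofReal_im]
    rw [e, sub_zero]
    have h1 : |∑ j ∈ J, (z j.succ).im| ≤ k * ‖fun i => (z i).im‖ := by
      refine (Finset.abs_sum_le_sum_abs _ _).trans ?_
      calc _ ≤ ∑ _j ∈ J, ‖fun i => (z i).im‖ := Finset.sum_le_sum fun j _ => hi j.succ
        _ = J.card * ‖fun i => (z i).im‖ := by rw [Finset.sum_const, nsmul_eq_mul]
        _ ≤ _ := by
            refine mul_le_mul_of_nonneg_right ?_ h0
            have := Finset.card_le_univ J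
            rw [Fintype.card_fin] at this
            exact_mod_cast this
    have := abs_add_le (z 0).im (∑ j ∈ J, (z j.succ).im)
    have := hi 0
    linarith
  · rw [Rf_succ]
    have h1 := hi j.succ
    have h2 := mul_nonneg hk h0
    split_ifs
    · rw [sub_im, one_im, zero_sub, norm_neg, Real.norm_eq_abs]
      linarith
    · rw [Real.norm_eq_abs]
      linarith

lemma Rf_diff {k : ℕ} (J : Finset (Fin k)) : Differentiable ℂ (Rf J) := by
  rw [differentiable_pi]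
  intro i
  refine Fin.cases ?_ (fun j => ?_) i
  · show Differentiable ℂ fun z : Fin (k + 1) → ℂ => z 0 + ∑ j ∈ J, z j.succ - J.card / 2
    fun_prop
  · show Differentiable ℂ fun z : Fin (k + 1) → ℂ => if j ∈ J then 1 - z j.succ else z j.succ
    split_ifs
    · fun_prop
    · fun_prop

lemma Rr_cont {k : ℕ} (J : Finset (Fin k)) : Continuous (Rr J) := by
  refine continuous_pi fun i => ?_
  refine Fin.cases ?_ (fun j => ?_) i
  · show Continuous fun z : Fin (k + 1) → ℝ => z 0 + ∑ j ∈ J, z j.succ - J.card / 2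
    fun_prop
  · show Continuous fun z : Fin (k + 1) → ℝ => if j ∈ J then 1 - z j.succ else z j.succ
    split_ifs
    · fun_prop
    · fun_prop

lemma Rr_affine {k : ℕ} (J : Finset (Fin k)) (x y : Fin (k + 1) → ℝ) {a b : ℝ} (hab : a + b = 1) :
    Rr J (a • x + b • y) = a • Rr J x + b • Rr J y := by
  funext i
  refine Fin.cases ?_ (fun j => ?_) i
  · rw [Rr_zero]
    simp only [Pi.add_apply, Pi.smul_apply, smul_eq_mul, Rr_zero, Finset.sum_add_distrib, ← Finset.mul_sum]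
    have : (J.card : ℝ) / 2 = a * (J.card / 2) + b * (J.card / 2) := by rw [← add_mul, hab, one_mul]
    linear_combination -this
  · rw [Rr_succ]
    simp only [Pi.add_apply, Pi.smul_apply, smul_eq_mul, Rr_succ]
    split_ifs
    · linear_combination -hab
    · rfl

lemma Rr_Rr {k : ℕ} (J : Finset (Fin k)) (x : Fin (k + 1) → ℝ) : Rr J (Rr J x) = x := by
  funext i
  refine Fin.cases ?_ (fun j => ?_) i
  · rw [Rr_zero, Rr_zero]
    have h3 : ∑ j ∈ J, Rr J x j.succ = J.card - ∑ j ∈ J, x j.succ := by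
      rw [Finset.sum_congr rfl fun j hj => by rw [Rr_succ, if_pos hj]]
      rw [Finset.sum_sub_distrib, Finset.sum_const, nsmul_eq_mul, mul_one]
    rw [h3]
    ring
  · rw [Rr_succ, Rr_succ]
    split_ifs
    · ring
    · rfl

lemma PF_Rf {k : ℕ} (J : Finset (Fin k)) (z : Fin (k + 1) → ℂ) : PF (Rf J z) = PF z := by
  unfold PF
  refine Fintype.prod_equiv ⟨fun K : Finset (Fin k) => symmDiff K J, fun K => symmDiff K J,
    fun K => symmDiff_symmDiff_cancel_right J K, fun K => symmDiff_symmDiff_cancel_right J K⟩ _ _ fun K => ?_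
  show sigma K (Rf J z) - 1 = sigma (symmDiff K J) z - 1
  unfold sigma
  have hS : ∀ f : Fin k → ℂ, ∑ j ∈ symmDiff K J, f j = ∑ j ∈ K \ J, f j + ∑ j ∈ J \ K, f j := by
    intro f
    rw [symmDiff_def, Finset.sup_eq_union, Finset.sum_union]
    exact disjoint_sdiff_sdiff
  have hK : ∀ f : Fin k → ℂ, ∑ j ∈ K, f j = ∑ j ∈ K \ J, f j + ∑ j ∈ K ∩ J, f j := fun f => by
    rw [add_comm]
    exact (Finset.sum_inter_add_sum_sdiff K J f).symm
  have hJ : ∀ f : Fin k → ℂ, ∑ j ∈ J, f j = ∑ j ∈ J \ K, f j + ∑ j ∈ K ∩ J, f j := fun f => by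
    rw [Finset.inter_comm, add_comm]
    exact (Finset.sum_inter_add_sum_sdiff J K f).symm
  have c1 : ∀ S : Finset (Fin k), (S.card : ℂ) = ∑ _j ∈ S, (1 : ℂ) := fun S => by
    rw [Finset.sum_const, nsmul_eq_mul, mul_one]
  have h3 : ∑ j ∈ K, Rf J z j.succ = ∑ j ∈ K \ J, z j.succ + (∑ _j ∈ K ∩ J, (1 : ℂ) - ∑ j ∈ K ∩ J, z j.succ) := by
    rw [hK]
    congr 1
    · refine Finset.sum_congr rfl fun j hj => ?_
      rw [Rf_succ, if_neg (Finset.mem_sdiff.1 hj).2]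
    · rw [← Finset.sum_sub_distrib]
      refine Finset.sum_congr rfl fun j hj => ?_
      rw [Rf_succ, if_pos (Finset.mem_inter.1 hj).2]
  rw [h3, Rf_zero, c1 K, c1 J, c1 (symmDiff K J), hS, hS, hK (fun _ => 1), hJ (fun _ => 1), hJ fun j => z j.succ]
  ring

lemma cpow_prod {ι : Type*} {c : ℂ} (hc : c ≠ 0) (s : Finset ι) (f : ι → ℂ) : ∏ i ∈ s, c ^ f i = c ^ ∑ i ∈ s, f i := by
  classical
  induction s using Finset.induction_on with
  | empty => simp
  | insert a s ha ih => rw [Finset.prod_insert ha, Finset.sum_insert ha, ih, cpow_add _ _ hc]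

lemma gq_Rf {k M q : ℕ} {J : Finset (Fin k)} (hk : Even J.card) {z : Fin (k + 1) → ℂ} (hz : ∀ j ∈ J, (z j.succ).re < 1) :
    (∏ j ∈ J, Xg (z j.succ)) * gq k M (Rf J z) q = gq k M z q := by
  unfold gq
  by_cases hq : Is 1 q
  swap
  · rw [if_neg hq, if_neg hq, mul_zero]
  rw [if_pos hq, if_pos hq]
  have hq0 : (q : ℂ) ≠ 0 := by
    have := hq.1
    exact_mod_cast (by omega : q ≠ 0)
  unfold fq
  have h1 : ∏ j ∈ J, LL 1 q (z j.succ) = (q : ℂ) ^ ((J.card : ℂ) / 2 - ∑ j ∈ J, z j.succ) *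
      (∏ j ∈ J, Xg (z j.succ)) * ∏ j ∈ J, LL 1 q (1 - z j.succ) := by
    have h2 : ∀ j ∈ J, LL 1 q (z j.succ) = rn hq * (q : ℂ) ^ (1 / 2 - z j.succ) * Xg (z j.succ) * LL 1 q (1 - z j.succ) :=
      fun j hj => fe hq (hz j hj)
    rw [Finset.prod_congr rfl h2]
    rw [Finset.prod_mul_distrib, Finset.prod_mul_distrib, Finset.prod_mul_distrib, Finset.prod_const]
    have h3 : rn hq ^ J.card = 1 := by
      obtain ⟨m, hm⟩ := hk
      rw [hm, ← two_mul, pow_mul, rn_sq, one_pow]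
    have h4 : ∏ j ∈ J, (q : ℂ) ^ (1 / 2 - z j.succ) = (q : ℂ) ^ ((J.card : ℂ) / 2 - ∑ j ∈ J, z j.succ) := by
      rw [cpow_prod hq0, Finset.sum_sub_distrib, Finset.sum_const, nsmul_eq_mul]
      congr 2
      ring
    rw [h3, h4, one_mul]
  have h6 : ∏ j : Fin k, LL 1 q (z j.succ) = (∏ j ∈ J, LL 1 q (z j.succ)) * ∏ j ∈ Jᶜ, LL 1 q (z j.succ) :=
    (Finset.prod_mul_prod_compl J _).symm
  have h7 : ∏ j : Fin k, LL 1 q (Rf J z j.succ) = (∏ j ∈ J, LL 1 q (1 - z j.succ)) * ∏ j ∈ Jᶜ, LL 1 q (z j.succ) := by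
    rw [← Finset.prod_mul_prod_compl J]
    congr 1
    · exact Finset.prod_congr rfl fun j hj => by rw [Rf_succ, if_pos hj]
    · exact Finset.prod_congr rfl fun j hj => by rw [Rf_succ, if_neg (Finset.mem_compl.1 hj)]
  rw [h7, h6, h1, Rf_zero]
  have h5 : (q : ℂ) ^ (-(z 0 + ∑ j ∈ J, z j.succ - J.card / 2)) =
      (q : ℂ) ^ (-(z 0)) * (q : ℂ) ^ ((J.card : ℂ) / 2 - ∑ j ∈ J, z j.succ) := by
    rw [← cpow_add _ _ hq0]
    congr 1
    ring
  rw [h5]
  ring

lemma FF_Rf {k M : ℕ} {J : Finset (Fin k)} (hk : Even J.card) {z : Fin (k + 1) → ℂ} (hz : ∀ j ∈ J, (z j.succ).re < 1) :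
    (∏ j ∈ J, Xg (z j.succ)) * FF k M (Rf J z) = FF k M z := by
  unfold FF
  rw [PF_Rf, ← mul_assoc]
  congr 1
  unfold BB
  rw [← tsum_mul_left]
  exact tsum_congr fun q => gq_Rf hk hz

end

end Pool.Agent.U575.MD
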