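import Pool.Agent.U575.MD.Avg

/-! Continuation of the multiple Dirichlet series to `Re w > 1/2`, `Re s_j > 3/2`. -/

set_option autoImplicit false

open Complex Set Filter Topology MeasureTheory

namespace Pool.Agent.U575.MD

open Pool.Agent.N879.QM
open Pool.Agent.Q48.MDS (tube Tempered orth sigma isOpen_tube differentiableOn_integral)
open Pool.Agent.U575.NC

noncomputable section

/-! ### Tempered functions -/

section

variable {ι : Type*} [Fintype ι] {Ω : Set (ι → ℝ)}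

lemma Tempered.add {F G : (ι → ℂ) → ℂ} (hF : Tempered Ω F) (hG : Tempered Ω G) :
    Tempered Ω (fun z => F z + G z) := by
  refine ⟨hF.1.add hG.1, fun K hK hc => ?_⟩
  obtain ⟨C, N, h1⟩ := hF.2 K hK hc
  obtain ⟨C', N', h2⟩ := hG.2 K hK hc
  refine ⟨|C| + |C'|, max N N', fun z hz => ?_⟩
  have e0 : 1 ≤ 1 + ‖fun i => (z i).im‖ := by linarith [norm_nonneg (fun i => (z i).im)]
  have m1 : (1 + ‖fun i => (z i).im‖) ^ N ≤ (1 + ‖fun i => (z i).im‖) ^ max N N' :=
    pow_le_pow_right₀ e0 (le_max_left _ _)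
  have m2 : (1 + ‖fun i => (z i).im‖) ^ N' ≤ (1 + ‖fun i => (z i).im‖) ^ max N N' :=
    pow_le_pow_right₀ e0 (le_max_right _ _)
  have e1 : ‖F z‖ ≤ |C| * (1 + ‖fun i => (z i).im‖) ^ max N N' :=
    (h1 z hz).trans (mul_le_mul (le_abs_self C) m1 (by positivity) (abs_nonneg _))
  have e2 : ‖G z‖ ≤ |C'| * (1 + ‖fun i => (z i).im‖) ^ max N N' :=
    (h2 z hz).trans (mul_le_mul (le_abs_self C') m2 (by positivity) (abs_nonneg _))
  rw [add_mul]
  exact (norm_add_le _ _).trans (add_le_add e1 e2)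

lemma tempered_of_bdd {F : (ι → ℂ) → ℂ} (hd : DifferentiableOn ℂ F (tube Ω))
    (hb : ∀ K ⊆ Ω, IsCompact K → ∃ C : ℝ, ∀ z : ι → ℂ, (fun i => (z i).re) ∈ K → ‖F z‖ ≤ C) : Tempered Ω F := by
  refine ⟨hd, fun K hK hc => ?_⟩
  obtain ⟨C, hC⟩ := hb K hK hc
  exact ⟨C, 0, fun z hz => by rw [pow_zero, mul_one]; exact hC z hz⟩

lemma const_tempered (c : ℂ) : Tempered Ω (fun _ => c) :=
  tempered_of_bdd (differentiableOn_const c) fun _ _ _ => ⟨‖c‖, fun _ _ => le_rfl⟩

lemma coord_tempered (i : ι) : Tempered Ω (fun z => z i) := by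
  refine ⟨Differentiable.differentiableOn (by fun_prop), fun K _ hc => ?_⟩
  obtain ⟨R, hR⟩ := hc.isBounded.exists_norm_le
  refine ⟨|R| + 1, 1, fun z hz => ?_⟩
  have e1 := norm_le_pi_norm (fun i => (z i).re) i
  have e2 := norm_le_pi_norm (fun i => (z i).im) i
  have e3 := hR _ hz
  have e4 := Complex.norm_le_abs_re_add_abs_im (z i)
  simp only [Real.norm_eq_abs] at e1 e2
  have e5 := le_abs_self R
  have e6 := mul_nonneg (abs_nonneg R) (norm_nonneg fun i => (z i).im)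
  rw [pow_one]
  nlinarith

lemma Tempered.finset_sum {κ : Type*} (S : Finset κ) {F : κ → (ι → ℂ) → ℂ} (h : ∀ j ∈ S, Tempered Ω (F j)) :
    Tempered Ω (fun z => ∑ j ∈ S, F j z) := by
  classical
  induction S using Finset.induction_on with
  | empty =>
      simp only [Finset.sum_empty]
      exact const_tempered 0
  | insert a s ha ih =>
      simp only [Finset.sum_insert ha]
      exact Tempered.add (h a (Finset.mem_insert_self a s)) (ih fun i hi => h i (Finset.mem_insert_of_mem hi))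

lemma Tempered.finset_prod {κ : Type*} (S : Finset κ) {F : κ → (ι → ℂ) → ℂ} (h : ∀ j ∈ S, Tempered Ω (F j)) :
    Tempered Ω (fun z => ∏ j ∈ S, F j z) := by
  classical
  induction S using Finset.induction_on with
  | empty =>
      simp only [Finset.prod_empty]
      exact const_tempered 1
  | insert a s ha ih =>
      simp only [Finset.prod_insert ha]
      exact Tempered.mul (h a (Finset.mem_insert_self a s)) (ih fun i hi => h i (Finset.mem_insert_of_mem hi))

end

lemma sigma_tempered {k : ℕ} {Ω : Set (Fin (k + 1) → ℝ)} (J : Finset (Fin k)) :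
    Tempered Ω (fun z => sigma J z - 1) := by
  have h := Tempered.add (Tempered.add (coord_tempered (Ω := Ω) (0 : Fin (k + 1)))
    (const_tempered (Ω := Ω) (-((J.card : ℂ) / 2) - 1)))
    (Tempered.finset_sum (Ω := Ω) J (F := fun j z => z j.succ) fun j _ => coord_tempered _)
  have e : (fun z : Fin (k + 1) → ℂ => sigma J z - 1) =
      fun z => z 0 + (-((J.card : ℂ) / 2) - 1) + ∑ j ∈ J, z j.succ := by
    funext z
    unfold sigma
    ring
  rw [e]
  exact h

/-! ### The summatory functions -/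

open Classical in
/-- the coefficient -/
def aq (k M q : ℕ) (z : Fin (k + 1) → ℂ) : ℂ := if Is 1 q then vl 1 q M * ∏ j : Fin k, LL 1 q (z j.succ) else 0

lemma aq_diff (k M q : ℕ) : Differentiable ℂ (aq k M q) := by
  unfold aq
  by_cases h : Is 1 q
  · simp only [if_pos h]
    have h2 : Differentiable ℂ fun z : Fin (k + 1) → ℂ => ∏ j : Fin k, LL 1 q (z j.succ) := by
      apply diff_prod
      intro j _
      exact (LL_diff h).comp (by fun_prop)
    exact h2.const_mul _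
  · simp only [if_neg h]
    fun_prop

lemma gq_eq_aq (k M q : ℕ) (z : Fin (k + 1) → ℂ) : gq k M z q = aq k M q z * (q : ℂ) ^ (-(z 0)) := by
  unfold gq aq fq
  split_ifs
  · ring
  · simp

/-- the summatory function -/
def SS (k M n : ℕ) (z : Fin (k + 1) → ℂ) : ℂ := ∑ q ∈ Finset.Icc 1 n, aq k M q z

lemma AA_eq (k M : ℕ) (X : ℝ) (z : Fin (k + 1) → ℂ) :
    AA k M X (fun j => z j.succ) = ∑ q ∈ Finset.Ico 2 ⌈X⌉₊, aq k M q z := by
  classical
  unfold AA Q aq
  rw [Finset.sum_filter]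

lemma aq_small {k M q : ℕ} (hq : q < 2) (z : Fin (k + 1) → ℂ) : aq k M q z = 0 := by
  unfold aq
  rw [if_neg]
  intro h
  have := h.1
  omega

lemma SS_eq (k M n : ℕ) (z : Fin (k + 1) → ℂ) : SS k M n z = AA k M ((n + 1 : ℕ) : ℝ) (fun j => z j.succ) := by
  rw [AA_eq, Nat.ceil_natCast]
  unfold SS
  symm
  apply Finset.sum_subset
  · intro q hq
    rw [Finset.mem_Ico] at hq
    rw [Finset.mem_Icc]
    omega
  · intro q hq hq2
    rw [Finset.mem_Icc] at hq
    rw [Finset.mem_Ico] at hq2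
    exact aq_small (by omega) z

/-- the normalised sums -/
def uu (k M i : ℕ) (z : Fin (k + 1) → ℂ) : ℂ := AA k M ((2 ^ i : ℕ) : ℝ) (fun j => z j.succ) / (2 : ℂ) ^ i

/-- the density -/
def cc (k M : ℕ) (z : Fin (k + 1) → ℂ) : ℂ := ∑' i : ℕ, (uu k M (i + 1) z - uu k M i z)

lemma uu_diff (k M i : ℕ) : Differentiable ℂ (uu k M i) := by
  unfold uu
  simp only [AA_eq, div_eq_mul_inv]
  have : Differentiable ℂ fun z : Fin (k + 1) → ℂ => ∑ q ∈ Finset.Ico 2 ⌈((2 ^ i : ℕ) : ℝ)⌉₊, aq k M q z :=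
    Differentiable.fun_sum fun q _ => aq_diff k M q
  exact this.mul_const _

/-- **estimates** -/
theorem est (k M : ℕ) (hM : 1 ≤ M) {ρ : ℝ} (hρ : 0 < ρ) : ∃ C : ℝ, 0 < C ∧ ∀ z : Fin (k + 1) → ℂ,
    (∀ j : Fin k, 3 / 2 + ρ ≤ (z j.succ).re) → ‖cc k M z‖ ≤ C ∧
      (∀ i, ‖uu k M (i + 1) z - uu k M i z‖ ≤ C * (√(1 / 2)) ^ i) ∧
      ∀ t : ℝ, 1 ≤ t → ‖SS k M ⌊t⌋₊ z - cc k M z * t‖ ≤ C * √t := by
  obtain ⟨C, hC, h⟩ := avg k hρ
  have hMR : (0 : ℝ) < M := by exact_mod_cast hM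
  have hsM : 0 < √M := Real.sqrt_pos.2 hMR
  set D : ℝ := C * √M with hD
  have hD0 : 0 < D := by positivity
  refine ⟨3 * D, by positivity, fun z hz => ?_⟩
  obtain ⟨c, hc⟩ := h (fun j => z j.succ) hz M hM
  have hc' : ∀ X : ℝ, 1 ≤ X → ‖AA k M X (fun j => z j.succ) - c * X‖ ≤ D * √X := fun X hX => by
    have := hc X hX
    rw [hD]
    linarith
  have hcn : ‖c‖ ≤ D := by
    have := hc' 1 le_rfl
    rwa [AA_one, zero_sub, norm_neg, ofReal_one, mul_one, Real.sqrt_one, mul_one] at this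
  set r : ℝ := √(1 / 2) with hr
  have hr0 : 0 ≤ r := Real.sqrt_nonneg _
  have hr1 : r < 1 := by
    rw [hr, Real.sqrt_lt' one_pos]
    norm_num
  have hu : ∀ i, ‖uu k M i z - c‖ ≤ D * r ^ i := by
    intro i
    have h2i : (1 : ℝ) ≤ ((2 ^ i : ℕ) : ℝ) := by exact_mod_cast Nat.one_le_two_pow
    have h1 := hc' _ h2i
    have e1 : uu k M i z - c = (AA k M ((2 ^ i : ℕ) : ℝ) (fun j => z j.succ) - c * (((2 ^ i : ℕ) : ℝ) : ℂ)) / (2 : ℂ) ^ i := by
      unfold uu
      push_cast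
      field_simp
    rw [e1, norm_div, norm_pow, Complex.norm_ofNat, div_le_iff₀ (by positivity)]
    refine h1.trans (le_of_eq ?_)
    have e2 : √(((2 ^ i : ℕ) : ℝ)) = r ^ i * 2 ^ i := by
      push_cast
      rw [hr, ← mul_pow]
      have e3 : √(1 / 2) * 2 = √2 := by
        rw [Real.sqrt_div zero_le_one, Real.sqrt_one]
        have := Real.mul_self_sqrt (show (0 : ℝ) ≤ 2 by norm_num)
        field_simp
        nlinarith
      rw [e3]
      have e4 : (√2 ^ i) * (√2 ^ i) = (2 : ℝ) ^ i := by rw [← mul_pow, Real.mul_self_sqrt (by norm_num)]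
      rw [← e4, Real.sqrt_mul_self (by positivity)]
    rw [e2]
    ring
  have hud : ∀ i, ‖uu k M (i + 1) z - uu k M i z‖ ≤ 2 * D * r ^ i := by
    intro i
    have e1 : uu k M (i + 1) z - uu k M i z = (uu k M (i + 1) z - c) - (uu k M i z - c) := by ring
    rw [e1]
    refine (norm_sub_le _ _).trans ?_
    have h1 := hu (i + 1)
    have h2 := hu i
    have h3 : r ^ (i + 1) ≤ r ^ i := pow_le_pow_of_le_one hr0 hr1.le (by omega)
    nlinarith
  have hsum : Summable fun i => uu k M (i + 1) z - uu k M i z :=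
    Summable.of_norm_bounded (g := fun i => 2 * D * r ^ i) ((summable_geometric_of_lt_one hr0 hr1).mul_left _) hud
  have hcc : cc k M z = c := by
    have h1 : Tendsto (fun n => ∑ i ∈ Finset.range n, (uu k M (i + 1) z - uu k M i z)) atTop (𝓝 (cc k M z)) :=
      hsum.hasSum.tendsto_sum_nat
    have h2 : Tendsto (fun n => uu k M n z) atTop (𝓝 c) := by
      rw [tendsto_iff_norm_sub_tendsto_zero]
      refine squeeze_zero (fun n => norm_nonneg _) hu ?_
      have := (tendsto_pow_atTop_nhds_zero_of_lt_one hr0 hr1).const_mul D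
      simpa using this
    have h3 : uu k M 0 z = 0 := by
      unfold uu
      have : (((2 ^ 0 : ℕ)) : ℝ) = 1 := by norm_num
      rw [this, AA_one, zero_div]
    refine tendsto_nhds_unique h1 ?_
    refine h2.congr fun n => ?_
    rw [Finset.sum_range_sub (fun i => uu k M i z) n, h3, sub_zero]
  rw [hcc]
  refine ⟨by linarith, fun i => (hud i).trans ?_, fun t ht => ?_⟩
  · have : 0 ≤ r ^ i := by positivity
    nlinarith
  · rw [SS_eq]
    have ht0 : 0 ≤ t := by linarith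
    have hf1 : ((⌊t⌋₊ : ℕ) : ℝ) ≤ t := Nat.floor_le ht0
    have hf2 : t < (⌊t⌋₊ : ℝ) + 1 := Nat.lt_floor_add_one t
    have h1 := hc' ((⌊t⌋₊ + 1 : ℕ) : ℝ) (by
      push_cast
      linarith)
    have hst : 1 ≤ √t := by
      rw [Real.one_le_sqrt]
      exact ht
    have h2 : √(((⌊t⌋₊ + 1 : ℕ) : ℝ)) ≤ 2 * √t := by
      have e1 : (2 : ℝ) * √t = √(4 * t) := by
        rw [Real.sqrt_mul (by norm_num)]
        congr 1
        rw [show (4 : ℝ) = 2 ^ 2 by norm_num, Real.sqrt_sq (by norm_num)]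
      rw [e1]
      apply Real.sqrt_le_sqrt
      push_cast
      linarith
    have e3 : AA k M ((⌊t⌋₊ + 1 : ℕ) : ℝ) (fun j => z j.succ) - c * t =
        (AA k M ((⌊t⌋₊ + 1 : ℕ) : ℝ) (fun j => z j.succ) - c * (((⌊t⌋₊ + 1 : ℕ) : ℝ) : ℂ)) +
          c * (((((⌊t⌋₊ + 1 : ℕ) : ℝ) - t : ℝ)) : ℂ) := by
      push_cast
      ring
    rw [e3]
    refine (norm_add_le _ _).trans ?_
    rw [norm_mul c, Complex.norm_real, Real.norm_eq_abs]
    have h4 : |(((⌊t⌋₊ + 1 : ℕ) : ℝ) - t)| ≤ 1 := by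
      rw [abs_le]
      push_cast
      constructor
      · linarith
      · linarith
    calc _ ≤ D * (2 * √t) + D * 1 := by
          refine add_le_add (h1.trans (mul_le_mul_of_nonneg_left h2 hD0.le)) ?_
          exact mul_le_mul hcn h4 (abs_nonneg _) hD0.le
      _ ≤ _ := by nlinarith

end

end Pool.Agent.U575.MD
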